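import Mathlib

/-!
Hard Lefschetz for operators with the relations of sl(2) (for MP_d037d4_ag).
-/

namespace Pool.H94.WM

open Module Submodule

section sl
variable {Ω : Type} [Field Ω] [CharZero Ω] {V : Type} [AddCommGroup V] [Module Ω V]
  {N E h : V →ₗ[Ω] V}

omit [CharZero Ω] in
theorem sl_pow (hhE : ∀ x, h (E x) = E (h x) + (2 : Ω) • E x) {w : Ω} {x : V} (hx : h x = w • x)
    (m : ℕ) : h ((E ^ m) x) = (w + 2 * m) • (E ^ m) x := by
  induction m with
  | zero => simpa using hx
  | succ m ih =>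
    have e : (E ^ (m + 1)) x = E ((E ^ m) x) := by rw [pow_succ']; rfl
    rw [e, hhE, ih, map_smul]
    push_cast
    module

omit [CharZero Ω] in
theorem sl_comm (hEN : ∀ x, E (N x) = N (E x) + h x)
    (hhE : ∀ x, h (E x) = E (h x) + (2 : Ω) • E x) {w : Ω} {x : V} (hx : h x = w • x) (m : ℕ) :
    (E ^ (m + 1)) (N x) = N ((E ^ (m + 1)) x) + (((m : Ω) + 1) * (w + m)) • (E ^ m) x := by
  induction m with
  | zero =>
    simp only [zero_add, pow_one, pow_zero, Module.End.one_apply, Nat.cast_zero, add_zero, one_mul]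
    rw [hEN, hx]
  | succ m ih =>
    have e : ∀ y, (E ^ (m + 1 + 1)) y = E ((E ^ (m + 1)) y) := fun y => by rw [pow_succ']; rfl
    have e2 : (E ^ (m + 1)) x = E ((E ^ m) x) := by rw [pow_succ']; rfl
    rw [e, ih, e, map_add, map_smul, ← e2, hEN, sl_pow hhE hx (m + 1)]
    push_cast
    module

omit [CharZero Ω] in
theorem sl_main (hEN : ∀ x, E (N x) = N (E x) + h x)
    (hhE : ∀ x, h (E x) = E (h x) + (2 : Ω) • E x)
    (hhN : ∀ x, h (N x) = N (h x) - (2 : Ω) • N x) (b : ℕ) :
    ∀ (s : ℕ) (w : Ω) (x : V), h x = w • x → (E ^ (s + 1)) x = 0 →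
      (E ^ (s + b)) ((N ^ b) x)
        = (∏ t ∈ Finset.range b, (((s : Ω) + t + 1) * (w + s - t))) • (E ^ s) x := by
  induction b with
  | zero => intro s w x _ _; simp
  | succ b ih =>
    intro s w x hx hs
    have h1 : h (N x) = (w - 2) • N x := by
      rw [hhN, hx, map_smul, sub_smul]
    have h2 : (E ^ (s + 1 + 1)) (N x) = 0 := by
      rw [sl_comm hEN hhE hx, hs, smul_zero, add_zero]
      have e : (E ^ (s + 1 + 1)) x = E ((E ^ (s + 1)) x) := by rw [pow_succ']; rfl
      rw [e, hs, map_zero, map_zero]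
    have h3 := ih (s + 1) (w - 2) (N x) h1 h2
    have h4 := sl_comm hEN hhE hx s
    rw [hs, map_zero, zero_add] at h4
    have e1 : (N ^ (b + 1)) x = (N ^ b) (N x) := by rw [pow_succ]; rfl
    have e2 : s + (b + 1) = s + 1 + b := by ring
    rw [e1, e2, h3, h4, smul_smul, Finset.prod_range_succ']
    congr 1
    congr 1
    · apply Finset.prod_congr rfl
      intro t _
      push_cast
      ring
    · push_cast
      ring

/-- Injectivity of `N ^ k` on the part of weight `k`. -/
theorem sl_inj (hEN : ∀ x, E (N x) = N (E x) + h x)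
    (hhE : ∀ x, h (E x) = E (h x) + (2 : Ω) • E x)
    (hhN : ∀ x, h (N x) = N (h x) - (2 : Ω) • N x) {x : V} (hE : ∃ K : ℕ, (E ^ K) x = 0) (k : ℕ)
    (hx : h x = (k : Ω) • x) (hN : (N ^ k) x = 0) : x = 0 := by
  classical
  have hK := Nat.find_spec hE
  rcases Nat.eq_zero_or_pos (Nat.find hE) with h0 | h0
  · rw [h0] at hK
    simpa using hK
  · exfalso
    obtain ⟨s, hs⟩ : ∃ s, Nat.find hE = s + 1 := ⟨Nat.find hE - 1, by omega⟩
    rw [hs] at hK
    have h1 := sl_main hEN hhE hhN k s k x hx hK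
    rw [hN, map_zero] at h1
    have h2 : (∏ t ∈ Finset.range k, (((s : Ω) + t + 1) * ((k : Ω) + s - t))) ≠ 0 := by
      rw [Finset.prod_ne_zero_iff]
      intro t ht
      have htk := Finset.mem_range.1 ht
      apply mul_ne_zero
      · have : ((s + t + 1 : ℕ) : Ω) ≠ 0 := Nat.cast_ne_zero.2 (by omega)
        push_cast at this
        exact this
      · have : ((k + s - t : ℕ) : Ω) ≠ 0 := Nat.cast_ne_zero.2 (by omega)
        rw [Nat.cast_sub (by omega)] at this
        push_cast at this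
        exact this
    have h3 := (smul_eq_zero.1 h1.symm).resolve_left h2
    exact Nat.find_min hE (by omega : s < Nat.find hE) h3

end sl

end Pool.H94.WM
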