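import Mathlib

/-!
String decomposition of a graded nilpotent operator (for MP_d037d4_ag).
-/

namespace Pool.H94.WM

open Module Submodule

section str
variable {Ω : Type} [Field Ω] [CharZero Ω] {V : Type} [AddCommGroup V] [Module Ω V]

/-- String decomposition of a subspace. -/
def StrDec (N D : V →ₗ[Ω] V) (C : Submodule Ω V) : Prop :=
  ∃ (S : Type) (_ : Fintype S) (l : S → ℕ) (x : S → V) (μ : S → Ω),
    (∀ s, D (x s) = μ s • x s) ∧ (∀ s, (N ^ l s) (x s) = 0) ∧
    LinearIndependent Ω (fun a : (Σ s, Fin (l s)) => (N ^ (a.2 : ℕ)) (x a.1)) ∧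
    span Ω (Set.range (fun a : (Σ s, Fin (l s)) => (N ^ (a.2 : ℕ)) (x a.1))) = C

omit [CharZero Ω] in
theorem eig_top_ext {D : V →ₗ[Ω] V} (hD : ⨆ μ, End.eigenspace D μ = ⊤) {U : Type}
    [AddCommGroup U] [Module Ω U] {f g : V →ₗ[Ω] U}
    (h : ∀ (μ : Ω) (x : V), D x = μ • x → f x = g x) : f = g := by
  have h1 : (⊤ : Submodule Ω V) ≤ LinearMap.eqLocus f g := by
    rw [← hD]
    exact iSup_le fun μ x hx => h μ x (End.mem_eigenspace_iff.1 hx)
  ext x
  exact h1 trivial

omit [CharZero Ω] in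
theorem D_pow {N D : V →ₗ[Ω] V} (hDN : ∀ x, D (N x) = N (D x) - (2 : Ω) • N x) (k : ℕ) (y : V) :
    D ((N ^ k) y) = (N ^ k) (D y) - (2 * k : Ω) • (N ^ k) y := by
  induction k generalizing y with
  | zero => simp
  | succ k ih =>
    have e : ∀ z, (N ^ (k + 1)) z = (N ^ k) (N z) := fun z => by rw [pow_succ]; rfl
    rw [e, e, ih, hDN, map_sub, map_smul]
    push_cast
    module

omit [CharZero Ω] in
theorem D_pow_eig {N D : V →ₗ[Ω] V} (hDN : ∀ x, D (N x) = N (D x) - (2 : Ω) • N x) {μ : Ω} {x : V}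
    (hx : D x = μ • x) (k : ℕ) : D ((N ^ k) x) = (μ - 2 * k) • (N ^ k) x := by
  rw [D_pow hDN, hx, map_smul, ← sub_smul]

variable [FiniteDimensional Ω V]

theorem strDec_aux {N D : V →ₗ[Ω] V} (hD : ⨆ μ, End.eigenspace D μ = ⊤)
    (hDN : ∀ x, D (N x) = N (D x) - (2 : Ω) • N x) (hN : ∃ K : ℕ, ∀ x, (N ^ K) x = 0) :
    ∀ (n : ℕ) (C : Submodule Ω V), finrank Ω C = n → (∀ x ∈ C, N x ∈ C) → (∀ x ∈ C, D x ∈ C) →
      StrDec N D C := by
  intro n
  induction n using Nat.strong_induction_on with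
  | _ n IH =>
  intro C hn hCN hCD
  classical
  by_cases hC : C = ⊥
  · refine ⟨Empty, inferInstance, Empty.elim, Empty.elim, Empty.elim, fun s => s.elim,
      fun s => s.elim, ?_, ?_⟩
    · have : IsEmpty (Σ s : Empty, Fin (Empty.elim s)) := ⟨fun a => a.1.elim⟩
      exact linearIndependent_empty_type
    · have : IsEmpty (Σ s : Empty, Fin (Empty.elim s)) := ⟨fun a => a.1.elim⟩
      rw [Set.range_eq_empty, span_empty, hC]
  · obtain ⟨K0, hK0⟩ := hN
    have hex : ∃ K : ℕ, ∀ x ∈ C, (N ^ K) x = 0 := ⟨K0, fun x _ => hK0 x⟩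
    have hK := Nat.find_spec hex
    have hKne : Nat.find hex ≠ 0 := by
      intro h0
      rw [h0] at hK
      apply hC
      rw [eq_bot_iff]
      intro x hx
      simpa using hK x hx
    obtain ⟨m, hm⟩ := Nat.exists_eq_succ_of_ne_zero hKne
    rw [hm] at hK
    have hm1 : ¬ ∀ x ∈ C, (N ^ m) x = 0 := Nat.find_min hex (by omega)
    -- a homogeneous vector
    have hhom : ∃ (μ : Ω) (x : V), x ∈ C ∧ D x = μ • x ∧ (N ^ m) x ≠ 0 := by
      by_contra hcon
      push Not at hcon
      apply hm1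
      have h1 : C ≤ LinearMap.ker (N ^ m) := by
        have h2 := Submodule.inf_iSup_genEigenspace (p := C) (f := D) hCD 1
        have h3 : (⨆ μ, End.genEigenspace D μ 1) = ⊤ := hD
        rw [h3, inf_top_eq] at h2
        rw [h2]
        refine iSup_le fun μ => ?_
        rintro x ⟨hx1, hx2⟩
        exact hcon μ x hx1 (End.mem_eigenspace_iff.1 hx2)
      exact fun x hx => h1 hx
    obtain ⟨μ, x, hxC, hxD, hxm⟩ := hhom
    have hz : (N ^ m) x ∈ End.eigenspace D (μ - 2 * m) :=
      End.mem_eigenspace_iff.2 (D_pow_eig hDN hxD m)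
    have hzP : (N ^ m) x ∉ ⨆ ν, ⨆ (_ : ν ≠ μ - 2 * m), End.eigenspace D ν := by
      intro h
      exact hxm (Submodule.disjoint_def.1 (End.eigenspaces_iSupIndep D (μ - 2 * m)) _ hz h)
    obtain ⟨φ0, hφ0, hφP⟩ := Submodule.exists_dual_map_eq_bot_of_notMem hzP inferInstance
    obtain ⟨φ, hφz, hφν⟩ : ∃ φ : V →ₗ[Ω] Ω, φ ((N ^ m) x) = 1 ∧
        ∀ ν, ν ≠ μ - 2 * m → ∀ y, D y = ν • y → φ y = 0 := by
      refine ⟨(φ0 ((N ^ m) x))⁻¹ • φ0, ?_, ?_⟩
      · rw [LinearMap.smul_apply, smul_eq_mul, inv_mul_cancel₀ hφ0]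
      · intro ν hν y hy
        have h1 : y ∈ ⨆ ν, ⨆ (_ : ν ≠ μ - 2 * m), End.eigenspace D ν := by
          refine Submodule.mem_iSup_of_mem ν (Submodule.mem_iSup_of_mem hν ?_)
          exact End.mem_eigenspace_iff.2 hy
        have h2 : φ0 y = 0 := by
          have h3 : φ0 y ∈ (⨆ ν, ⨆ (_ : ν ≠ μ - 2 * m), End.eigenspace D ν).map φ0 :=
            Submodule.mem_map_of_mem h1
          rw [hφP] at h3
          exact (Submodule.mem_bot Ω).1 h3
        rw [LinearMap.smul_apply, h2, smul_zero]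
    have hφD : ∀ y, φ (D y) = (μ - 2 * m) * φ y := by
      have h1 : φ ∘ₗ D = (μ - 2 * m) • φ := by
        apply eig_top_ext hD
        intro ν y hy
        rw [LinearMap.comp_apply, LinearMap.smul_apply, hy, map_smul, smul_eq_mul, smul_eq_mul]
        by_cases hν : ν = μ - 2 * m
        · rw [hν]
        · rw [hφν ν hν y hy, mul_zero, mul_zero]
      intro y
      have h2 := LinearMap.congr_fun h1 y
      simpa using h2
    let C' : Submodule Ω V := C ⊓ ⨅ k : Fin (m + 1), LinearMap.ker (φ ∘ₗ (N ^ (k : ℕ)))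
    have hC'mem : ∀ y, y ∈ C' ↔ y ∈ C ∧ ∀ k : ℕ, k ≤ m → φ ((N ^ k) y) = 0 := by
      intro y
      simp only [C', Submodule.mem_inf, Submodule.mem_iInf, LinearMap.mem_ker, LinearMap.comp_apply]
      constructor
      · rintro ⟨h1, h2⟩
        exact ⟨h1, fun k hk => h2 ⟨k, by omega⟩⟩
      · rintro ⟨h1, h2⟩
        exact ⟨h1, fun k => h2 k (by omega)⟩
    have hC'N : ∀ y ∈ C', N y ∈ C' := by
      intro y hy
      rw [hC'mem] at hy ⊢
      refine ⟨hCN y hy.1, fun k hk => ?_⟩
      have e : (N ^ k) (N y) = (N ^ (k + 1)) y := by rw [pow_succ]; rfl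
      rw [e]
      by_cases hkm : k + 1 ≤ m
      · exact hy.2 (k + 1) hkm
      · have : k + 1 = m + 1 := by omega
        rw [this, hK y hy.1, map_zero]
    have hC'D : ∀ y ∈ C', D y ∈ C' := by
      intro y hy
      rw [hC'mem] at hy ⊢
      refine ⟨hCD y hy.1, fun k hk => ?_⟩
      have h1 := D_pow hDN k y
      have h2 := hφD ((N ^ k) y)
      rw [h1, map_sub, map_smul, hy.2 k hk] at h2
      simpa using h2
    have hxC' : x ∉ C' := by
      intro h
      have := ((hC'mem x).1 h).2 m le_rfl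
      rw [hφz] at this
      exact one_ne_zero this
    have hlt : C' < C := lt_of_le_of_ne inf_le_left (fun h => hxC' (h ▸ hxC))
    have hfr : finrank Ω C' < n := by
      rw [← hn]
      exact Submodule.finrank_lt_finrank_of_lt hlt
    obtain ⟨S, hS, l, xs, μs, h1, h2, h3, h4⟩ := IH _ hfr C' rfl hC'N hC'D
    -- orthogonality
    have horth : ∀ k l : ℕ, φ ((N ^ k) ((N ^ l) x)) = if k + l = m then 1 else 0 := by
      intro k l
      have e : (N ^ k) ((N ^ l) x) = (N ^ (k + l)) x := by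
        rw [pow_add]; rfl
      rw [e]
      split_ifs with hkl
      · rw [hkl, hφz]
      · apply hφν (μ - 2 * ((k + l : ℕ) : Ω)) _ _ (D_pow_eig hDN hxD (k + l))
        intro h5
        apply hkl
        have h6 : (2 : Ω) * ((k + l : ℕ) : Ω) = 2 * m := by linear_combination -h5
        have h7 := mul_left_cancel₀ (two_ne_zero) h6
        exact_mod_cast h7
    let v2 : Fin (m + 1) → V := fun k => (N ^ (k : ℕ)) x
    have hcoef : ∀ (c : Fin (m + 1) → Ω) (l0 : Fin (m + 1)),
        φ ((N ^ (m - (l0 : ℕ))) (∑ l, c l • v2 l)) = c l0 := by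
      intro c l0
      rw [map_sum, map_sum, Finset.sum_eq_single l0]
      · rw [map_smul, map_smul]
        simp only [v2]
        rw [horth, if_pos (by omega)]
        simp
      · intro b _ hb
        rw [map_smul, map_smul]
        simp only [v2]
        rw [horth, if_neg]
        · simp
        · intro h5
          apply hb
          ext
          omega
      · intro h5
        exact absurd (Finset.mem_univ _) h5
    have hli2 : LinearIndependent Ω v2 := by
      rw [Fintype.linearIndependent_iff]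
      intro c hc i
      have := hcoef c i
      rw [hc, map_zero, map_zero] at this
      exact this.symm
    have hdis : Disjoint C' (span Ω (Set.range v2)) := by
      rw [Submodule.disjoint_def]
      intro w hw1 hw2
      obtain ⟨c, hc⟩ := (Submodule.mem_span_range_iff_exists_fun Ω).1 hw2
      have hc0 : ∀ i, c i = 0 := by
        intro i
        rw [← hcoef c i, hc]
        exact ((hC'mem w).1 hw1).2 _ (by omega)
      rw [← hc]
      exact Finset.sum_eq_zero fun i _ => by rw [hc0, zero_smul]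
    have hv2C : ∀ k : ℕ, (N ^ k) x ∈ C := by
      intro k
      induction k with
      | zero => simpa using hxC
      | succ k ih =>
        have e : (N ^ (k + 1)) x = N ((N ^ k) x) := by rw [pow_succ']; rfl
        rw [e]
        exact hCN _ ih
    have hsup : C' ⊔ span Ω (Set.range v2) = C := by
      apply le_antisymm
      · refine sup_le inf_le_left ?_
        rw [span_le]
        rintro _ ⟨k, rfl⟩
        exact hv2C k
      · intro y hy
        let c : Fin (m + 1) → Ω := fun l => φ ((N ^ (m - (l : ℕ))) y)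
        have h5 : ∑ l, c l • v2 l ∈ span Ω (Set.range v2) :=
          Submodule.sum_mem _ fun l _ => Submodule.smul_mem _ _ (subset_span ⟨l, rfl⟩)
        have h6 : ∑ l, c l • v2 l ∈ C :=
          Submodule.sum_mem _ fun l _ => Submodule.smul_mem _ _ (hv2C l)
        rw [Submodule.mem_sup]
        refine ⟨y - ∑ l, c l • v2 l, ?_, ∑ l, c l • v2 l, h5, by abel⟩
        rw [hC'mem]
        refine ⟨Submodule.sub_mem _ hy h6, fun k hk => ?_⟩
        rw [map_sub, map_sub]
        have h7 := hcoef c ⟨m - k, by omega⟩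
        have e : m - ((⟨m - k, by omega⟩ : Fin (m + 1)) : ℕ) = k := by
          change m - (m - k) = k
          omega
        rw [e] at h7
        rw [h7]
        change φ ((N ^ k) y) - φ ((N ^ (m - (m - k))) y) = 0
        have e2 : m - (m - k) = k := by omega
        rw [e2, sub_self]
    -- assembly
    refine ⟨S ⊕ Unit, inferInstance, Sum.elim l (fun _ => m + 1), Sum.elim xs (fun _ => x),
      Sum.elim μs (fun _ => μ), ?_, ?_, ?_, ?_⟩
    · rintro (s | s)
      · exact h1 s
      · exact hxD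
    · rintro (s | s)
      · exact h2 s
      · exact hK x hxC
    · let e := Equiv.sumSigmaDistrib (fun s : S ⊕ Unit => Fin (Sum.elim l (fun _ => m + 1) s))
      rw [← linearIndependent_equiv e.symm, linearIndependent_sum]
      refine ⟨h3, ?_, ?_⟩
      · let e2 : (Σ _ : Unit, Fin (m + 1)) ≃ Fin (m + 1) :=
          ⟨fun a => a.2, fun a => ⟨(), a⟩, fun _ => rfl, fun _ => rfl⟩
        exact (linearIndependent_equiv (R := Ω) e2 (f := v2)).2 hli2
      · refine Disjoint.mono ?_ ?_ hdis
        · rw [← h4]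
          exact le_of_eq rfl
        · apply span_mono
          rintro _ ⟨⟨u, k⟩, rfl⟩
          exact ⟨k, rfl⟩
    · rw [← hsup, ← h4, ← Submodule.span_union]
      congr 1
      ext w
      constructor
      · rintro ⟨⟨s | s, k⟩, rfl⟩
        · exact Or.inl ⟨⟨s, k⟩, rfl⟩
        · exact Or.inr ⟨k, rfl⟩
      · rintro (⟨⟨s, k⟩, rfl⟩ | ⟨k, rfl⟩)
        · exact ⟨⟨Sum.inl s, k⟩, rfl⟩
        · exact ⟨⟨Sum.inr (), k⟩, rfl⟩

/-- The string decomposition. -/
theorem strDec {N D : V →ₗ[Ω] V} (hD : ⨆ μ, End.eigenspace D μ = ⊤)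
    (hDN : ∀ x, D (N x) = N (D x) - (2 : Ω) • N x) (hN : ∃ K : ℕ, ∀ x, (N ^ K) x = 0) :
    StrDec N D ⊤ :=
  strDec_aux hD hDN hN _ ⊤ rfl (fun _ _ => trivial) (fun _ _ => trivial)

end str

end Pool.H94.WM
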