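import Mathlib
import Pool.Agent.H94.WM.Str
import Pool.Agent.H94.WM.SL

/-!
String bases: structure, products, direct sums, existence (for MP_d037d4_ag).
-/

namespace Pool.H94.WM

open Module Submodule TensorProduct DirectSum

section sb
variable {Ω : Type} [Field Ω] {V : Type} [AddCommGroup V] [Module Ω V]

/-- A string basis of `V` with respect to the nilpotent operator `N`, the degree operator `G` and
the (relative) weight operator `D`. -/
structure SB (N G D : V →ₗ[Ω] V) where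
  ι : Type
  ft : Fintype ι
  b : Basis ι Ω V
  deg : ι → ℕ
  dl : ι → ℤ
  cen : ι → ℤ
  E : V →ₗ[Ω] V
  C : V →ₗ[Ω] V
  sg : Equiv.Perm ι
  hG : ∀ a, G (b a) = (deg a : Ω) • b a
  hD : ∀ a, D (b a) = (dl a : Ω) • b a
  hC : ∀ a, C (b a) = (cen a : Ω) • b a
  GN : ∀ x, G (N x) = N (G x)
  DN : ∀ x, D (N x) = N (D x) - (2 : Ω) • N x
  CN : ∀ x, C (N x) = N (C x)
  GE : ∀ x, G (E x) = E (G x)
  DE : ∀ x, D (E x) = E (D x) + (2 : Ω) • E x
  CE : ∀ x, C (E x) = E (C x)
  EN : ∀ x, E (N x) = N (E x) + (D x - C x)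
  sg_deg : ∀ a, deg (sg a) = deg a
  sg_cen : ∀ a, cen (sg a) = cen a
  sg_dl : ∀ a, dl (sg a) = 2 * cen a - dl a

attribute [instance] SB.ft

end sb

section prod
variable {Ω : Type} [Field Ω] {V V' U : Type} [AddCommGroup V] [Module Ω V]
  [AddCommGroup V'] [Module Ω V'] [AddCommGroup U] [Module Ω U]

theorem ext_k (k : V ⊗[Ω] V' ≃ₗ[Ω] U) {f g : U →ₗ[Ω] U}
    (h : ∀ x y, f (k (x ⊗ₜ y)) = g (k (x ⊗ₜ y))) (u : U) : f u = g u := by
  have h1 : f ∘ₗ k.toLinearMap = g ∘ₗ k.toLinearMap := TensorProduct.ext' h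
  have h2 := LinearMap.congr_fun h1 (k.symm u)
  simpa using h2

/-- The operator `A ⊗ 1 + 1 ⊗ A'` on `U`. -/
noncomputable def tsum (k : V ⊗[Ω] V' ≃ₗ[Ω] U) (A : V →ₗ[Ω] V) (A' : V' →ₗ[Ω] V') : U →ₗ[Ω] U :=
  k.toLinearMap ∘ₗ (TensorProduct.map A LinearMap.id + TensorProduct.map LinearMap.id A') ∘ₗ
    k.symm.toLinearMap

theorem tsum_apply (k : V ⊗[Ω] V' ≃ₗ[Ω] U) (A : V →ₗ[Ω] V) (A' : V' →ₗ[Ω] V') (x : V) (y : V') :
    tsum k A A' (k (x ⊗ₜ y)) = k (A x ⊗ₜ y) + k (x ⊗ₜ A' y) := by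
  simp [tsum]

/-- The product of two string bases. -/
noncomputable def SB.prod {N G D : V →ₗ[Ω] V} {N' G' D' : V' →ₗ[Ω] V'} {NU GU DU : U →ₗ[Ω] U}
    (B : SB N G D) (B' : SB N' G' D') (k : V ⊗[Ω] V' ≃ₗ[Ω] U)
    (hN : ∀ x y, NU (k (x ⊗ₜ y)) = k (N x ⊗ₜ y) + k (x ⊗ₜ N' y))
    (hG : ∀ x y, GU (k (x ⊗ₜ y)) = k (G x ⊗ₜ y) + k (x ⊗ₜ G' y))
    (hD : ∀ x y, DU (k (x ⊗ₜ y)) = k (D x ⊗ₜ y) + k (x ⊗ₜ D' y)) : SB NU GU DU where
  ι := B.ι × B'.ι
  ft := inferInstance
  b := (B.b.tensorProduct B'.b).map k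
  deg a := B.deg a.1 + B'.deg a.2
  dl a := B.dl a.1 + B'.dl a.2
  cen a := B.cen a.1 + B'.cen a.2
  E := tsum k B.E B'.E
  C := tsum k B.C B'.C
  sg := Equiv.prodCongr B.sg B'.sg
  hG := by
    rintro ⟨a, a'⟩
    rw [Basis.map_apply, Basis.tensorProduct_apply, hG, B.hG, B'.hG, ← smul_tmul', tmul_smul,
      map_smul, map_smul, ← add_smul]
    push_cast
    rfl
  hD := by
    rintro ⟨a, a'⟩
    rw [Basis.map_apply, Basis.tensorProduct_apply, hD, B.hD, B'.hD, ← smul_tmul', tmul_smul,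
      map_smul, map_smul, ← add_smul]
    push_cast
    rfl
  hC := by
    rintro ⟨a, a'⟩
    rw [Basis.map_apply, Basis.tensorProduct_apply, tsum_apply, B.hC, B'.hC, ← smul_tmul',
      tmul_smul, map_smul, map_smul, ← add_smul]
    push_cast
    rfl
  GN := by
    apply ext_k k (f := GU ∘ₗ NU) (g := NU ∘ₗ GU)
    intro x y
    simp only [LinearMap.comp_apply, hN, hG, map_add, B.GN, B'.GN]
    abel
  DN := by
    apply ext_k k (f := DU ∘ₗ NU) (g := NU ∘ₗ DU - (2 : Ω) • NU)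
    intro x y
    simp only [LinearMap.comp_apply, LinearMap.sub_apply, LinearMap.smul_apply, hN, hD, map_add,
      B.DN, B'.DN, sub_tmul, tmul_sub, map_sub, ← smul_tmul', tmul_smul, map_smul, smul_add]
    module
  CN := by
    apply ext_k k (f := tsum k B.C B'.C ∘ₗ NU) (g := NU ∘ₗ tsum k B.C B'.C)
    intro x y
    simp only [LinearMap.comp_apply, hN, tsum_apply, map_add, B.CN, B'.CN]
    abel
  GE := by
    apply ext_k k (f := GU ∘ₗ tsum k B.E B'.E) (g := tsum k B.E B'.E ∘ₗ GU)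
    intro x y
    simp only [LinearMap.comp_apply, hG, tsum_apply, map_add, B.GE, B'.GE]
    abel
  DE := by
    apply ext_k k (f := DU ∘ₗ tsum k B.E B'.E)
      (g := tsum k B.E B'.E ∘ₗ DU + (2 : Ω) • tsum k B.E B'.E)
    intro x y
    simp only [LinearMap.comp_apply, LinearMap.add_apply, LinearMap.smul_apply, hD, tsum_apply,
      map_add, B.DE, B'.DE, add_tmul, tmul_add, ← smul_tmul', tmul_smul, map_smul, smul_add]
    module
  CE := by
    apply ext_k k (f := tsum k B.C B'.C ∘ₗ tsum k B.E B'.E) (g := tsum k B.E B'.E ∘ₗ tsum k B.C B'.C)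
    intro x y
    simp only [LinearMap.comp_apply, tsum_apply, map_add, B.CE, B'.CE]
    abel
  EN := by
    apply ext_k k (f := tsum k B.E B'.E ∘ₗ NU)
      (g := NU ∘ₗ tsum k B.E B'.E + (DU - tsum k B.C B'.C))
    intro x y
    simp only [LinearMap.comp_apply, LinearMap.add_apply, LinearMap.sub_apply, hN, hD, tsum_apply,
      map_add, B.EN, B'.EN, add_tmul, tmul_add, sub_tmul, tmul_sub, map_sub]
    abel
  sg_deg := by
    rintro ⟨a, a'⟩
    simp [B.sg_deg, B'.sg_deg]
  sg_cen := by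
    rintro ⟨a, a'⟩
    simp [B.sg_cen, B'.sg_cen]
  sg_dl := by
    rintro ⟨a, a'⟩
    simp only [Equiv.prodCongr_apply, Prod.map_apply, B.sg_dl, B'.sg_dl]
    ring

end prod

section dsum
variable {Ω : Type} [Field Ω] {V : ℕ → Type} [∀ i, AddCommGroup (V i)] [∀ i, Module Ω (V i)]

/-- The basis of a direct sum. -/
noncomputable def dsBasis {η : ℕ → Type} (b : ∀ i, Basis (η i) Ω (V i)) :
    Basis (Σ i, η i) Ω (⨁ i, V i) :=
  Basis.mk (v := fun a : Σ i, η i => DirectSum.lof Ω ℕ V a.1 (b a.1 a.2))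
    (DFinsupp.linearIndependent_single (fun i => b i) (fun i => (b i).linearIndependent))
    (by
      intro x _
      induction x using DirectSum.induction_on with
      | zero => exact Submodule.zero_mem _
      | of i x =>
        have h1 : x ∈ span Ω (Set.range (b i)) := by rw [(b i).span_eq]; trivial
        have h2 : span Ω (Set.range (b i)) ≤ (span Ω (Set.range (fun a : Σ i, η i =>
            DirectSum.lof Ω ℕ V a.1 (b a.1 a.2)))).comap (DirectSum.lof Ω ℕ V i) := by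
          rw [span_le]
          rintro _ ⟨a, rfl⟩
          exact subset_span ⟨⟨i, a⟩, rfl⟩
        exact h2 h1
      | add x y hx hy => exact Submodule.add_mem _ (hx trivial) (hy trivial))

theorem dsBasis_apply {η : ℕ → Type} (b : ∀ i, Basis (η i) Ω (V i)) (a : Σ i, η i) :
    dsBasis b a = DirectSum.lof Ω ℕ V a.1 (b a.1 a.2) := by
  unfold dsBasis
  rw [Basis.mk_apply]

theorem ext_ds {U : Type} [AddCommGroup U] [Module Ω U] {f g : (⨁ i, V i) →ₗ[Ω] U}
    (h : ∀ i x, f (DirectSum.lof Ω ℕ V i x) = g (DirectSum.lof Ω ℕ V i x)) (u : ⨁ i, V i) :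
    f u = g u := by
  have : f = g := DirectSum.linearMap_ext Ω fun i => LinearMap.ext fun x => h i x
  rw [this]

/-- The direct sum of string bases. -/
noncomputable def SB.dsum {N G D : ∀ i, V i →ₗ[Ω] V i} (B : ∀ i, SB (N i) (G i) (D i))
    (hfin : Finite (Σ i, (B i).ι)) :
    SB (DirectSum.lmap N) (DirectSum.lmap G) (DirectSum.lmap D) where
  ι := Σ i, (B i).ι
  ft := Fintype.ofFinite _
  b := dsBasis fun i => (B i).b
  deg a := (B a.1).deg a.2
  dl a := (B a.1).dl a.2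
  cen a := (B a.1).cen a.2
  E := DirectSum.lmap fun i => (B i).E
  C := DirectSum.lmap fun i => (B i).C
  sg := Equiv.sigmaCongrRight fun i => (B i).sg
  hG a := by
    rw [dsBasis_apply, DirectSum.lmap_lof, (B a.1).hG, map_smul]
  hD a := by
    rw [dsBasis_apply, DirectSum.lmap_lof, (B a.1).hD, map_smul]
  hC a := by
    rw [dsBasis_apply, DirectSum.lmap_lof, (B a.1).hC, map_smul]
  GN := by
    apply ext_ds (f := DirectSum.lmap G ∘ₗ DirectSum.lmap N)
      (g := DirectSum.lmap N ∘ₗ DirectSum.lmap G)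
    intro i x
    simp only [LinearMap.comp_apply, DirectSum.lmap_lof, (B i).GN]
  DN := by
    apply ext_ds (f := DirectSum.lmap D ∘ₗ DirectSum.lmap N)
      (g := DirectSum.lmap N ∘ₗ DirectSum.lmap D - (2 : Ω) • DirectSum.lmap N)
    intro i x
    simp only [LinearMap.comp_apply, LinearMap.sub_apply, LinearMap.smul_apply,
      DirectSum.lmap_lof, (B i).DN, map_sub, map_smul]
  CN := by
    apply ext_ds (f := DirectSum.lmap (fun i => (B i).C) ∘ₗ DirectSum.lmap N)
      (g := DirectSum.lmap N ∘ₗ DirectSum.lmap (fun i => (B i).C))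
    intro i x
    simp only [LinearMap.comp_apply, DirectSum.lmap_lof, (B i).CN]
  GE := by
    apply ext_ds (f := DirectSum.lmap G ∘ₗ DirectSum.lmap (fun i => (B i).E))
      (g := DirectSum.lmap (fun i => (B i).E) ∘ₗ DirectSum.lmap G)
    intro i x
    simp only [LinearMap.comp_apply, DirectSum.lmap_lof, (B i).GE]
  DE := by
    apply ext_ds (f := DirectSum.lmap D ∘ₗ DirectSum.lmap (fun i => (B i).E))
      (g := DirectSum.lmap (fun i => (B i).E) ∘ₗ DirectSum.lmap D
        + (2 : Ω) • DirectSum.lmap (fun i => (B i).E))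
    intro i x
    simp only [LinearMap.comp_apply, LinearMap.add_apply, LinearMap.smul_apply,
      DirectSum.lmap_lof, (B i).DE, map_add, map_smul]
  CE := by
    apply ext_ds (f := DirectSum.lmap (fun i => (B i).C) ∘ₗ DirectSum.lmap (fun i => (B i).E))
      (g := DirectSum.lmap (fun i => (B i).E) ∘ₗ DirectSum.lmap (fun i => (B i).C))
    intro i x
    simp only [LinearMap.comp_apply, DirectSum.lmap_lof, (B i).CE]
  EN := by
    apply ext_ds (f := DirectSum.lmap (fun i => (B i).E) ∘ₗ DirectSum.lmap N)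
      (g := DirectSum.lmap N ∘ₗ DirectSum.lmap (fun i => (B i).E)
        + (DirectSum.lmap D - DirectSum.lmap (fun i => (B i).C)))
    intro i x
    simp only [LinearMap.comp_apply, LinearMap.add_apply, LinearMap.sub_apply,
      DirectSum.lmap_lof, (B i).EN, map_add, map_sub]
  sg_deg a := (B a.1).sg_deg a.2
  sg_cen a := (B a.1).sg_cen a.2
  sg_dl a := (B a.1).sg_dl a.2

end dsum

section strings
variable {Ω : Type} [Field Ω] [CharZero Ω] {V : Type} [AddCommGroup V] [Module Ω V]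

/-- A string decomposition gives a string basis. -/
theorem exists_SB {N D : V →ₗ[Ω] V} (i : ℕ)
    (hDN : ∀ x, D (N x) = N (D x) - (2 : Ω) • N x)
    (hint : ∀ (μ : Ω) (x : V), x ≠ 0 → D x = μ • x → ∃ t : ℤ, μ = t)
    (h : StrDec N D ⊤) : Nonempty (SB N ((i : Ω) • LinearMap.id) D) := by
  classical
  obtain ⟨S, hS, l, x, μ, h1, h2, h3, h4⟩ := h
  have ht : ∀ s, ∃ t : ℤ, x s ≠ 0 → μ s = t := by
    intro s
    by_cases hx : x s = 0
    · exact ⟨0, fun h => absurd hx h⟩
    · obtain ⟨t, ht⟩ := hint (μ s) (x s) hx (h1 s)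
      exact ⟨t, fun _ => ht⟩
  choose t ht using ht
  let b : Basis (Σ s, Fin (l s)) Ω V := Basis.mk h3 (by rw [h4])
  have hb : ∀ a, b a = (N ^ (a.2 : ℕ)) (x a.1) := fun a => by
    simp only [b, Basis.mk_apply]
  have hbz : ∀ s k, l s ≤ k → (N ^ k) (x s) = 0 := by
    intro s k hk
    obtain ⟨j, rfl⟩ : ∃ j, k = j + l s := ⟨k - l s, by omega⟩
    rw [pow_add]
    change (N ^ j) ((N ^ l s) (x s)) = 0
    rw [h2, map_zero]
  have hNe : ∀ s k, N ((N ^ k) (x s)) = (N ^ (k + 1)) (x s) := fun s k => by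
    rw [pow_succ']; rfl
  -- weights
  have hDe : ∀ s (k : ℕ), D ((N ^ k) (x s)) = ((t s - 2 * k : ℤ) : Ω) • (N ^ k) (x s) := by
    intro s k
    by_cases hx : x s = 0
    · rw [hx]; simp
    · have h5 := h1 s
      rw [ht s hx] at h5
      rw [D_pow_eig hDN h5 k]
      push_cast
      rfl
  let E : V →ₗ[Ω] V := b.constr Ω fun a =>
    (((a.2 : ℕ) : Ω) * ((l a.1 : Ω) - ((a.2 : ℕ) : Ω))) • (N ^ ((a.2 : ℕ) - 1)) (x a.1)
  have hEe : ∀ s (k : ℕ), k ≤ l s → E ((N ^ k) (x s)) = ((k : Ω) * ((l s : Ω) - k)) •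
      (N ^ (k - 1)) (x s) := by
    intro s k hk
    rcases Nat.lt_or_ge k (l s) with h5 | h5
    · have h6 := hb ⟨s, ⟨k, h5⟩⟩
      change b _ = (N ^ k) (x s) at h6
      rw [← h6]
      simp only [E, Basis.constr_basis]
    · have h6 : k = l s := by omega
      rw [hbz s k h5, h6]
      simp
  let C : V →ₗ[Ω] V := b.constr Ω fun a => ((t a.1 - ((l a.1 : ℤ) - 1) : ℤ) : Ω) • b a
  have hCe : ∀ s (k : ℕ), C ((N ^ k) (x s)) = ((t s - ((l s : ℤ) - 1) : ℤ) : Ω) • (N ^ k) (x s) := by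
    intro s k
    rcases Nat.lt_or_ge k (l s) with h5 | h5
    · have h6 := hb ⟨s, ⟨k, h5⟩⟩
      change b _ = (N ^ k) (x s) at h6
      rw [← h6]
      simp only [C, Basis.constr_basis]
    · rw [hbz s k h5]
      simp
  have hext : ∀ f g : V →ₗ[Ω] V, (∀ s (k : ℕ), k < l s → f ((N ^ k) (x s)) = g ((N ^ k) (x s))) →
      ∀ y, f y = g y := by
    intro f g hfg y
    have : f = g := b.ext fun a => by
      rw [hb]
      exact hfg a.1 a.2 a.2.2
    rw [this]
  refine ⟨{
    ι := Σ s, Fin (l s)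
    ft := inferInstance
    b := b
    deg := fun _ => i
    dl := fun a => t a.1 - 2 * ((a.2 : ℕ) : ℤ)
    cen := fun a => t a.1 - ((l a.1 : ℤ) - 1)
    E := E
    C := C
    sg := Equiv.sigmaCongrRight fun s => Fin.revPerm
    hG := fun a => by simp
    hD := fun a => by rw [hb]; exact hDe a.1 a.2
    hC := fun a => by simp only [C, Basis.constr_basis]
    GN := fun y => by simp
    DN := hDN
    CN := hext (C ∘ₗ N) (N ∘ₗ C) fun s k hk => by
      rw [LinearMap.comp_apply, LinearMap.comp_apply, hNe, hCe, hCe, map_smul, hNe]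
    GE := fun y => by simp
    DE := hext (D ∘ₗ E) (E ∘ₗ D + (2 : Ω) • E) fun s k hk => by
      rw [LinearMap.comp_apply, LinearMap.add_apply, LinearMap.comp_apply, LinearMap.smul_apply,
        hEe s k hk.le, map_smul, hDe, hDe, map_smul, hEe s k hk.le, smul_smul, smul_smul,
        smul_smul, ← add_smul]
      rcases Nat.eq_zero_or_pos k with h5 | h5
      · subst h5; simp
      · congr 1
        obtain ⟨j, rfl⟩ : ∃ j, k = j + 1 := ⟨k - 1, by omega⟩
        rw [Nat.add_sub_cancel]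
        push_cast
        ring
    CE := hext (C ∘ₗ E) (E ∘ₗ C) fun s k hk => by
      rw [LinearMap.comp_apply, LinearMap.comp_apply, hEe s k hk.le, map_smul, hCe, hCe, map_smul,
        hEe s k hk.le, smul_comm]
    EN := hext (E ∘ₗ N) (N ∘ₗ E + (D - C)) fun s k hk => by
      rw [LinearMap.comp_apply, LinearMap.add_apply, LinearMap.comp_apply, LinearMap.sub_apply,
        hNe, hEe s (k + 1) (by omega), hEe s k hk.le, map_smul, hDe, hCe, hNe, Nat.add_sub_cancel]
      rcases Nat.eq_zero_or_pos k with h5 | h5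
      · subst h5
        push_cast
        simp only [zero_mul, zero_smul, zero_add, one_mul]
        module
      · have h6 : k - 1 + 1 = k := by omega
        rw [h6]
        push_cast
        module
    sg_deg := fun a => rfl
    sg_cen := fun a => rfl
    sg_dl := fun a => by
      change t a.1 - 2 * ((Fin.rev a.2 : ℕ) : ℤ) = _
      have h5 : ((Fin.rev a.2 : Fin (l a.1)) : ℕ) = l a.1 - ((a.2 : ℕ) + 1) := Fin.val_rev _
      have h6 := a.2.2
      rw [h5]
      push_cast [Nat.cast_sub (show (a.2 : ℕ) + 1 ≤ l a.1 by omega)]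
      ring }⟩

end strings

end Pool.H94.WM
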