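import Mathlib
import Pool.Agent.H94.WM.SB

/-!
Counting with string bases (for MP_d037d4_ag).
-/

namespace Pool.H94.WM

open Module Submodule

section cnt
variable {Ω : Type} [Field Ω] [CharZero Ω] {V : Type} [AddCommGroup V] [Module Ω V]
  {N G D : V →ₗ[Ω] V} (B : SB N G D)

/-- The span of a part of the basis. -/
def SB.sp (S : Set B.ι) : Submodule Ω V := span Ω (B.b '' S)

omit [CharZero Ω] in
theorem SB.mem_sp (S : Set B.ι) (x : V) : x ∈ B.sp S ↔ ∀ a, B.b.repr x a ≠ 0 → a ∈ S := by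
  unfold SB.sp
  rw [Basis.mem_span_image]
  constructor
  · intro h a ha
    exact h (Finsupp.mem_support_iff.2 ha)
  · intro h a ha
    exact h a (Finsupp.mem_support_iff.1 ha)

omit [CharZero Ω] in
theorem SB.sp_mono {S T : Set B.ι} (h : S ⊆ T) : B.sp S ≤ B.sp T :=
  span_mono (Set.image_mono h)

omit [CharZero Ω] in
theorem SB.b_mem {S : Set B.ι} {a : B.ι} (h : a ∈ S) : B.b a ∈ B.sp S :=
  subset_span ⟨a, h, rfl⟩

omit [CharZero Ω] in
open Classical in
theorem SB.finrank_sp (S : Set B.ι) :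
    finrank Ω (B.sp S) = (Finset.univ.filter (fun a => a ∈ S)).card := by
  have h1 : B.sp S = span Ω (Set.range fun a : S => B.b a) := by
    unfold SB.sp
    congr 1
    ext x
    simp
  have h2 : LinearIndependent Ω (fun a : S => B.b a) :=
    B.b.linearIndependent.comp _ Subtype.val_injective
  rw [h1, finrank_span_eq_card h2, Fintype.card_subtype]

omit [CharZero Ω] in
theorem SB.finrank_sp' (p : B.ι → Prop) [DecidablePred p] :
    finrank Ω (B.sp {a | p a}) = (Finset.univ.filter p).card := by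
  rw [B.finrank_sp]
  apply congrArg
  ext a
  simp

omit [CharZero Ω] in
include B in
theorem SB.finite : FiniteDimensional Ω V := Module.Finite.of_basis B.b

omit [CharZero Ω] in
theorem repr_diag {A : V →ₗ[Ω] V} {f : B.ι → Ω} (hA : ∀ a, A (B.b a) = f a • B.b a) (x : V)
    (a : B.ι) : B.b.repr (A x) a = f a * B.b.repr x a := by
  have h1 : (B.b.coord a) ∘ₗ A = f a • B.b.coord a := B.b.ext fun c => by
    rw [LinearMap.comp_apply, hA, map_smul, LinearMap.smul_apply, Basis.coord_apply]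
    rw [Basis.repr_self]
    by_cases h : c = a
    · subst h; rfl
    · rw [Finsupp.single_eq_of_ne (Ne.symm h), smul_zero, smul_zero]
  have h2 := LinearMap.congr_fun h1 x
  simpa using h2

omit [CharZero Ω] in
theorem diag_mem {A : V →ₗ[Ω] V} {f : B.ι → Ω} (hA : ∀ a, A (B.b a) = f a • B.b a) (μ : Ω) (x : V) :
    A x = μ • x ↔ x ∈ B.sp {a | f a = μ} := by
  rw [B.mem_sp]
  constructor
  · intro h a ha
    have h1 := repr_diag B hA x a
    rw [h, map_smul, Finsupp.smul_apply, smul_eq_mul] at h1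
    exact (mul_right_cancel₀ ha h1).symm
  · intro h
    apply B.b.repr.injective
    ext a
    rw [repr_diag B hA x a, map_smul, Finsupp.smul_apply, smul_eq_mul]
    by_cases h1 : B.b.repr x a = 0
    · rw [h1, mul_zero, mul_zero]
    · rw [h a h1]

theorem SB.G_mem (i : ℕ) (x : V) : G x = (i : Ω) • x ↔ x ∈ B.sp {a | B.deg a = i} := by
  rw [diag_mem B B.hG]
  simp

theorem SB.D_mem (j : ℤ) (x : V) : D x = (j : Ω) • x ↔ x ∈ B.sp {a | B.dl a = j} := by
  rw [diag_mem B B.hD]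
  simp

theorem SB.C_mem (c : ℤ) (x : V) : B.C x = (c : Ω) • x ↔ x ∈ B.sp {a | B.cen a = c} := by
  rw [diag_mem B B.hC]
  simp

/-- The operator `h = D - C`. -/
def SB.h : V →ₗ[Ω] V := D - B.C

omit [CharZero Ω] in
theorem SB.h_b (a : B.ι) : B.h (B.b a) = ((B.dl a - B.cen a : ℤ) : Ω) • B.b a := by
  change D (B.b a) - B.C (B.b a) = _
  rw [B.hD, B.hC, ← sub_smul]
  push_cast
  rfl

theorem SB.h_mem (c : ℤ) (x : V) :
    B.h x = (c : Ω) • x ↔ x ∈ B.sp {a | B.dl a - B.cen a = c} := by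
  rw [diag_mem B B.h_b]
  simp only [Int.cast_inj]

omit [CharZero Ω] in
theorem SB.hN (x : V) : B.h (N x) = N (B.h x) - (2 : Ω) • N x := by
  change D (N x) - B.C (N x) = N (D x - B.C x) - (2 : Ω) • N x
  rw [B.DN, B.CN, map_sub]
  abel

omit [CharZero Ω] in
theorem SB.hE (x : V) : B.h (B.E x) = B.E (B.h x) + (2 : Ω) • B.E x := by
  change D (B.E x) - B.C (B.E x) = B.E (D x - B.C x) + (2 : Ω) • B.E x
  rw [B.DE, B.CE, map_sub]
  abel

omit [CharZero Ω] in
theorem sp_inter {S T : Set B.ι} {x : V} (h1 : x ∈ B.sp S) (h2 : x ∈ B.sp T) :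
    x ∈ B.sp (S ∩ T) := by
  rw [B.mem_sp] at *
  exact fun a ha => ⟨h1 a ha, h2 a ha⟩

omit [CharZero Ω] in
/-- Splitting a vector. -/
theorem sp_split {S : Set B.ι} (T : Set B.ι) {x : V} (h : x ∈ B.sp S) :
    ∃ y ∈ B.sp (S ∩ T), ∃ z ∈ B.sp (S \ T), x = y + z := by
  have h1 : B.sp S = B.sp (S ∩ T) ⊔ B.sp (S \ T) := by
    unfold SB.sp
    rw [← Submodule.span_union, ← Set.image_union, Set.inter_union_sdiff]
  rw [h1] at h
  obtain ⟨y, hy, z, hz, hyz⟩ := Submodule.mem_sup.1 h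
  exact ⟨y, hy, z, hz, hyz.symm⟩

/-- `E` is nilpotent. -/
theorem SB.E_nil (x : V) : ∃ K : ℕ, (B.E ^ K) x = 0 := by
  classical
  obtain ⟨M, hM⟩ : ∃ M : ℤ, ∀ a, |B.dl a| ≤ M := by
    refine ⟨∑ a, |B.dl a|, fun a => ?_⟩
    exact Finset.single_le_sum (f := fun a => |B.dl a|) (fun _ _ => abs_nonneg _)
      (Finset.mem_univ a)
  refine ⟨(M + 1).toNat, ?_⟩
  have h1 : ∀ a, (B.E ^ (M + 1).toNat) (B.b a) = 0 := by
    intro a
    have h2 := sl_pow (h := D) (E := B.E) B.DE (B.hD a) (M + 1).toNat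
    have h3 : ((B.dl a : Ω) + 2 * ((M + 1).toNat : ℕ)) =
        ((B.dl a + 2 * ((M + 1).toNat : ℤ) : ℤ) : Ω) := by push_cast; rfl
    rw [h3, B.D_mem, B.mem_sp] at h2
    apply B.b.repr.injective
    ext c
    rw [map_zero, Finsupp.zero_apply]
    by_contra h4
    have h5 : B.dl c = B.dl a + 2 * ((M + 1).toNat : ℤ) := h2 c h4
    have h6 := hM a
    have h7 := hM c
    have h8 := abs_le.1 h6
    have h9 := abs_le.1 h7
    omega
  have h2 : B.E ^ (M + 1).toNat = 0 := B.b.ext fun a => by rw [h1]; rfl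
  rw [h2]
  rfl

/-- Injectivity of `N ^ k` on the part where `h = k`. -/
theorem SB.inj (k : ℕ) {x : V} (hx : B.h x = (k : Ω) • x) (hN : (N ^ k) x = 0) : x = 0 :=
  sl_inj (h := B.h) (fun x => B.EN x) B.hE B.hN (B.E_nil x) k hx hN

omit [CharZero Ω] in
theorem pow_comm {A : V →ₗ[Ω] V} (hA : ∀ x, A (N x) = N (A x)) (k : ℕ) (x : V) :
    A ((N ^ k) x) = (N ^ k) (A x) := by
  induction k generalizing x with
  | zero => simp
  | succ k ih =>
    have e : ∀ z, (N ^ (k + 1)) z = (N ^ k) (N z) := fun z => by rw [pow_succ]; rfl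
    rw [e, e, ih, hA]

omit [CharZero Ω] in
theorem pow_shift {A : V →ₗ[Ω] V} (hA : ∀ x, A (N x) = N (A x) - (2 : Ω) • N x) {x : V} {j : ℤ}
    (hx : A x = (j : Ω) • x) (k : ℕ) : A ((N ^ k) x) = ((j - 2 * k : ℤ) : Ω) • (N ^ k) x := by
  rw [D_pow_eig hA hx k]
  push_cast
  rfl

/-- Surjectivity of `N ^ k` in a fixed degree. -/
theorem SB.surj (k : ℕ) (i : ℕ) {y : V} (hy : y ∈ B.sp {a | B.deg a = i ∧ B.dl a - B.cen a = -k}) :
    ∃ x ∈ B.sp {a | B.deg a = i ∧ B.dl a - B.cen a = k}, (N ^ k) x = y := by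
  classical
  have hfin := B.finite
  let P : Submodule Ω V := B.sp {a | B.deg a = i ∧ B.dl a - B.cen a = k}
  let Q : Submodule Ω V := B.sp {a | B.deg a = i ∧ B.dl a - B.cen a = -k}
  have hPx : ∀ x ∈ P, G x = (i : Ω) • x ∧ B.h x = ((k : ℤ) : Ω) • x := by
    intro x hx
    exact ⟨(B.G_mem i x).2 (B.sp_mono (fun a ha => ha.1) hx),
      (B.h_mem k x).2 (B.sp_mono (fun a ha => ha.2) hx)⟩
  have hPQ : P.map (N ^ k) ≤ Q := by
    rintro _ ⟨x, hx, rfl⟩
    obtain ⟨h1, h2⟩ := hPx x hx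
    have h3 : G ((N ^ k) x) = (i : Ω) • (N ^ k) x := by
      rw [pow_comm B.GN, h1, map_smul]
    have h4 := pow_shift B.hN h2 k
    rw [B.G_mem] at h3
    rw [B.h_mem] at h4
    refine B.sp_mono ?_ (sp_inter B h3 h4)
    rintro a ⟨h5, h6⟩
    refine ⟨h5, ?_⟩
    have h6' : B.dl a - B.cen a = (k : ℤ) - 2 * k := h6
    omega
  have hinj : ∀ x ∈ P, (N ^ k) x = 0 → x = 0 := by
    intro x hx hx0
    apply B.inj k _ hx0
    have := (hPx x hx).2
    push_cast at this
    exact this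
  have hfP : finrank Ω (P.map (N ^ k)) = finrank Ω P := by
    have h1 : Function.Injective ((N ^ k).domRestrict P) := by
      rw [injective_iff_map_eq_zero]
      intro x hx
      exact Subtype.ext (hinj x x.2 hx)
    have h2 : P.map (N ^ k) = LinearMap.range ((N ^ k).domRestrict P) := by
      ext z
      simp only [Submodule.mem_map, LinearMap.mem_range, LinearMap.domRestrict_apply,
        Subtype.exists, exists_prop]
    rw [h2]
    exact LinearMap.finrank_range_of_inj h1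
  have hcard : finrank Ω P = finrank Ω Q := by
    simp only [P, Q]
    rw [B.finrank_sp, B.finrank_sp]
    apply Finset.card_bij (fun a _ => B.sg a)
    · intro a ha
      simp only [Finset.mem_filter, Finset.mem_univ, true_and, Set.mem_ofPred_eq] at ha ⊢
      rw [B.sg_deg, B.sg_dl, B.sg_cen]
      refine ⟨ha.1, ?_⟩
      have := ha.2
      omega
    · intro a _ c _ h
      exact B.sg.injective h
    · intro c hc
      refine ⟨B.sg.symm c, ?_, by simp⟩
      simp only [Finset.mem_filter, Finset.mem_univ, true_and, Set.mem_ofPred_eq] at hc ⊢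
      have h1 := B.sg_deg (B.sg.symm c)
      have h2 := B.sg_dl (B.sg.symm c)
      have h3 := B.sg_cen (B.sg.symm c)
      rw [Equiv.apply_symm_apply] at h1 h2 h3
      refine ⟨by omega, ?_⟩
      have := hc.2
      omega
  have hQ : P.map (N ^ k) = Q := Submodule.eq_of_le_of_finrank_eq hPQ (by rw [hfP, hcard])
  have hy' : y ∈ P.map (N ^ k) := by rw [hQ]; exact hy
  obtain ⟨x, hx, hxy⟩ := hy'
  exact ⟨x, hx, hxy⟩

end cnt

end Pool.H94.WM
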