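import Mathlib

/-!
Concentration of sums (for MP_d037d4_ag).
-/

namespace Pool.H94.WM

open Real

/-- The basic integral. -/
theorem int_bound (A : ℝ) (hA : 0 < A) :
    ∫ u in (0 : ℝ)..1, (1 + A * (sin (π * u)) ^ 2)⁻¹ ≤ π / (2 * √A) := by
  have hcont : Continuous fun u : ℝ => (1 + A * (sin (π * u)) ^ 2)⁻¹ := by
    apply Continuous.inv₀ (by fun_prop)
    intro u
    have : 0 ≤ A * (sin (π * u)) ^ 2 := by positivity
    linarith
  have hii : ∀ a b : ℝ, IntervalIntegrable (fun u : ℝ => (1 + A * (sin (π * u)) ^ 2)⁻¹)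
      MeasureTheory.volume a b := fun a b => hcont.intervalIntegrable a b
  have h1 : ∫ u in (0 : ℝ)..1, (1 + A * (sin (π * u)) ^ 2)⁻¹
      = (∫ u in (0 : ℝ)..(1 / 2), (1 + A * (sin (π * u)) ^ 2)⁻¹)
        + ∫ u in (1 / 2 : ℝ)..1, (1 + A * (sin (π * u)) ^ 2)⁻¹ :=
    (intervalIntegral.integral_add_adjacent_intervals (hii _ _) (hii _ _)).symm
  have h2 : ∫ u in (1 / 2 : ℝ)..1, (1 + A * (sin (π * u)) ^ 2)⁻¹
      = ∫ u in (0 : ℝ)..(1 / 2), (1 + A * (sin (π * u)) ^ 2)⁻¹ := by
    have h3 := intervalIntegral.integral_comp_sub_left (a := (0 : ℝ)) (b := 1 / 2)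
      (fun u : ℝ => (1 + A * (sin (π * u)) ^ 2)⁻¹) 1
    have e : (1 : ℝ) - 1 / 2 = 1 / 2 := by norm_num
    rw [e, sub_zero] at h3
    rw [← h3]
    apply intervalIntegral.integral_congr
    intro u _
    change (1 + A * (sin (π * (1 - u))) ^ 2)⁻¹ = _
    have e2 : π * (1 - u) = π - π * u := by ring
    rw [e2, sin_pi_sub]
  have hc : 0 < 2 * √A := by positivity
  have h4 : ∫ u in (0 : ℝ)..(1 / 2), (1 + A * (sin (π * u)) ^ 2)⁻¹
      ≤ ∫ u in (0 : ℝ)..(1 / 2), (1 + (2 * √A * u) ^ 2)⁻¹ := by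
    apply intervalIntegral.integral_mono_on (by norm_num) (hii _ _)
    · apply Continuous.intervalIntegrable
      apply Continuous.inv₀ (by fun_prop)
      intro u
      positivity
    · intro u hu
      apply inv_anti₀ (by positivity)
      have h5 : 2 / π * (π * u) ≤ sin (π * u) := by
        apply mul_le_sin
        · exact mul_nonneg pi_pos.le hu.1
        · have := hu.2
          nlinarith [pi_pos]
      have h6 : 2 * u ≤ sin (π * u) := by
        have e : 2 / π * (π * u) = 2 * u := by field_simp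
        rw [← e]; exact h5
      have h7 : (2 * u) ^ 2 ≤ (sin (π * u)) ^ 2 := by
        apply pow_le_pow_left₀ _ h6
        have := hu.1
        linarith
      have h8 : (2 * √A * u) ^ 2 = A * (2 * u) ^ 2 := by
        rw [mul_pow, mul_pow, sq_sqrt hA.le]
        ring
      rw [h8]
      have := mul_le_mul_of_nonneg_left h7 hA.le
      linarith
  have h5 : ∫ u in (0 : ℝ)..(1 / 2), (1 + (2 * √A * u) ^ 2)⁻¹ ≤ π / 2 / (2 * √A) := by
    have h6 := intervalIntegral.mul_integral_comp_mul_left (a := (0 : ℝ)) (b := 1 / 2)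
      (f := fun x : ℝ => (1 + x ^ 2)⁻¹) (c := 2 * √A)
    rw [integral_inv_one_add_sq] at h6
    rw [le_div_iff₀ hc, mul_comm, h6, mul_zero, arctan_zero, sub_zero]
    exact (arctan_lt_pi_div_two _).le
  rw [h1, h2]
  calc (∫ u in (0 : ℝ)..(1 / 2), (1 + A * (sin (π * u)) ^ 2)⁻¹)
        + ∫ u in (0 : ℝ)..(1 / 2), (1 + A * (sin (π * u)) ^ 2)⁻¹
      ≤ π / 2 / (2 * √A) + π / 2 / (2 * √A) := add_le_add (h4.trans h5) (h4.trans h5)
    _ = π / (2 * √A) := by ring

theorem int_bound_m (A : ℝ) (hA : 0 < A) (m : ℤ) (hm : m ≠ 0) :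
    ∫ u in (0 : ℝ)..1, (1 + A * (sin (π * (m * u))) ^ 2)⁻¹ ≤ π / (2 * √A) := by
  have hcont : Continuous fun u : ℝ => (1 + A * (sin (π * u)) ^ 2)⁻¹ := by
    apply Continuous.inv₀ (by fun_prop)
    intro u
    have : 0 ≤ A * (sin (π * u)) ^ 2 := by positivity
    linarith
  have hper : Function.Periodic (fun u : ℝ => (1 + A * (sin (π * u)) ^ 2)⁻¹) 1 := by
    intro u
    change (1 + A * (sin (π * (u + 1))) ^ 2)⁻¹ = (1 + A * (sin (π * u)) ^ 2)⁻¹
    have e : π * (u + 1) = π * u + π := by ring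
    rw [e, sin_add_pi, neg_sq]
  have h1 := hper.intervalIntegral_add_zsmul_eq m 0 (fun a b => hcont.intervalIntegrable a b)
  have h2 := intervalIntegral.mul_integral_comp_mul_left (a := (0 : ℝ)) (b := 1)
      (f := fun u : ℝ => (1 + A * (sin (π * u)) ^ 2)⁻¹) (c := (m : ℝ))
  have e1 : (0 : ℝ) + m • (1 : ℝ) = (m : ℝ) * 1 := by simp
  rw [e1, zero_add] at h1
  rw [mul_zero, h1, zsmul_eq_mul] at h2
  have hm' : (m : ℝ) ≠ 0 := by exact_mod_cast hm
  have h3 := mul_left_cancel₀ hm' h2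
  rw [h3]
  exact int_bound A hA

theorem int_exp (m : ℤ) : ∫ u in (0 : ℝ)..1, Complex.exp ((2 * π * m * Complex.I) * u)
    = if m = 0 then 1 else 0 := by
  split_ifs with hm
  · subst hm
    simp
  · have hc : (2 * π * m * Complex.I : ℂ) ≠ 0 := by
      have h1 : (π : ℂ) ≠ 0 := by exact_mod_cast pi_ne_zero
      have h2 : (m : ℂ) ≠ 0 := by exact_mod_cast hm
      simp [h1, h2, Complex.I_ne_zero]
    rw [integral_exp_mul_complex hc]
    have e1 : Complex.exp (2 * π * m * Complex.I * ((1 : ℝ) : ℂ)) = 1 := by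
      have e : (2 * π * m * Complex.I * ((1 : ℝ) : ℂ)) = m * (2 * π * Complex.I) := by
        push_cast; ring
      rw [e]
      exact Complex.exp_int_mul_two_pi_mul_I m
    rw [e1]
    simp

open Classical in
/-- Coefficient extraction. -/
theorem card_int {J : Type} [Fintype J] (cen : J → ℤ) (s : ℤ) :
    ((Finset.univ.filter (fun a => cen a = s)).card : ℂ)
      = ∫ u in (0 : ℝ)..1, ∑ a, Complex.exp ((2 * π * ((cen a - s : ℤ) : ℂ) * Complex.I) * u) := by
  rw [intervalIntegral.integral_finsetSum]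
  · rw [Finset.card_filter]
    push_cast
    apply Finset.sum_congr rfl
    intro a _
    have := int_exp (cen a - s)
    push_cast at this
    rw [this]
    by_cases h : cen a = s
    · rw [if_pos h, if_pos (by omega)]
    · rw [if_neg h, if_neg (by omega)]
  · intro a _
    apply Continuous.intervalIntegrable
    fun_prop

theorem norm_one_add (x : ℝ) : ‖1 + Complex.exp (2 * x * Complex.I)‖ ≤ 2 - (sin x) ^ 2 := by
  have h1 : 1 + Complex.exp (2 * x * Complex.I)
      = Complex.exp (x * Complex.I) * (2 * Complex.cos x) := by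
    rw [Complex.two_cos, mul_add, ← Complex.exp_add, ← Complex.exp_add]
    have e1 : (x : ℂ) * Complex.I + x * Complex.I = 2 * x * Complex.I := by ring
    have e2 : (x : ℂ) * Complex.I + -x * Complex.I = 0 := by ring
    rw [e1, e2, Complex.exp_zero, add_comm]
  rw [h1, norm_mul, Complex.norm_exp_ofReal_mul_I, one_mul, norm_mul]
  have h2 : ‖(2 : ℂ)‖ = 2 := by simp
  rw [h2, ← Complex.ofReal_cos, Complex.norm_real, Real.norm_eq_abs]
  have h3 : |cos x| ≤ 1 := abs_cos_le_one x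
  have h4 : 0 ≤ |cos x| := abs_nonneg _
  have h5 : |cos x| ^ 2 = cos x ^ 2 := sq_abs _
  have h6 := sin_sq_add_cos_sq x
  nlinarith

/-- Bound for the characteristic function. -/
theorem char_bound {ι : Type} [Fintype ι] (c : ι → ℤ) (a0 a1 : ι) (ha : c a0 ≠ c a1) (u : ℝ) :
    ‖∑ a, Complex.exp (2 * π * u * Complex.I) ^ (c a)‖
      ≤ Fintype.card ι - (sin (π * (((c a1 - c a0 : ℤ) : ℝ) * u))) ^ 2 := by
  classical
  have hz : ‖Complex.exp (2 * π * u * Complex.I)‖ = 1 := by
    have e : (2 * π * u * Complex.I : ℂ) = ((2 * π * u : ℝ) : ℂ) * Complex.I := by push_cast; ring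
    rw [e, Complex.norm_exp_ofReal_mul_I]
  have hne : a0 ≠ a1 := fun h => ha (by rw [h])
  have h1 : ∑ a, Complex.exp (2 * π * u * Complex.I) ^ (c a)
      = (Complex.exp (2 * π * u * Complex.I) ^ (c a0)
          + Complex.exp (2 * π * u * Complex.I) ^ (c a1))
        + ∑ a ∈ Finset.univ \ {a0, a1}, Complex.exp (2 * π * u * Complex.I) ^ (c a) := by
    rw [← Finset.sum_sdiff (Finset.subset_univ {a0, a1}), add_comm, Finset.sum_pair hne]
  have h2 : ‖∑ a ∈ Finset.univ \ {a0, a1}, Complex.exp (2 * π * u * Complex.I) ^ (c a)‖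
      ≤ Fintype.card ι - 2 := by
    refine (norm_sum_le _ _).trans ?_
    have h3 : ∀ a ∈ Finset.univ \ {a0, a1},
        ‖Complex.exp (2 * π * u * Complex.I) ^ (c a)‖ = 1 := by
      intro a _
      rw [norm_zpow, hz, one_zpow]
    rw [Finset.sum_congr rfl h3, Finset.sum_const, nsmul_eq_mul, mul_one,
      Finset.card_sdiff_of_subset (Finset.subset_univ _), Finset.card_pair hne, Finset.card_univ]
    have h4 : 2 ≤ Fintype.card ι := by
      rw [← Finset.card_pair hne]
      exact Finset.card_le_univ _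
    push_cast [Nat.cast_sub h4]
    rfl
  have h3 : ‖Complex.exp (2 * π * u * Complex.I) ^ (c a0)
      + Complex.exp (2 * π * u * Complex.I) ^ (c a1)‖
      ≤ 2 - (sin (π * (((c a1 - c a0 : ℤ) : ℝ) * u))) ^ 2 := by
    have e : Complex.exp (2 * π * u * Complex.I) ^ (c a0)
        + Complex.exp (2 * π * u * Complex.I) ^ (c a1)
        = Complex.exp (2 * π * u * Complex.I) ^ (c a0)
          * (1 + Complex.exp (2 * (π * (((c a1 - c a0 : ℤ) : ℝ) * u) : ℝ) * Complex.I)) := by
      have e2 : Complex.exp (2 * (π * (((c a1 - c a0 : ℤ) : ℝ) * u) : ℝ) * Complex.I)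
          = Complex.exp (2 * π * u * Complex.I) ^ (c a1 - c a0) := by
        rw [← Complex.exp_int_mul]
        congr 1
        push_cast
        ring
      rw [e2, mul_add, mul_one, ← zpow_add₀ (Complex.exp_ne_zero _)]
      congr 2
      ring
    rw [e, norm_mul, norm_zpow, hz, one_zpow, one_mul]
    exact norm_one_add _
  rw [h1]
  calc _ ≤ _ := norm_add_le _ _
    _ ≤ (2 - (sin (π * (((c a1 - c a0 : ℤ) : ℝ) * u))) ^ 2) + (Fintype.card ι - 2) :=
      add_le_add h3 h2
    _ = _ := by ring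

theorem pow_bound (y : ℝ) (h0 : 0 ≤ y) (h1 : y ≤ 1) (N : ℕ) : (1 - y) ^ N ≤ (1 + N * y)⁻¹ := by
  have h2 : 0 < 1 + N * y := by positivity
  rw [← one_div, le_div_iff₀ h2]
  have h3 : 1 + N * y ≤ (1 + y) ^ N := one_add_mul_le_pow (by linarith) N
  have h4 : 0 ≤ (1 - y) ^ N := pow_nonneg (by linarith) _
  calc (1 - y) ^ N * (1 + N * y) ≤ (1 - y) ^ N * (1 + y) ^ N := mul_le_mul_of_nonneg_left h3 h4
    _ = (1 - y ^ 2) ^ N := by rw [← mul_pow]; congr 1; ring
    _ ≤ 1 := pow_le_one₀ (by nlinarith) (by nlinarith)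

open Classical in
/-- The concentration bound. -/
theorem conc {ι J : Type} [Fintype ι] [Fintype J] (c : ι → ℤ) (a0 a1 : ι) (ha : c a0 ≠ c a1)
    (cen : J → ℤ) (N : ℕ) (hN : 0 < N)
    (h : ∀ z : ℂ, z ≠ 0 → ∑ a, z ^ (cen a) = (∑ a, z ^ (c a)) ^ N) (s : ℤ) :
    ((Finset.univ.filter (fun a => cen a = s)).card : ℝ)
      ≤ 2 * √(Fintype.card ι) / √N * (Fintype.card ι : ℝ) ^ N := by
  have hcard : 0 < (Fintype.card ι : ℝ) := by
    have : 0 < Fintype.card ι := Fintype.card_pos_iff.2 ⟨a0⟩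
    exact_mod_cast this
  have hcard1 : 1 ≤ (Fintype.card ι : ℝ) := by
    have : 0 < Fintype.card ι := Fintype.card_pos_iff.2 ⟨a0⟩
    exact_mod_cast this
  have hNr : 0 < (N : ℝ) := by exact_mod_cast hN
  set A : ℝ := N / Fintype.card ι with hA
  have hA0 : 0 < A := by positivity
  have hm : c a1 - c a0 ≠ 0 := fun h => ha (by omega)
  have hpt : ∀ u : ℝ, ‖∑ a, Complex.exp ((2 * π * ((cen a - s : ℤ) : ℂ) * Complex.I) * u)‖
      ≤ (Fintype.card ι : ℝ) ^ N *
        (1 + A * (sin (π * (((c a1 - c a0 : ℤ) : ℝ) * u))) ^ 2)⁻¹ := by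
    intro u
    have e : ∑ a, Complex.exp ((2 * π * ((cen a - s : ℤ) : ℂ) * Complex.I) * u)
        = Complex.exp (2 * π * u * Complex.I) ^ (-s)
          * (∑ a, Complex.exp (2 * π * u * Complex.I) ^ (c a)) ^ N := by
      rw [← h _ (Complex.exp_ne_zero _), Finset.mul_sum]
      apply Finset.sum_congr rfl
      intro a _
      rw [← zpow_add₀ (Complex.exp_ne_zero _), ← Complex.exp_int_mul]
      congr 1
      push_cast
      ring
    have hz : ‖Complex.exp (2 * π * u * Complex.I)‖ = 1 := by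
      have e : (2 * π * u * Complex.I : ℂ) = ((2 * π * u : ℝ) : ℂ) * Complex.I := by
        push_cast; ring
      rw [e, Complex.norm_exp_ofReal_mul_I]
    rw [e, norm_mul, norm_zpow, hz, one_zpow, one_mul, norm_pow]
    set t : ℝ := (sin (π * (((c a1 - c a0 : ℤ) : ℝ) * u))) ^ 2 with ht
    have ht0 : 0 ≤ t := sq_nonneg _
    have ht1 : t ≤ 1 := sin_sq_le_one _
    have h1 := char_bound c a0 a1 ha u
    rw [← ht] at h1
    have h2 : (Fintype.card ι : ℝ) - t = Fintype.card ι * (1 - t / Fintype.card ι) := by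
      field_simp
    rw [h2] at h1
    have h3 : t / Fintype.card ι ≤ 1 := by
      rw [div_le_one hcard]
      linarith
    calc ‖∑ a, Complex.exp (2 * π * u * Complex.I) ^ (c a)‖ ^ N
        ≤ (Fintype.card ι * (1 - t / Fintype.card ι)) ^ N :=
          pow_le_pow_left₀ (norm_nonneg _) h1 N
      _ = (Fintype.card ι : ℝ) ^ N * (1 - t / Fintype.card ι) ^ N := mul_pow _ _ _
      _ ≤ (Fintype.card ι : ℝ) ^ N * (1 + N * (t / Fintype.card ι))⁻¹ := by
          apply mul_le_mul_of_nonneg_left (pow_bound _ (by positivity) h3 N) (by positivity)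
      _ = _ := by
          congr 2
          rw [hA]
          ring
  have h1 := card_int cen s
  have h2 : ((Finset.univ.filter (fun a => cen a = s)).card : ℝ)
      = ‖((Finset.univ.filter (fun a => cen a = s)).card : ℂ)‖ := by
    rw [Complex.norm_natCast]
  rw [h2, h1]
  have hc1 : Continuous fun u : ℝ =>
      ∑ a, Complex.exp ((2 * π * ((cen a - s : ℤ) : ℂ) * Complex.I) * u) := by fun_prop
  have hc2 : Continuous fun u : ℝ => (Fintype.card ι : ℝ) ^ N *
        (1 + A * (sin (π * (((c a1 - c a0 : ℤ) : ℝ) * u))) ^ 2)⁻¹ := by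
    apply Continuous.mul continuous_const
    apply Continuous.inv₀ (by fun_prop)
    intro u
    have : 0 ≤ A * (sin (π * (((c a1 - c a0 : ℤ) : ℝ) * u))) ^ 2 := by positivity
    linarith
  calc ‖∫ u in (0 : ℝ)..1, ∑ a, Complex.exp ((2 * π * ((cen a - s : ℤ) : ℂ) * Complex.I) * u)‖
      ≤ ∫ u in (0 : ℝ)..1,
        ‖∑ a, Complex.exp ((2 * π * ((cen a - s : ℤ) : ℂ) * Complex.I) * u)‖ :=
        intervalIntegral.norm_integral_le_integral_norm zero_le_one
    _ ≤ ∫ u in (0 : ℝ)..1, (Fintype.card ι : ℝ) ^ N *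
        (1 + A * (sin (π * (((c a1 - c a0 : ℤ) : ℝ) * u))) ^ 2)⁻¹ := by
        apply intervalIntegral.integral_mono_on zero_le_one (hc1.norm.intervalIntegrable _ _)
          (hc2.intervalIntegrable _ _)
        intro u _
        exact hpt u
    _ = (Fintype.card ι : ℝ) ^ N * ∫ u in (0 : ℝ)..1,
        (1 + A * (sin (π * (((c a1 - c a0 : ℤ) : ℝ) * u))) ^ 2)⁻¹ :=
        intervalIntegral.integral_const_mul _ _
    _ ≤ (Fintype.card ι : ℝ) ^ N * (π / (2 * √A)) := by
        apply mul_le_mul_of_nonneg_left (int_bound_m A hA0 _ hm) (by positivity)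
    _ ≤ (Fintype.card ι : ℝ) ^ N * (2 * √(Fintype.card ι) / √N) := by
        apply mul_le_mul_of_nonneg_left _ (by positivity)
        rw [hA, sqrt_div hNr.le]
        have h3 : π / (2 * (√N / √(Fintype.card ι))) = (π / 2) * (√(Fintype.card ι) / √N) := by
          have h4 : √(N : ℝ) ≠ 0 := (sqrt_pos.2 hNr).ne'
          have h5 : √(Fintype.card ι : ℝ) ≠ 0 := (sqrt_pos.2 hcard).ne'
          field_simp
        rw [h3, mul_div_assoc]
        apply mul_le_mul_of_nonneg_right _ (by positivity)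
        have := pi_lt_four
        linarith
    _ = _ := mul_comm _ _

end Pool.H94.WM
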