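import Mathlib
import Pool.Agent.H73.WMTheory

/-!
Definitions for the statistical criteria for the weight-monodromy property (MP_d037d4_ag).
-/

namespace Pool.H94.WM

open Module Pool.H73.WM

section defs
variable {q : ℕ} {Ω : Type} [Field Ω] [CharZero Ω] (T : Theory q Ω)

/-- The products `x × y` (for `x` in `H^i(Y)` and `y` in `H^j(Z)`) generate the cohomology of
`Y × Z`: subspaces `P k` of the `H^k(Y × Z)` which contain all products are everything. -/
def Generate (Y Z : T.Var) : Prop :=
  ∀ P : ∀ k, Submodule Ω (T.H (T.prod Y Z) k),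
    (∀ (i j : ℕ) (x : T.H Y i) (y : T.H Z j), Coh.cr (T.products.cross Y Z i j) x y ∈ P (i + j)) →
    ∀ k, P k = ⊤

/-- The dimension of `H^k(Y × Z)` is the sum of the products `dim H^i(Y) · dim H^j(Z)` over all
`i + j = k`. -/
def KunnethDim (Y Z : T.Var) : Prop :=
  ∀ k : ℕ, finrank Ω (T.H (T.prod Y Z) k)
    = ∑ p ∈ Finset.HasAntidiagonal.antidiagonal k, finrank Ω (T.H Y p.1) * finrank Ω (T.H Z p.2)

/-- The Künneth formula: for all `Y` and `Z` the exterior product induces isomorphisms of the direct
sum of the `H^i(Y) ⊗ H^j(Z)` with `i + j = k` with `H^k(Y × Z)`; that is, the products generate the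
cohomology of `Y × Z`, and the dimensions agree. -/
def Kunneth : Prop := ∀ Y Z : T.Var, Generate T Y Z ∧ KunnethDim T Y Z

/-- The power `Y^(n+1)`. -/
def pw (Y : T.Var) : ℕ → T.Var
  | 0 => Y
  | n + 1 => T.prod (pw Y n) Y

/-- The rank of `N^j` on the subspace `P`: the dimension of the image of `P`. -/
noncomputable def rk {V : Type} [AddCommGroup V] [Module Ω V] (N : V →ₗ[Ω] V) (j : ℕ)
    (P : Submodule Ω V) : ℕ := finrank Ω (Submodule.span Ω ((N ^ j) '' P))

/-- The sum over all degrees `i` of the dimension of the part of weight `i + j` of `H^i(Y)`. -/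
noncomputable def dimSum (Y : T.Var) (j : ℕ) : ℕ :=
  ∑ i ∈ Finset.range (2 * T.dim Y + 1), finrank Ω (T.W Y i (i + j))

/-- The sum over all degrees `i` of the rank of `N^j` on the part of weight `i + j` of `H^i(Y)`. -/
noncomputable def rankSum (Y : T.Var) (j : ℕ) : ℕ :=
  ∑ i ∈ Finset.range (2 * T.dim Y + 1), rk (T.N Y i) j (T.W Y i (i + j))

/-- For all `j ≤ L` the rank of `N^j` from the weights `i + j` to the weights `i - j` is at least
`δ` times the expected (maximal) one. -/
def RankBound (Y : T.Var) (δ L : ℝ) : Prop :=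
  ∀ j : ℕ, (j : ℝ) ≤ L → δ * (dimSum T Y j : ℝ) ≤ (rankSum T Y j : ℝ)

/-- For some `η > 0`: for all `ε > 0`, on infinitely many powers `Y^(n+1)`, the ranks of the `N^j`
with `j ≤ η n` are at least the proportion `exp (-ε n)` of the expected (maximal) ones. -/
def RankCondition (Y : T.Var) : Prop :=
  ∃ η : ℝ, 0 < η ∧ ∀ ε : ℝ, 0 < ε → ∀ n₀ : ℕ, ∃ n : ℕ, n₀ ≤ n ∧
    RankBound T (pw T Y n) (Real.exp (-ε * n)) (η * n)

/-- The sum of `f (w - (i + j))` over all degrees `i`, all `j` and all Frobenius eigenvalues (with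
multiplicity) on the `j`-th graded piece `M_j / M_{j-1}` of `H^i(Y)`, where `w` is the weight of
the eigenvalue.  The number of eigenvalues of weight `w` on `M_j / M_{j-1}` is the difference of
the dimensions of the parts of weight `w` of `M_j` and `M_{j-1}`.  (In the sum over `p`, `p.1` is
`j` and `p.2` is `w`.) -/
noncomputable def errSum (Y : T.Var) (M : ∀ i, ℤ → Submodule Ω (T.H Y i)) (f : ℤ → ℝ) : ℝ :=
  ∑ i ∈ Finset.range (2 * T.dim Y + 1), ∑ᶠ p : ℤ × ℤ,
    f (p.2 - (i + p.1)) * ((finrank Ω (M i p.1 ⊓ T.W Y i p.2 : Submodule Ω (T.H Y i)) : ℝ)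
      - (finrank Ω (M i (p.1 - 1) ⊓ T.W Y i p.2 : Submodule Ω (T.H Y i)) : ℝ))

/-- The total Betti number: the sum of the dimensions of all `H^i(Y)`. -/
noncomputable def betti (Y : T.Var) : ℕ :=
  ∑ i ∈ Finset.range (2 * T.dim Y + 1), finrank Ω (T.H Y i)

/-- `M i` is the monodromy filtration of `H^i(Y)`, for all `i`. -/
def IsMono (Y : T.Var) (M : ∀ i, ℤ → Submodule Ω (T.H Y i)) : Prop :=
  ∀ i, IsMonodromyFiltration (T.N Y i) (M i)

/-- `1` at `0` and `0` elsewhere. -/
noncomputable def ind (e : ℤ) : ℝ := if e = 0 then 1 else 0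

/-- The absolute value. -/
def ab (e : ℤ) : ℝ := |(e : ℝ)|

/-- `s` times the number of Frobenius eigenvalues with the predicted weight (on the graded pieces
of the monodromy filtrations `M` of all `H^i(Y)`) is at least `c` times the number of all
eigenvalues. -/
def ProportionBound (Y : T.Var) (M : ∀ i, ℤ → Submodule Ω (T.H Y i)) (c s : ℝ) : Prop :=
  c * (betti T Y : ℝ) ≤ s * errSum T Y M ind

/-- For some `n`, of the Frobenius eigenvalues on the graded pieces of the monodromy filtrations of
all `H^i(Y^(n+1))` at least the proportion `(2 √b + 1) / √(n+1)` has the weight predicted by the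
weight-monodromy conjecture, where `b` is the total Betti number of `Y`. -/
def ProportionCondition (Y : T.Var) : Prop :=
  ∃ (n : ℕ) (M : ∀ i, ℤ → Submodule Ω (T.H (pw T Y n) i)), IsMono T (pw T Y n) M ∧
    ProportionBound T (pw T Y n) M (2 * √(betti T Y : ℝ) + 1) (√((n : ℝ) + 1))

/-- `c` times the sum, over all Frobenius eigenvalues on the graded pieces of the monodromy
filtrations `M` of all `H^i(Y)`, of the absolute difference between the weight and the predicted
weight is at most `s` times the number of all eigenvalues. -/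
def MeanBound (Y : T.Var) (M : ∀ i, ℤ → Submodule Ω (T.H Y i)) (c s : ℝ) : Prop :=
  c * errSum T Y M ab ≤ s * (betti T Y : ℝ)

/-- For some `n` with `n + 1 ≥ 64 b`, the mean over the Frobenius eigenvalues on the graded pieces
of the monodromy filtrations of all `H^i(Y^(n+1))` of the absolute difference between the weight
and the predicted weight is at most `√(n+1) / (64 √b)`, where `b` is the total Betti number of
`Y`. -/
def MeanCondition (Y : T.Var) : Prop :=
  ∃ (n : ℕ) (M : ∀ i, ℤ → Submodule Ω (T.H (pw T Y n) i)), 64 * betti T Y ≤ n + 1 ∧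
    IsMono T (pw T Y n) M ∧
    MeanBound T (pw T Y n) M (64 * √(betti T Y : ℝ)) (√((n : ℝ) + 1))

end defs

end Pool.H94.WM
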