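import Mathlib
import Pool.Agent.H94.WM.Cnt

/-!
Rank bounds with string bases (for MP_d037d4_ag).
-/

namespace Pool.H94.WM

open Module Submodule

section rk
variable {Ω : Type} [Field Ω] {V : Type} [AddCommGroup V] [Module Ω V]

theorem finrank_sup_le [FiniteDimensional Ω V] {ι : Type} (s : Finset ι) (P : ι → Submodule Ω V) :
    finrank Ω (s.sup P : Submodule Ω V) ≤ ∑ c ∈ s, finrank Ω (P c) := by
  classical
  induction s using Finset.induction_on with
  | empty => simp
  | insert a s ha ih =>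
    rw [Finset.sup_insert, Finset.sum_insert ha]
    exact (Submodule.finrank_add_le_finrank_add_finrank _ _).trans (Nat.add_le_add_left ih _)

variable [CharZero Ω] {N G D : V →ₗ[Ω] V} (B : SB N G D)

open Classical in
/-- The rank bound for one centre. -/
theorem SB.rank_cen (x : ℝ) (hx : 1 ≤ x) (j : ℕ) (i : ℕ) (c : ℤ) :
    x ^ j * (finrank Ω ((B.sp {a | B.deg a = i ∧ B.dl a = j ∧ B.cen a = c}).map (N ^ j)) : ℝ)
      ≤ ∑ a ∈ Finset.univ.filter (fun a => B.deg a = i ∧ B.cen a = c),
        x ^ (B.dl a - B.cen a) := by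
  have hfin := B.finite
  have hx0 : (0 : ℝ) < x := by linarith
  -- a general estimate
  have key : ∀ m : ℤ, (j : ℤ) ≤ m - c →
      x ^ j * ((Finset.univ.filter (fun a => B.deg a = i ∧ B.dl a = m ∧ B.cen a = c)).card : ℝ)
      ≤ ∑ a ∈ Finset.univ.filter (fun a => B.deg a = i ∧ B.cen a = c),
        x ^ (B.dl a - B.cen a) := by
    intro m hm
    calc x ^ j * ((Finset.univ.filter (fun a => B.deg a = i ∧ B.dl a = m ∧ B.cen a = c)).card : ℝ)
        = ∑ a ∈ Finset.univ.filter (fun a => B.deg a = i ∧ B.dl a = m ∧ B.cen a = c),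
          x ^ j := by
          rw [Finset.sum_const, nsmul_eq_mul, mul_comm]
      _ ≤ ∑ a ∈ Finset.univ.filter (fun a => B.deg a = i ∧ B.dl a = m ∧ B.cen a = c),
          x ^ (B.dl a - B.cen a) := by
          apply Finset.sum_le_sum
          intro a ha
          have ha' := (Finset.mem_filter.1 ha).2
          rw [ha'.2.1, ha'.2.2, ← zpow_natCast]
          exact zpow_le_zpow_right₀ hx hm
      _ ≤ _ := by
          apply Finset.sum_le_sum_of_subset_of_nonneg
          · intro a ha
            rw [Finset.mem_filter] at ha ⊢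
            exact ⟨ha.1, ha.2.1, ha.2.2.2⟩
          · intro a _ _
            exact (zpow_pos hx0 _).le
  rcases le_total c 0 with hc | hc
  · refine le_trans ?_ (key j (by omega))
    apply mul_le_mul_of_nonneg_left _ (pow_nonneg hx0.le _)
    have h1 : finrank Ω ((B.sp {a | B.deg a = i ∧ B.dl a = j ∧ B.cen a = c}).map (N ^ j))
        ≤ finrank Ω (B.sp {a | B.deg a = i ∧ B.dl a = j ∧ B.cen a = c}) :=
      Submodule.finrank_map_le _ _
    rw [B.finrank_sp'] at h1
    exact_mod_cast h1
  · refine le_trans ?_ (key (2 * c + j) (by omega))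
    apply mul_le_mul_of_nonneg_left _ (pow_nonneg hx0.le _)
    have h1 : (B.sp {a | B.deg a = i ∧ B.dl a = j ∧ B.cen a = c}).map (N ^ j)
        ≤ B.sp {a | B.deg a = i ∧ B.dl a = -j ∧ B.cen a = c} := by
      rintro _ ⟨y, hy, rfl⟩
      have h2 : G y = (i : Ω) • y := (B.G_mem i y).2 (B.sp_mono (fun a ha => ha.1) hy)
      have h3 : D y = ((j : ℤ) : Ω) • y := (B.D_mem j y).2 (B.sp_mono (fun a ha => ha.2.1) hy)
      have h4 : B.C y = (c : Ω) • y := (B.C_mem c y).2 (B.sp_mono (fun a ha => ha.2.2) hy)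
      have h5 : G ((N ^ j) y) = (i : Ω) • (N ^ j) y := by rw [pow_comm B.GN, h2, map_smul]
      have h6 := pow_shift B.DN h3 j
      have h7 : B.C ((N ^ j) y) = (c : Ω) • (N ^ j) y := by rw [pow_comm B.CN, h4, map_smul]
      rw [B.G_mem] at h5
      rw [B.D_mem] at h6
      rw [B.C_mem] at h7
      refine B.sp_mono ?_ (sp_inter B h5 (sp_inter B h6 h7))
      rintro a ⟨h8, h9, h10⟩
      refine ⟨h8, ?_, h10⟩
      have h9' : B.dl a = (j : ℤ) - 2 * j := h9
      omega
    have h2 := Submodule.finrank_mono h1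
    rw [B.finrank_sp'] at h2
    have h3 : (Finset.univ.filter (fun a => B.deg a = i ∧ B.dl a = -(j : ℤ) ∧ B.cen a = c)).card
        = (Finset.univ.filter (fun a => B.deg a = i ∧ B.dl a = 2 * c + j ∧ B.cen a = c)).card := by
      apply Finset.card_bij (fun a _ => B.sg a)
      · intro a ha
        simp only [Finset.mem_filter, Finset.mem_univ, true_and, Set.mem_ofPred_eq] at ha ⊢
        rw [B.sg_deg, B.sg_dl, B.sg_cen]
        refine ⟨ha.1, ?_, ha.2.2⟩
        have := ha.2
        omega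
      · intro a _ c _ h
        exact B.sg.injective h
      · intro a ha
        refine ⟨B.sg.symm a, ?_, by simp⟩
        simp only [Finset.mem_filter, Finset.mem_univ, true_and, Set.mem_ofPred_eq] at ha ⊢
        have h1 := B.sg_deg (B.sg.symm a)
        have h2 := B.sg_dl (B.sg.symm a)
        have h3 := B.sg_cen (B.sg.symm a)
        rw [Equiv.apply_symm_apply] at h1 h2 h3
        have := ha.2
        refine ⟨by omega, ?_, by omega⟩
        omega
    rw [h3] at h2
    exact_mod_cast h2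

open Classical in
/-- The rank bound in a fixed degree. -/
theorem SB.rank_deg (x : ℝ) (hx : 1 ≤ x) (j : ℕ) (i : ℕ) :
    x ^ j * (finrank Ω ((B.sp {a | B.deg a = i ∧ B.dl a = j}).map (N ^ j)) : ℝ)
      ≤ ∑ a ∈ Finset.univ.filter (fun a => B.deg a = i), x ^ (B.dl a - B.cen a) := by
  have hfin := B.finite
  have hx0 : (0 : ℝ) < x := by linarith
  let cs : Finset ℤ := Finset.univ.image B.cen
  let P : ℤ → Submodule Ω V := fun c =>
    (B.sp {a | B.deg a = i ∧ B.dl a = j ∧ B.cen a = c}).map (N ^ j)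
  have h1 : (B.sp {a | B.deg a = i ∧ B.dl a = j}).map (N ^ j) ≤ cs.sup P := by
    have h2 : B.sp {a | B.deg a = i ∧ B.dl a = j} ≤ (cs.sup P).comap (N ^ j) := by
      unfold SB.sp
      rw [span_le]
      rintro _ ⟨a, ha, rfl⟩
      have h3 : P (B.cen a) ≤ cs.sup P :=
        Finset.le_sup (f := P) (Finset.mem_image_of_mem _ (Finset.mem_univ a))
      exact h3 ⟨B.b a, B.b_mem ⟨ha.1, ha.2, rfl⟩, rfl⟩
    rintro _ ⟨y, hy, rfl⟩
    exact h2 hy
  have h2 := (Submodule.finrank_mono h1).trans (finrank_sup_le cs P)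
  have h3 : (finrank Ω ((B.sp {a | B.deg a = i ∧ B.dl a = j}).map (N ^ j)) : ℝ)
      ≤ ∑ c ∈ cs, (finrank Ω (P c) : ℝ) := by exact_mod_cast h2
  calc x ^ j * (finrank Ω ((B.sp {a | B.deg a = i ∧ B.dl a = j}).map (N ^ j)) : ℝ)
      ≤ x ^ j * ∑ c ∈ cs, (finrank Ω (P c) : ℝ) :=
        mul_le_mul_of_nonneg_left h3 (pow_nonneg hx0.le _)
    _ = ∑ c ∈ cs, x ^ j * (finrank Ω (P c) : ℝ) := Finset.mul_sum _ _ _
    _ ≤ ∑ c ∈ cs, ∑ a ∈ Finset.univ.filter (fun a => B.deg a = i ∧ B.cen a = c),
        x ^ (B.dl a - B.cen a) := Finset.sum_le_sum fun c _ => B.rank_cen x hx j i c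
    _ = ∑ c ∈ cs, ∑ a ∈ (Finset.univ.filter (fun a => B.deg a = i)).filter (fun a => B.cen a = c),
        x ^ (B.dl a - B.cen a) := by
        apply Finset.sum_congr rfl
        intro c _
        rw [Finset.filter_filter]
    _ = _ := Finset.sum_fiberwise_of_maps_to
        (fun a _ => Finset.mem_image_of_mem _ (Finset.mem_univ a)) _

open Classical in
/-- The total rank bound. -/
theorem SB.rank_total (x : ℝ) (hx : 1 ≤ x) (j : ℕ) (I : Finset ℕ) :
    x ^ j * (∑ i ∈ I, (finrank Ω ((B.sp {a | B.deg a = i ∧ B.dl a = j}).map (N ^ j)) : ℝ))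
      ≤ ∑ a, x ^ (B.dl a - B.cen a) := by
  have hx0 : (0 : ℝ) < x := by linarith
  rw [Finset.mul_sum]
  refine (Finset.sum_le_sum fun i _ => B.rank_deg x hx j i).trans ?_
  have h1 : ∑ i ∈ I, ∑ a ∈ Finset.univ.filter (fun a => B.deg a = i), x ^ (B.dl a - B.cen a)
      = ∑ a ∈ Finset.univ.filter (fun a => B.deg a ∈ I), x ^ (B.dl a - B.cen a) := by
    rw [← Finset.sum_fiberwise_of_maps_to (s := Finset.univ.filter (fun a => B.deg a ∈ I)) (t := I)
      (g := B.deg) (fun a ha => (Finset.mem_filter.1 ha).2)]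
    apply Finset.sum_congr rfl
    intro i hi
    apply Finset.sum_congr _ (fun _ _ => rfl)
    ext a
    simp only [Finset.mem_filter, Finset.mem_univ, true_and]
    constructor
    · intro h
      exact ⟨h ▸ hi, h⟩
    · exact fun h => h.2
  rw [h1]
  exact Finset.sum_le_sum_of_subset_of_nonneg (Finset.filter_subset _ _)
    (fun a _ _ => (zpow_pos hx0 _).le)

/-- If all centres are `0`, then `N ^ j` is injective on the part of relative weight `j`. -/
theorem SB.rank_full (hc : ∀ a, B.cen a = 0) (j : ℕ) (i : ℕ) :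
    finrank Ω ((B.sp {a | B.deg a = i ∧ B.dl a = j}).map (N ^ j))
      = finrank Ω (B.sp {a | B.deg a = i ∧ B.dl a = j}) := by
  have hfin := B.finite
  have h1 : Function.Injective ((N ^ j).domRestrict (B.sp {a | B.deg a = i ∧ B.dl a = j})) := by
    rw [injective_iff_map_eq_zero]
    intro x hx
    apply Subtype.ext
    apply B.inj j _ hx
    have h2 : (x : V) ∈ B.sp {a | B.dl a - B.cen a = j} := by
      refine B.sp_mono ?_ x.2
      intro a ha
      change B.dl a - B.cen a = j
      rw [hc a, ha.2, sub_zero]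
    have h3 := (B.h_mem j _).2 h2
    push_cast at h3
    exact h3
  have h2 : (B.sp {a | B.deg a = i ∧ B.dl a = j}).map (N ^ j)
      = LinearMap.range ((N ^ j).domRestrict (B.sp {a | B.deg a = i ∧ B.dl a = j})) := by
    ext z
    simp only [Submodule.mem_map, LinearMap.mem_range, LinearMap.domRestrict_apply,
      Subtype.exists, exists_prop]
  rw [h2]
  exact LinearMap.finrank_range_of_inj h1

end rk

end Pool.H94.WM
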