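import Mathlib
import Pool.Agent.H73.WMMain
import Pool.Agent.H94.WM.Defs
import Pool.Agent.H94.WM.Rk

/-!
String bases for the cohomology of a variety and of its powers (for MP_d037d4_ag).
-/

namespace Pool.H94.WM

open Module Module.End Submodule TensorProduct DirectSum Pool.H73.WM Pool.H73.WM.Theory

section defs
variable {q : ℕ} {Ω : Type} [Field Ω] [CharZero Ω] (T : Theory q Ω)

/-- The total cohomology `H^*(Y)`: the direct sum of all `H^i(Y)`. -/
abbrev Tot (Y : T.Var) : Type := ⨁ i : ℕ, T.H Y i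

/-- The image in `H^*(Y)` of a class `x` in `H^i(Y)`. -/
noncomputable def inc (Y : T.Var) (i : ℕ) (x : T.H Y i) : Tot T Y :=
  DirectSum.lof Ω ℕ (T.H Y) i x

/-- The isomorphism `e : H^*(Y) ⊗ H^*(Z) ≃ H^*(Y × Z)` sends `x ⊗ y` (for `x` in `H^i(Y)` and `y` in
`H^j(Z)`) to the exterior product of `x` and `y` in `H^(i+j)(Y × Z)`. -/
def IsKunneth (Y Z : T.Var) (e : Tot T Y ⊗[Ω] Tot T Z ≃ₗ[Ω] Tot T (T.prod Y Z)) : Prop :=
  ∀ (i j : ℕ) (x : T.H Y i) (y : T.H Z j), e (inc T Y i x ⊗ₜ[Ω] inc T Z j y)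
    = inc T (T.prod Y Z) (i + j) (Coh.cr (T.products.cross Y Z i j) x y)

/-- The Künneth isomorphism. -/
def KunnethIso : Prop := ∀ Y Z : T.Var, ∃ e, IsKunneth T Y Z e

end defs

section tot
variable {q : ℕ} {Ω : Type} [Field Ω] [CharZero Ω] {T : Theory q Ω}

theorem W_indep (hq : 1 < q) (Y : T.Var) (i : ℕ) : iSupIndep (T.W Y i) := by
  intro w
  have h1 : ⨆ v, ⨆ (_ : v ≠ w), T.W Y i v ≤ GS (T.F Y i) {α : Ω | ∃ v, v ≠ w ∧ IsWeil q α v} := by
    refine iSup₂_le fun v hv => ?_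
    rw [W_def]
    apply GS_mono
    intro α hα
    exact ⟨v, hv, hα⟩
  refine Disjoint.mono_right h1 ?_
  rw [W_def]
  apply GS_disjoint
  rw [Set.disjoint_left]
  rintro α hα ⟨v, hv, hβ⟩
  exact hv (IsWeil.unique hq hβ hα)

variable [IsAlgClosed Ω]

theorem W_top (Y : T.Var) (i : ℕ) : ⨆ w, T.W Y i w = ⊤ := by
  rw [eq_top_iff, ← mixed_top Y i]
  apply GS_le
  rintro α ⟨w, hw⟩
  refine le_trans ?_ (le_iSup (T.W Y i) w)
  rw [W_def]
  exact le_GS _ hw

/-- The operator on `H^i(Y)` which acts by `w - i` on the part of weight `w`. -/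
theorem exists_D (hq : 1 < q) (Y : T.Var) (i : ℕ) :
    ∃ D : T.H Y i →ₗ[Ω] T.H Y i, ∀ w, ∀ x ∈ T.W Y i w, D x = ((w - i : ℤ) : Ω) • x := by
  classical
  have hint : DirectSum.IsInternal (T.W Y i) :=
    DirectSum.isInternal_submodule_of_iSupIndep_of_iSup_eq_top (W_indep hq Y i) (W_top Y i)
  let e : (⨁ w, T.W Y i w) ≃ₗ[Ω] T.H Y i :=
    LinearEquiv.ofBijective (DirectSum.coeLinearMap (T.W Y i)) hint
  refine ⟨(DirectSum.toModule Ω ℤ (T.H Y i) fun w => ((w - i : ℤ) : Ω) • (T.W Y i w).subtype) ∘ₗ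
    e.symm.toLinearMap, ?_⟩
  intro w x hx
  have h1 : e.symm x = DirectSum.lof Ω ℤ (fun w => T.W Y i w) w ⟨x, hx⟩ := by
    rw [LinearEquiv.symm_apply_eq]
    change x = DirectSum.coeLinearMap (T.W Y i) _
    rw [DirectSum.coeLinearMap_lof]
  rw [LinearMap.comp_apply]
  change (DirectSum.toModule Ω ℤ (T.H Y i) fun w => ((w - i : ℤ) : Ω) • (T.W Y i w).subtype)
    (e.symm x) = _
  rw [h1, DirectSum.toModule_lof]
  rfl

/-- The operator on `H^i(Y)` which acts by `w - i` on the part of weight `w`. -/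
noncomputable def Dh (hq : 1 < q) (Y : T.Var) (i : ℕ) : T.H Y i →ₗ[Ω] T.H Y i :=
  (exists_D hq Y i).choose

theorem Dh_W (hq : 1 < q) (Y : T.Var) (i : ℕ) {w : ℤ} {x : T.H Y i} (hx : x ∈ T.W Y i w) :
    Dh hq Y i x = ((w - i : ℤ) : Ω) • x := (exists_D hq Y i).choose_spec w x hx

theorem W_ext (Y : T.Var) (i : ℕ) {U : Type} [AddCommGroup U] [Module Ω U]
    {f g : T.H Y i →ₗ[Ω] U} (h : ∀ w, ∀ y ∈ T.W Y i w, f y = g y) (x : T.H Y i) : f x = g x := by
  have h1 : (⊤ : Submodule Ω (T.H Y i)) ≤ LinearMap.eqLocus f g := by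
    rw [← W_top Y i]
    exact iSup_le fun w x hx => h w x hx
  exact h1 trivial

theorem W_le_eig (hq : 1 < q) (Y : T.Var) (i : ℕ) (w : ℤ) :
    T.W Y i w ≤ End.eigenspace (Dh hq Y i) ((w - i : ℤ) : Ω) := fun x hx =>
  End.mem_eigenspace_iff.2 (Dh_W hq Y i hx)

theorem mem_W_iff (hq : 1 < q) (Y : T.Var) (i : ℕ) (w : ℤ) (x : T.H Y i) :
    x ∈ T.W Y i w ↔ Dh hq Y i x = ((w - i : ℤ) : Ω) • x := by
  refine ⟨Dh_W hq Y i, fun h => ?_⟩
  obtain ⟨a, ha, b, hb, hab⟩ := exists_decomp Y i w x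
  have h1 : b ∈ End.eigenspace (Dh hq Y i) ((w - i : ℤ) : Ω) := by
    rw [End.mem_eigenspace_iff]
    have h2 : b = x - a := by rw [hab]; abel
    rw [h2, map_sub, h, Dh_W hq Y i ha, smul_sub]
  have h2 : b ∈ ⨆ μ, ⨆ (_ : μ ≠ ((w - i : ℤ) : Ω)), End.eigenspace (Dh hq Y i) μ := by
    have h3 : GS (T.F Y i) {α : Ω | ∃ v, v ≠ w ∧ IsWeil q α v}
        ≤ ⨆ μ, ⨆ (_ : μ ≠ ((w - i : ℤ) : Ω)), End.eigenspace (Dh hq Y i) μ := by
      apply GS_le
      rintro α ⟨v, hv, hα⟩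
      have h4 : maxGenEigenspace (T.F Y i) α ≤ T.W Y i v := by
        rw [W_def]; exact le_GS _ hα
      refine h4.trans ((W_le_eig hq Y i v).trans ?_)
      refine le_iSup₂_of_le ((v - i : ℤ) : Ω) ?_ le_rfl
      intro h5
      have h6 : v - (i : ℤ) = w - i := by exact_mod_cast h5
      exact hv (by omega)
    exact h3 hb
  have h3 : b = 0 := Submodule.disjoint_def.1
    (End.eigenspaces_iSupIndep (Dh hq Y i) ((w - i : ℤ) : Ω)) b h1 h2
  rw [hab, h3, add_zero]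
  exact ha

theorem Dh_N (hq : 1 < q) (Y : T.Var) (i : ℕ) (x : T.H Y i) :
    Dh hq Y i (T.N Y i x) = T.N Y i (Dh hq Y i x) - (2 : Ω) • T.N Y i x := by
  refine W_ext Y i (f := Dh hq Y i ∘ₗ T.N Y i)
    (g := T.N Y i ∘ₗ Dh hq Y i - (2 : Ω) • T.N Y i) ?_ x
  intro w x hx
  rw [LinearMap.comp_apply, LinearMap.sub_apply, LinearMap.comp_apply, LinearMap.smul_apply,
    Dh_W hq Y i hx, Dh_W hq Y i (N_W hq Y i w x hx), map_smul, ← sub_smul]
  push_cast
  congr 1
  ring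

theorem Dh_top (hq : 1 < q) (Y : T.Var) (i : ℕ) :
    ⨆ μ, End.eigenspace (Dh hq Y i) μ = ⊤ := by
  rw [eq_top_iff, ← W_top Y i]
  exact iSup_le fun w => (W_le_eig hq Y i w).trans (le_iSup (End.eigenspace (Dh hq Y i)) _)

theorem Dh_int (hq : 1 < q) (Y : T.Var) (i : ℕ) (μ : Ω) (x : T.H Y i) (hx : x ≠ 0)
    (h : Dh hq Y i x = μ • x) : ∃ t : ℤ, μ = t := by
  by_contra hcon
  push Not at hcon
  apply hx
  have h1 : x ∈ ⨆ ν, ⨆ (_ : ν ≠ μ), End.eigenspace (Dh hq Y i) ν := by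
    have h2 : (⊤ : Submodule Ω (T.H Y i)) ≤ ⨆ ν, ⨆ (_ : ν ≠ μ), End.eigenspace (Dh hq Y i) ν := by
      rw [← W_top Y i]
      refine iSup_le fun w => (W_le_eig hq Y i w).trans ?_
      exact le_iSup₂_of_le ((w - i : ℤ) : Ω) (fun h3 => hcon _ h3.symm) le_rfl
    exact h2 trivial
  exact Submodule.disjoint_def.1 (End.eigenspaces_iSupIndep (Dh hq Y i) μ) x
    (End.mem_eigenspace_iff.2 h) h1

theorem exists_SB_deg (hq : 1 < q) (Y : T.Var) (i : ℕ) :
    Nonempty (SB (T.N Y i) ((i : Ω) • LinearMap.id) (Dh hq Y i)) := by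
  apply exists_SB i (Dh_N hq Y i) (Dh_int hq Y i)
  apply strDec (Dh_top hq Y i) (Dh_N hq Y i)
  obtain ⟨K, hK⟩ := T.basic.N_nilp Y i
  exact ⟨K, fun x => by rw [hK]; rfl⟩

/-- The total operators. -/
noncomputable def Nt (T : Theory q Ω) (Y : T.Var) : Tot T Y →ₗ[Ω] Tot T Y :=
  DirectSum.lmap fun i => T.N Y i

noncomputable def Gt (T : Theory q Ω) (Y : T.Var) : Tot T Y →ₗ[Ω] Tot T Y :=
  DirectSum.lmap fun i => (i : Ω) • (LinearMap.id : T.H Y i →ₗ[Ω] T.H Y i)

noncomputable def Dt (hq : 1 < q) (Y : T.Var) : Tot T Y →ₗ[Ω] Tot T Y :=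
  DirectSum.lmap fun i => Dh hq Y i

theorem exists_SB_tot (hq : 1 < q) (Y : T.Var) : Nonempty (SB (Nt T Y) (Gt T Y) (Dt hq Y)) := by
  classical
  let B : ∀ i, SB (T.N Y i) ((i : Ω) • LinearMap.id) (Dh hq Y i) :=
    fun i => (exists_SB_deg hq Y i).some
  refine ⟨SB.dsum B ?_⟩
  have hempty : ∀ i, 2 * T.dim Y < i → IsEmpty (B i).ι := by
    intro i hi
    refine ⟨fun a => ?_⟩
    exact (B i).b.ne_zero a (T.vanish Y i hi _)
  apply Finite.of_injective (β := Σ i : Fin (2 * T.dim Y + 1), (B i).ι)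
    (fun a => if h : a.1 < 2 * T.dim Y + 1 then ⟨⟨a.1, h⟩, a.2⟩ else
      (hempty a.1 (by omega)).elim a.2)
  rintro ⟨i, a⟩ ⟨j, b⟩ hab
  have hi : i < 2 * T.dim Y + 1 := by
    by_contra h
    exact (hempty i (by omega)).elim a
  have hj : j < 2 * T.dim Y + 1 := by
    by_contra h
    exact (hempty j (by omega)).elim b
  simp only [dif_pos hi, dif_pos hj] at hab
  simp only [Sigma.mk.injEq, Fin.mk.injEq] at hab
  obtain ⟨h1, h2⟩ := hab
  subst h1
  rw [heq_eq_eq] at h2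
  rw [h2]

/-! ### The exterior product and weights -/

omit [IsAlgClosed Ω] in
theorem cross_gen (Y Z : T.Var) (i j : ℕ) {α β : Ω} :
    ∀ x ∈ maxGenEigenspace (T.F Y i) α, ∀ y ∈ maxGenEigenspace (T.F Z j) β,
      T.cross Y Z i j x y ∈ maxGenEigenspace (T.F (T.prod Y Z) (i + j)) (α * β) := by
  have hstep : ∀ z : T.H (T.prod Y Z) (i + j), T.F (T.prod Y Z) (i + j) z - (α * β) • z
      ∈ maxGenEigenspace (T.F (T.prod Y Z) (i + j)) (α * β) →
      z ∈ maxGenEigenspace (T.F (T.prod Y Z) (i + j)) (α * β) := by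
    intro z hz
    rw [mem_maxGenEigenspace] at hz ⊢
    obtain ⟨k, hk⟩ := hz
    refine ⟨k + 1, ?_⟩
    rw [pow_succ]
    exact hk
  have key : ∀ s m n : ℕ, m + n ≤ s → ∀ x y,
      ((T.F Y i - α • (1 : End Ω (T.H Y i))) ^ m) x = 0 →
      ((T.F Z j - β • (1 : End Ω (T.H Z j))) ^ n) y = 0 →
      T.cross Y Z i j x y ∈ maxGenEigenspace (T.F (T.prod Y Z) (i + j)) (α * β) := by
    intro s
    induction s with
    | zero =>
      intro m n hmn x y hx hy
      have : m = 0 := by omega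
      subst this
      have : x = 0 := by simpa using hx
      rw [this, map_zero, LinearMap.zero_apply]
      exact Submodule.zero_mem _
    | succ s ih =>
      intro m n hmn x y hx hy
      rcases Nat.eq_zero_or_pos m with hm | hm
      · subst hm
        have : x = 0 := by simpa using hx
        rw [this, map_zero, LinearMap.zero_apply]
        exact Submodule.zero_mem _
      rcases Nat.eq_zero_or_pos n with hn | hn
      · subst hn
        have : y = 0 := by simpa using hy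
        rw [this, map_zero]
        exact Submodule.zero_mem _
      obtain ⟨m, rfl⟩ : ∃ m', m = m' + 1 := ⟨m - 1, by omega⟩
      obtain ⟨n, rfl⟩ : ∃ n', n = n' + 1 := ⟨n - 1, by omega⟩
      have e1 : ((T.F Y i - α • (1 : End Ω (T.H Y i))) ^ m) (T.F Y i x - α • x) = 0 := by
        rw [← hx, pow_succ]; rfl
      have e2 : ((T.F Z j - β • (1 : End Ω (T.H Z j))) ^ n) (T.F Z j y - β • y) = 0 := by
        rw [← hy, pow_succ]; rfl
      have e3 : ((T.F Z j - β • (1 : End Ω (T.H Z j))) ^ (n + 1)) (T.F Z j y) = 0 := by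
        have hc : Commute (T.F Z j - β • (1 : End Ω (T.H Z j))) (T.F Z j) := by
          apply Commute.sub_left (Commute.refl _)
          exact (Commute.one_left _).smul_left β
        have := (hc.pow_left (n + 1)).eq
        have h2 := congrArg (fun f => f y) this
        simp only [End.mul_apply] at h2
        rw [h2, hy, map_zero]
      have h1 := ih m (n + 1) (by omega) _ _ e1 e3
      have h2 := ih (m + 1) n (by omega) _ _ hx e2
      apply hstep
      have h4 : T.F (T.prod Y Z) (i + j) (T.cross Y Z i j x y) - (α * β) • T.cross Y Z i j x y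
          = T.cross Y Z i j (T.F Y i x - α • x) (T.F Z j y)
            + α • T.cross Y Z i j x (T.F Z j y - β • y) := by
        rw [T.cross_F]
        simp only [map_sub, LinearMap.sub_apply, map_smul, LinearMap.smul_apply]
        module
      rw [h4]
      exact Submodule.add_mem _ h1 (Submodule.smul_mem _ _ h2)
  intro x hx y hy
  rw [mem_maxGenEigenspace] at hx hy
  obtain ⟨m, hm⟩ := hx
  obtain ⟨n, hn⟩ := hy
  exact key _ m n le_rfl x y hm hn

omit [IsAlgClosed Ω] in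
theorem cross_W (hq : 1 < q) (Y Z : T.Var) (i j : ℕ) (v w : ℤ) :
    ∀ x ∈ T.W Y i v, ∀ y ∈ T.W Z j w, T.cross Y Z i j x y ∈ T.W (T.prod Y Z) (i + j) (v + w) := by
  intro x hx y hy
  have h1 : ∀ α, IsWeil q α v → ∀ x ∈ maxGenEigenspace (T.F Y i) α,
      T.W Z j w ≤ (T.W (T.prod Y Z) (i + j) (v + w)).comap (T.cross Y Z i j x) := by
    intro α hα x hx
    rw [W_def]
    apply GS_le
    intro β hβ y hy
    rw [Submodule.mem_comap, W_def]
    exact le_GS _ (S := {γ : Ω | IsWeil q γ (v + w)}) (hα.mul hq hβ)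
      (cross_gen Y Z i j x hx y hy)
  have h2 : T.W Y i v ≤ (T.W (T.prod Y Z) (i + j) (v + w)).comap ((T.cross Y Z i j).flip y) := by
    rw [W_def]
    apply GS_le
    intro α hα x hx
    exact h1 α hα x hx hy
  exact h2 hx

omit [IsAlgClosed Ω] in
theorem ext_kun {Y Z : T.Var} {U : Type} [AddCommGroup U] [Module Ω U]
    {f g : Tot T Y →ₗ[Ω] Tot T Z →ₗ[Ω] U}
    (h : ∀ i j (x : T.H Y i) (y : T.H Z j), f (DirectSum.lof Ω ℕ (T.H Y) i x)
      (DirectSum.lof Ω ℕ (T.H Z) j y) = g (DirectSum.lof Ω ℕ (T.H Y) i x)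
      (DirectSum.lof Ω ℕ (T.H Z) j y)) (x : Tot T Y) (y : Tot T Z) : f x y = g x y := by
  have h1 : f = g := DirectSum.linearMap_ext Ω fun i => LinearMap.ext fun x =>
    DirectSum.linearMap_ext Ω fun j => LinearMap.ext fun y => h i j x y
  rw [h1]

omit [IsAlgClosed Ω] in
/-- Derivation rule on the total cohomology. -/
theorem kun_der {Y Z : T.Var} {e : Tot T Y ⊗[Ω] Tot T Z ≃ₗ[Ω] Tot T (T.prod Y Z)}
    (he : IsKunneth T Y Z e) (A : ∀ X : T.Var, ∀ i, T.H X i →ₗ[Ω] T.H X i)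
    (hA : ∀ i j x y, A (T.prod Y Z) (i + j) (T.cross Y Z i j x y)
      = T.cross Y Z i j (A Y i x) y + T.cross Y Z i j x (A Z j y)) (x : Tot T Y) (y : Tot T Z) :
    DirectSum.lmap (A (T.prod Y Z)) (e (x ⊗ₜ y))
      = e (DirectSum.lmap (A Y) x ⊗ₜ y) + e (x ⊗ₜ DirectSum.lmap (A Z) y) := by
  have kun_lof : ∀ (i j : ℕ) (x : T.H Y i) (y : T.H Z j),
      e (DirectSum.lof Ω ℕ (T.H Y) i x ⊗ₜ DirectSum.lof Ω ℕ (T.H Z) j y)
      = DirectSum.lof Ω ℕ (T.H (T.prod Y Z)) (i + j) (T.cross Y Z i j x y) := he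
  let K : Tot T Y →ₗ[Ω] Tot T Z →ₗ[Ω] Tot T (T.prod Y Z) :=
    (TensorProduct.mk Ω (Tot T Y) (Tot T Z)).compr₂ e.toLinearMap
  have hK : ∀ x y, K x y = e (x ⊗ₜ y) := fun x y => rfl
  refine ext_kun (f := K.compr₂ (DirectSum.lmap (A (T.prod Y Z))))
    (g := K.comp (DirectSum.lmap (A Y)) + K.compl₂ (DirectSum.lmap (A Z))) ?_ x y
  intro i j x y
  simp only [LinearMap.compr₂_apply, LinearMap.add_apply, LinearMap.comp_apply,
    LinearMap.compl₂_apply, hK, DirectSum.lmap_lof, kun_lof, hA, map_add]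

/-- The product of string bases. -/
noncomputable def prodSB (hq : 1 < q) (hK : KunnethIso T) {Y Z : T.Var}
    (B : SB (Nt T Y) (Gt T Y) (Dt hq Y)) (B' : SB (Nt T Z) (Gt T Z) (Dt hq Z)) :
    SB (Nt T (T.prod Y Z)) (Gt T (T.prod Y Z)) (Dt hq (T.prod Y Z)) :=
  B.prod B' (hK Y Z).choose
    (fun x y => kun_der (hK Y Z).choose_spec (fun X i => T.N X i) (fun i j x y => T.cross_N Y Z i j x y) x y)
    (fun x y => kun_der (hK Y Z).choose_spec (fun X i => (i : Ω) • LinearMap.id) (fun i j x y => by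
      simp only [LinearMap.smul_apply, LinearMap.id_apply, map_smul]
      push_cast
      rw [add_smul]) x y)
    (fun x y => kun_der (hK Y Z).choose_spec (fun X i => Dh hq X i) (fun i j x y => by
      have h1 : ∀ x : T.H Y i, ∀ y : T.H Z j,
          ((T.cross Y Z i j).compr₂ (Dh hq (T.prod Y Z) (i + j))) x y
          = ((T.cross Y Z i j).comp (Dh hq Y i) + (T.cross Y Z i j).compl₂ (Dh hq Z j)) x y := by
        intro x
        refine W_ext Z j (f := ((T.cross Y Z i j).compr₂ (Dh hq (T.prod Y Z) (i + j))) x)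
          (g := ((T.cross Y Z i j).comp (Dh hq Y i) + (T.cross Y Z i j).compl₂ (Dh hq Z j)) x) ?_
        intro w y hy
        refine W_ext Y i (f := ((T.cross Y Z i j).compr₂ (Dh hq (T.prod Y Z) (i + j))).flip y)
          (g := ((T.cross Y Z i j).comp (Dh hq Y i)
            + (T.cross Y Z i j).compl₂ (Dh hq Z j)).flip y) ?_ x
        intro v x hx
        simp only [LinearMap.flip_apply, LinearMap.compr₂_apply, LinearMap.add_apply,
          LinearMap.comp_apply, LinearMap.compl₂_apply]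
        rw [Dh_W hq _ _ (cross_W hq Y Z i j v w x hx y hy), Dh_W hq Y i hx, Dh_W hq Z j hy,
          map_smul, map_smul, LinearMap.smul_apply, ← add_smul]
        push_cast
        congr 1
        ring
      exact h1 x y) x y)

/-- The string basis of a power. -/
noncomputable def pwSB (hq : 1 < q) (hK : KunnethIso T) {Y : T.Var}
    (B : SB (Nt T Y) (Gt T Y) (Dt hq Y)) :
    ∀ n, SB (Nt T (pw T Y n)) (Gt T (pw T Y n)) (Dt hq (pw T Y n))
  | 0 => B
  | n + 1 => prodSB hq hK (pwSB hq hK B n) B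

/-- Multiplicativity of generating functions. -/
theorem pwSB_gen (hq : 1 < q) (hK : KunnethIso T) {Y : T.Var}
    (B : SB (Nt T Y) (Gt T Y) (Dt hq Y)) {R : Type} [CommSemiring R] (χ : ℤ → ℤ → R)
    (hχ : ∀ a b c d, χ (a + b) (c + d) = χ a c * χ b d) (n : ℕ) :
    ∑ a, χ ((pwSB hq hK B n).dl a) ((pwSB hq hK B n).cen a)
      = (∑ a, χ (B.dl a) (B.cen a)) ^ (n + 1) := by
  induction n with
  | zero => rw [zero_add, pow_one]; rfl
  | succ n ih =>
    rw [pow_succ, ← ih, Finset.sum_mul_sum, ← Fintype.sum_prod_type']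
    change ∑ a : (pwSB hq hK B n).ι × B.ι,
      χ ((pwSB hq hK B n).dl a.1 + B.dl a.2) ((pwSB hq hK B n).cen a.1 + B.cen a.2) = _
    apply Finset.sum_congr rfl
    intro a _
    rw [hχ]

end tot

end Pool.H94.WM
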