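import Mathlib
import Pool.Agent.H73.WMUnique
import Pool.Agent.H94.WM.Tot

/-!
Weights, ranks and the monodromy filtration in terms of a string basis (for MP_d037d4_ag).
-/

namespace Pool.H94.WM

open Module Module.End Submodule TensorProduct DirectSum Pool.H73.WM Pool.H73.WM.Theory

section fil
variable {q : ℕ} {Ω : Type} [Field Ω] [CharZero Ω] {T : Theory q Ω}

/-- The inclusion of `H^i` in the total cohomology. -/
noncomputable abbrev incl (T : Theory q Ω) (X : T.Var) (i : ℕ) : T.H X i →ₗ[Ω] Tot T X :=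
  DirectSum.lof Ω ℕ (T.H X) i

theorem inc_inj (X : T.Var) (i : ℕ) : Function.Injective (incl T X i) :=
  DirectSum.of_injective i

theorem Gt_range (X : T.Var) (i : ℕ) {y : Tot T X} (h : Gt T X y = (i : Ω) • y) :
    y = incl T X i (y i) := by
  apply DFinsupp.ext
  intro k
  by_cases hk : k = i
  · subst hk
    exact (DirectSum.lof_apply Ω k (y k)).symm
  · have h1 := DFunLike.congr_fun h k
    have h2 : (k : Ω) • y k = (i : Ω) • y k := h1
    have h3 : y k = 0 := by
      by_contra h4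
      have h5 : ((k : Ω) - i) • y k = 0 := by rw [sub_smul, h2, sub_self]
      have h6 := (smul_eq_zero.1 h5).resolve_right h4
      apply hk
      have h7 : (k : Ω) = i := sub_eq_zero.1 h6
      exact_mod_cast h7
    rw [h3]
    exact (DirectSum.of_eq_of_ne i k (y i) hk).symm

theorem Gt_inc (X : T.Var) (i : ℕ) (x : T.H X i) : Gt T X (incl T X i x) = (i : Ω) • incl T X i x := by
  change DirectSum.lmap _ (DirectSum.lof Ω ℕ (T.H X) i x) = _
  rw [DirectSum.lmap_lof, LinearMap.smul_apply, map_smul]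
  rfl

theorem Nt_pow_inc (X : T.Var) (i k : ℕ) (x : T.H X i) :
    (Nt T X ^ k) (incl T X i x) = incl T X i ((T.N X i ^ k) x) := by
  induction k generalizing x with
  | zero => simp
  | succ k ih =>
    have e : ∀ z, (Nt T X ^ (k + 1)) z = (Nt T X ^ k) (Nt T X z) := fun z => by rw [pow_succ]; rfl
    have e2 : ∀ z, (T.N X i ^ (k + 1)) z = (T.N X i ^ k) (T.N X i z) := fun z => by
      rw [pow_succ]; rfl
    have e3 : Nt T X (incl T X i x) = incl T X i (T.N X i x) := by
      change DirectSum.lmap _ (DirectSum.lof Ω ℕ (T.H X) i x) = _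
      rw [DirectSum.lmap_lof]
    rw [e, e3, ih, e2]

theorem finrank_inc (X : T.Var) (i : ℕ) (P : Submodule Ω (T.H X i)) :
    finrank Ω (P.map (incl T X i)) = finrank Ω P :=
  ((Submodule.equivMapOfInjective (incl T X i) (inc_inj X i) P).finrank_eq).symm

variable [IsAlgClosed Ω]

theorem Dt_inc (hq : 1 < q) (X : T.Var) (i : ℕ) (x : T.H X i) :
    Dt hq X (incl T X i x) = incl T X i (Dh hq X i x) := by
  change DirectSum.lmap _ (DirectSum.lof Ω ℕ (T.H X) i x) = _
  rw [DirectSum.lmap_lof]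

variable {hq : 1 < q} {X : T.Var} (B : SB (Nt T X) (Gt T X) (Dt hq X))

theorem inc_mem_W (i : ℕ) (j : ℤ) (x : T.H X i) :
    x ∈ T.W X i (i + j) ↔ incl T X i x ∈ B.sp {a | B.deg a = i ∧ B.dl a = j} := by
  rw [mem_W_iff hq]
  have e : (((i : ℤ) + j - i : ℤ) : Ω) = ((j : ℤ) : Ω) := by congr 1; ring
  rw [e]
  constructor
  · intro h
    have h1 : Dt hq X (incl T X i x) = (j : Ω) • incl T X i x := by
      rw [Dt_inc, h, map_smul]
    rw [B.D_mem] at h1
    have h2 := Gt_inc X i x
    rw [B.G_mem] at h2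
    exact sp_inter B h2 h1
  · intro h
    have h1 : Dt hq X (incl T X i x) = (j : Ω) • incl T X i x :=
      (B.D_mem j _).2 (B.sp_mono (fun a ha => ha.2) h)
    rw [Dt_inc, ← map_smul] at h1
    exact inc_inj X i h1

theorem sp_deg_range {i : ℕ} {S : Set B.ι} (hS : ∀ a ∈ S, B.deg a = i) {y : Tot T X}
    (hy : y ∈ B.sp S) : ∃ x, incl T X i x = y := by
  have h1 : Gt T X y = (i : Ω) • y := (B.G_mem i y).2 (B.sp_mono hS hy)
  exact ⟨y i, (Gt_range X i h1).symm⟩

theorem W_map (i : ℕ) (j : ℤ) :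
    (T.W X i (i + j)).map (incl T X i) = B.sp {a | B.deg a = i ∧ B.dl a = j} := by
  ext y
  constructor
  · rintro ⟨x, hx, rfl⟩
    exact (inc_mem_W B i j x).1 hx
  · intro hy
    obtain ⟨x, hx⟩ := sp_deg_range B (S := {a | B.deg a = i ∧ B.dl a = j}) (fun a ha => ha.1) hy
    refine ⟨x, ?_, hx⟩
    apply (inc_mem_W B i j x).2
    rw [hx]
    exact hy

theorem finrank_W (i : ℕ) (j : ℤ) :
    finrank Ω (T.W X i (i + j)) = (Finset.univ.filter (fun a => B.deg a = i ∧ B.dl a = j)).card := by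
  rw [← finrank_inc, W_map B, B.finrank_sp']

theorem finrank_NW (i j : ℕ) :
    finrank Ω ((T.W X i (i + j)).map (T.N X i ^ j))
      = finrank Ω ((B.sp {a | B.deg a = i ∧ B.dl a = j}).map (Nt T X ^ j)) := by
  rw [← finrank_inc, ← W_map B]
  have h : Submodule.map (incl T X i) (Submodule.map (T.N X i ^ j) (T.W X i (↑i + ↑j))) =
      Submodule.map (Nt T X ^ j) (Submodule.map (incl T X i) (T.W X i (↑i + ↑j))) := by
    ext y
    constructor
    · rintro ⟨_, ⟨x, hx, rfl⟩, rfl⟩
      exact ⟨incl T X i x, ⟨x, hx, rfl⟩, Nt_pow_inc X i j x⟩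
    · rintro ⟨_, ⟨x, hx, rfl⟩, rfl⟩
      exact ⟨(T.N X i ^ j) x, ⟨x, hx, rfl⟩, (Nt_pow_inc X i j x).symm⟩
  rw [h]

theorem deg_le (a : B.ι) : B.deg a ≤ 2 * T.dim X := by
  by_contra h
  have h1 := Gt_range X (B.deg a) (B.hG a)
  rw [T.vanish X (B.deg a) (by omega) ((B.b a) (B.deg a)), map_zero] at h1
  exact B.b.ne_zero a h1

theorem sum_deg {R : Type} [AddCommMonoid R] (f : B.ι → R) :
    ∑ i ∈ Finset.range (2 * T.dim X + 1), ∑ a ∈ Finset.univ.filter (fun a => B.deg a = i), f a
      = ∑ a, f a :=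
  Finset.sum_fiberwise_of_maps_to (s := Finset.univ) (t := Finset.range (2 * T.dim X + 1))
    (g := B.deg) (fun a _ => Finset.mem_range.2 (by have := deg_le B a; omega)) f

theorem dimSum_eq (j : ℕ) :
    dimSum T X j = (Finset.univ.filter (fun a => B.dl a = j)).card := by
  unfold dimSum
  rw [Finset.card_filter, ← sum_deg B]
  apply Finset.sum_congr rfl
  intro i _
  rw [finrank_W B i j, Finset.card_filter, Finset.sum_filter]
  apply Finset.sum_congr rfl
  intro a _
  by_cases h1 : B.deg a = i <;> by_cases h2 : B.dl a = (j : ℤ) <;> simp [h1, h2]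

omit [IsAlgClosed Ω] in
theorem rk_eq {V : Type} [AddCommGroup V] [Module Ω V] (N : V →ₗ[Ω] V) (j : ℕ)
    (P : Submodule Ω V) : rk N j P = finrank Ω (P.map (N ^ j)) := by
  unfold rk
  rw [Submodule.span_image, Submodule.span_eq]

theorem rankSum_le (x : ℝ) (hx : 1 ≤ x) (j : ℕ) :
    x ^ j * (rankSum T X j : ℝ) ≤ ∑ a, x ^ (B.dl a - B.cen a) := by
  have h1 := B.rank_total x hx j (Finset.range (2 * T.dim X + 1))
  refine le_trans (le_of_eq ?_) h1
  unfold rankSum
  push_cast
  congr 1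
  apply Finset.sum_congr rfl
  intro i _
  rw [rk_eq, finrank_NW B]

theorem rankSum_full (hc : ∀ a, B.cen a = 0) (j : ℕ) : rankSum T X j = dimSum T X j := by
  unfold rankSum dimSum
  apply Finset.sum_congr rfl
  intro i _
  rw [rk_eq, finrank_NW B, B.rank_full hc, ← W_map B, finrank_inc]

/-! ### The monodromy filtration -/

/-- The monodromy filtration of `H^i(X)`. -/
noncomputable def fil (i : ℕ) (k : ℤ) : Submodule Ω (T.H X i) :=
  (B.sp {a | B.dl a - B.cen a ≤ k}).comap (incl T X i)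

theorem N_sp_eq (k : ℕ) (m : ℤ) {y : Tot T X} (hy : y ∈ B.sp {a | B.dl a - B.cen a = m}) :
    (Nt T X ^ k) y ∈ B.sp {a | B.dl a - B.cen a = m - 2 * k} := by
  have h1 := (B.h_mem m y).2 hy
  have h2 := pow_shift B.hN h1 k
  exact (B.h_mem _ _).1 h2

theorem N_sp_le (k : ℕ) (m : ℤ) {y : Tot T X} (hy : y ∈ B.sp {a | B.dl a - B.cen a ≤ m}) :
    (Nt T X ^ k) y ∈ B.sp {a | B.dl a - B.cen a ≤ m - 2 * k} := by
  have h1 : B.sp {a | B.dl a - B.cen a ≤ m}
      ≤ (B.sp {a | B.dl a - B.cen a ≤ m - 2 * k}).comap (Nt T X ^ k) := by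
    unfold SB.sp
    rw [span_le]
    rintro _ ⟨a, ha, rfl⟩
    have h2 := N_sp_eq B k (B.dl a - B.cen a) (y := B.b a) (B.b_mem rfl)
    refine B.sp_mono ?_ h2
    intro c hc
    have hc' : B.dl c - B.cen c = B.dl a - B.cen a - 2 * k := hc
    have ha' : B.dl a - B.cen a ≤ m := ha
    change B.dl c - B.cen c ≤ m - 2 * k
    omega
  exact h1 hy

theorem fil_mono (i : ℕ) : IsMonodromyFiltration (T.N X i) (fil B i) := by
  have hbd : ∃ K : ℤ, ∀ a, |B.dl a - B.cen a| ≤ K := by
    refine ⟨∑ a, |B.dl a - B.cen a|, fun a => ?_⟩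
    exact Finset.single_le_sum (f := fun a => |B.dl a - B.cen a|) (fun _ _ => abs_nonneg _)
      (Finset.mem_univ a)
  obtain ⟨K, hK⟩ := hbd
  refine ⟨?_, ⟨-K - 1, ?_⟩, ⟨K, ?_⟩, ?_, ?_, ?_⟩
  · intro k l hkl x hx
    refine B.sp_mono ?_ hx
    intro a ha
    exact le_trans (show B.dl a - B.cen a ≤ k from ha) hkl
  · rw [eq_bot_iff]
    intro x hx
    have h1 : incl T X i x ∈ B.sp (∅ : Set B.ι) := by
      refine B.sp_mono ?_ hx
      intro a ha
      have h2 : B.dl a - B.cen a ≤ -K - 1 := ha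
      have h3 := abs_le.1 (hK a)
      omega
    have h2 : incl T X i x = 0 := by
      unfold SB.sp at h1
      simpa using h1
    exact inc_inj X i (by rw [h2, map_zero])
  · rw [eq_top_iff]
    intro x _
    change incl T X i x ∈ B.sp _
    rw [B.mem_sp]
    intro a _
    exact le_trans (le_abs_self _) (hK a)
  · intro j x hx
    change incl T X i (T.N X i x) ∈ B.sp {a | B.dl a - B.cen a ≤ j - 2}
    have h1 := N_sp_le B 1 j hx
    rw [pow_one] at h1
    have e : Nt T X (incl T X i x) = incl T X i (T.N X i x) := by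
      have := Nt_pow_inc X i 1 x
      rw [pow_one, pow_one] at this
      exact this
    rw [e] at h1
    push_cast at h1
    exact h1
  · intro k x hx hNx
    change incl T X i x ∈ B.sp _
    obtain ⟨y, hy, z, hz, hyz⟩ := sp_split B {a | B.dl a - B.cen a = k} hx
    have hz' : z ∈ B.sp {a | B.dl a - B.cen a ≤ k - 1} := by
      refine B.sp_mono ?_ hz
      rintro a ⟨h1, h2⟩
      have h1' : B.dl a - B.cen a ≤ k := h1
      have h2' : ¬ (B.dl a - B.cen a = k) := h2
      change B.dl a - B.cen a ≤ k - 1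
      omega
    have hy' : y ∈ B.sp {a | B.dl a - B.cen a = (k : ℤ)} := B.sp_mono (fun a ha => ha.2) hy
    have h1 : (Nt T X ^ k) y ∈ B.sp {a | B.dl a - B.cen a ≤ -(k : ℤ) - 1} := by
      have h2 : (Nt T X ^ k) y = incl T X i ((T.N X i ^ k) x) - (Nt T X ^ k) z := by
        rw [← Nt_pow_inc, hyz, map_add]
        abel
      rw [h2]
      refine Submodule.sub_mem _ hNx ?_
      refine B.sp_mono ?_ (N_sp_le B k _ hz')
      intro a ha
      have ha' : B.dl a - B.cen a ≤ (k : ℤ) - 1 - 2 * k := ha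
      change B.dl a - B.cen a ≤ -(k : ℤ) - 1
      omega
    have h2 := N_sp_eq B k k hy'
    have h3 : (Nt T X ^ k) y = 0 := by
      have h4 := sp_inter B h1 h2
      have h5 : ({a | B.dl a - B.cen a ≤ -(k : ℤ) - 1} ∩ {a | B.dl a - B.cen a = (k : ℤ) - 2 * k})
          = (∅ : Set B.ι) := by
        ext a
        simp only [Set.mem_inter_iff, Set.mem_ofPred_eq, Set.mem_empty_iff_false, iff_false]
        omega
      rw [h5] at h4
      unfold SB.sp at h4
      simpa using h4
    have h4 : y = 0 := by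
      apply B.inj k _ h3
      have := (B.h_mem k y).2 hy'
      push_cast at this
      exact this
    rw [hyz, h4, zero_add]
    exact hz'
  · intro k y hy
    have hG : incl T X i y ∈ B.sp {a | B.deg a = i} := (B.G_mem i _).1 (Gt_inc X i y)
    have hy2 := sp_inter B hG hy
    obtain ⟨u, hu, z, hz, huz⟩ := sp_split B {a | B.dl a - B.cen a = -k} hy2
    have hu' : u ∈ B.sp {a | B.deg a = i ∧ B.dl a - B.cen a = -k} := by
      refine B.sp_mono ?_ hu
      rintro a ⟨⟨h1, h2⟩, h3⟩
      exact ⟨h1, h3⟩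
    have hz' : z ∈ B.sp {a | B.dl a - B.cen a ≤ -k - 1} := by
      refine B.sp_mono ?_ hz
      rintro a ⟨⟨h1, h2⟩, h3⟩
      have h2' : B.dl a - B.cen a ≤ -k := h2
      have h3' : ¬ (B.dl a - B.cen a = -k) := h3
      change B.dl a - B.cen a ≤ -k - 1
      omega
    obtain ⟨x, hx, hxu⟩ := B.surj k i hu'
    obtain ⟨x', hx'⟩ := sp_deg_range B (S := {a | B.deg a = i ∧ B.dl a - B.cen a = k})
      (fun a ha => ha.1) hx
    refine ⟨x', ?_, ?_⟩
    · change incl T X i x' ∈ B.sp _
      rw [hx']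
      refine B.sp_mono ?_ hx
      intro a ha
      exact le_of_eq ha.2
    · change incl T X i (y - (T.N X i ^ k) x') ∈ B.sp _
      rw [map_sub, ← Nt_pow_inc, hx', hxu, huz]
      have : u + z - u = z := by abel
      rw [this]
      exact hz'

theorem fil_W_map (i : ℕ) (k : ℤ) (w : ℤ) :
    (fil B i k ⊓ T.W X i w).map (incl T X i)
      = B.sp {a | B.deg a = i ∧ B.dl a = w - i ∧ B.dl a - B.cen a ≤ k} := by
  have e : w = i + (w - i) := by ring
  ext y
  constructor
  · rintro ⟨x, ⟨hx1, hx2⟩, rfl⟩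
    rw [SetLike.mem_coe, e, inc_mem_W B] at hx2
    refine B.sp_mono ?_ (sp_inter B hx2 hx1)
    rintro a ⟨⟨h1, h2⟩, h3⟩
    exact ⟨h1, h2, h3⟩
  · intro hy
    obtain ⟨x, hx⟩ := sp_deg_range B
      (S := {a | B.deg a = i ∧ B.dl a = w - i ∧ B.dl a - B.cen a ≤ k}) (fun a ha => ha.1) hy
    refine ⟨x, ⟨?_, ?_⟩, hx⟩
    · change incl T X i x ∈ B.sp _
      rw [hx]
      exact B.sp_mono (fun a ha => ha.2.2) hy
    · rw [SetLike.mem_coe, e, inc_mem_W B, hx]
      refine B.sp_mono ?_ hy
      intro a ha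
      exact ⟨ha.1, ha.2.1⟩

theorem mult_eq (i : ℕ) (k w : ℤ) :
    (finrank Ω (fil B i k ⊓ T.W X i w : Submodule Ω (T.H X i)) : ℝ)
      - (finrank Ω (fil B i (k - 1) ⊓ T.W X i w : Submodule Ω (T.H X i)) : ℝ)
    = ∑ a ∈ Finset.univ.filter (fun a => B.deg a = i),
        if (B.dl a - B.cen a, B.dl a + i) = (k, w) then (1 : ℝ) else 0 := by
  rw [← finrank_inc, ← finrank_inc, fil_W_map B, fil_W_map B, B.finrank_sp', B.finrank_sp',
    Finset.card_filter, Finset.card_filter, Finset.sum_filter]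
  push_cast
  rw [← Finset.sum_sub_distrib]
  apply Finset.sum_congr rfl
  intro a _
  simp only [Prod.mk.injEq]
  by_cases h1 : B.deg a = i
  · by_cases h2 : B.dl a = w - i
    · rcases lt_trichotomy (B.dl a - B.cen a) k with h3 | h3 | h3
      · rw [if_pos ⟨h1, h2, h3.le⟩, if_pos ⟨h1, h2, by omega⟩, if_pos h1, if_neg (by omega)]
        ring
      · rw [if_pos ⟨h1, h2, h3.le⟩, if_neg (by omega), if_pos h1, if_pos ⟨h3, by omega⟩]
        ring
      · rw [if_neg (by omega), if_neg (by omega), if_pos h1, if_neg (by omega)]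
        ring
    · rw [if_neg (by tauto), if_neg (by tauto), if_pos h1, if_neg (by omega)]
      ring
  · rw [if_neg (by tauto), if_neg (by tauto), if_neg h1]
    ring

theorem errSum_eq (f : ℤ → ℝ) : errSum T X (fil B) f = ∑ a, f (B.cen a) := by
  classical
  unfold errSum
  rw [← sum_deg B]
  apply Finset.sum_congr rfl
  intro i _
  let s : Finset B.ι := Finset.univ.filter (fun a => B.deg a = i)
  let key : B.ι → ℤ × ℤ := fun a => (B.dl a - B.cen a, B.dl a + i)
  have h1 : ∀ p : ℤ × ℤ, f (p.2 - (i + p.1)) *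
      ((finrank Ω (fil B i p.1 ⊓ T.W X i p.2 : Submodule Ω (T.H X i)) : ℝ)
      - (finrank Ω (fil B i (p.1 - 1) ⊓ T.W X i p.2 : Submodule Ω (T.H X i)) : ℝ))
      = ∑ a ∈ s, if key a = p then f (B.cen a) else 0 := by
    rintro ⟨k, w⟩
    rw [mult_eq B, Finset.mul_sum]
    apply Finset.sum_congr rfl
    intro a _
    change _ = if (B.dl a - B.cen a, B.dl a + (i : ℤ)) = (k, w) then f (B.cen a) else 0
    by_cases h2 : (B.dl a - B.cen a, B.dl a + (i : ℤ)) = (k, w)
    · rw [if_pos h2, if_pos h2, mul_one]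
      rw [Prod.mk.injEq] at h2
      congr 1
      change w - (i + k) = _
      omega
    · rw [if_neg h2, if_neg h2, mul_zero]
  rw [finsum_congr h1]
  rw [finsum_eq_sum_of_support_subset (s := s.image key)]
  · rw [Finset.sum_comm]
    apply Finset.sum_congr rfl
    intro a ha
    rw [Finset.sum_ite_eq]
    rw [if_pos (Finset.mem_image_of_mem _ ha)]
  · intro p hp
    rw [Function.mem_support] at hp
    obtain ⟨a, ha, ha2⟩ := Finset.exists_ne_zero_of_sum_ne_zero hp
    have h3 : key a = p := by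
      by_contra h4
      rw [if_neg h4] at ha2
      exact ha2 rfl
    rw [Finset.mem_coe, Finset.mem_image]
    exact ⟨a, ha, h3⟩

theorem errSum_eq' (M : ∀ i, ℤ → Submodule Ω (T.H X i))
    (hM : ∀ i, IsMonodromyFiltration (T.N X i) (M i)) (f : ℤ → ℝ) :
    errSum T X M f = ∑ a, f (B.cen a) := by
  have h1 : M = fil B := by
    funext i
    exact (hM i).unique (fil_mono B i)
  rw [h1, errSum_eq]

theorem finrank_H (i : ℕ) :
    finrank Ω (T.H X i) = (Finset.univ.filter (fun a => B.deg a = i)).card := by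
  have h1 : (⊤ : Submodule Ω (T.H X i)).map (incl T X i) = B.sp {a | B.deg a = i} := by
    ext y
    constructor
    · rintro ⟨x, -, rfl⟩
      exact (B.G_mem i _).1 (Gt_inc X i x)
    · intro hy
      obtain ⟨x, hx⟩ := sp_deg_range B (S := {a | B.deg a = i}) (fun a ha => ha) hy
      exact ⟨x, trivial, hx⟩
  rw [← finrank_top, ← finrank_inc, h1, B.finrank_sp']

theorem betti_eq : betti T X = Fintype.card B.ι := by
  unfold betti
  rw [← Finset.card_univ, Finset.card_eq_sum_ones, ← sum_deg B]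
  apply Finset.sum_congr rfl
  intro i _
  rw [finrank_H B, Finset.card_eq_sum_ones]

omit [IsAlgClosed Ω] in
theorem W_congr (X : T.Var) {i i' : ℕ} {w w' : ℤ} (h : i = i') (h' : w = w') :
    finrank Ω (T.W X i w) = finrank Ω (T.W X i' w') := by
  subst h h'
  rfl

/-- Poincaré duality for the weights: an inequality. -/
theorem finrank_W_le (hq : 1 < q) (X : T.Var) (i i' : ℕ) (h : i + i' = 2 * T.dim X) (w : ℤ) :
    finrank Ω (T.W X i w) ≤ finrank Ω (T.W X i' (2 * (T.dim X : ℤ) - w)) := by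
  let P := T.W X i' (2 * (T.dim X : ℤ) - w)
  let g : T.W X i w →ₗ[Ω] Module.Dual Ω P :=
    ((Module.Dual.transpose (R := Ω) P.subtype).comp (T.pair X i i' h)).comp (T.W X i w).subtype
  have hg : Function.Injective g := by
    rw [injective_iff_map_eq_zero]
    intro x hx
    apply Subtype.ext
    apply (T.pair_left X i i' h).1
    change T.pair X i i' h (x : T.H X i) = T.pair X i i' h 0
    rw [map_zero]
    ext y
    obtain ⟨a, ha, b, hb, hab⟩ := exists_decomp X i' (2 * (T.dim X : ℤ) - w) y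
    have h1 : T.pair X i i' h x a = 0 := by
      have h2 := LinearMap.congr_fun hx ⟨a, ha⟩
      exact h2
    have h2 : T.pair X i i' h x b = 0 := pair_W hq X i i' h w x x.2 b hb
    rw [hab, map_add, h1, h2, add_zero]
    rfl
  have h1 := LinearMap.finrank_le_finrank_of_injective hg
  rwa [Subspace.dual_finrank_eq] at h1

theorem card_eq (j : ℤ) : (Finset.univ.filter (fun a => B.dl a = j)).card
    = ∑ i ∈ Finset.range (2 * T.dim X + 1), finrank Ω (T.W X i (i + j)) := by
  rw [Finset.card_filter, ← sum_deg B]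
  apply Finset.sum_congr rfl
  intro i _
  rw [finrank_W B i j, Finset.card_filter, Finset.sum_filter]
  apply Finset.sum_congr rfl
  intro a _
  by_cases h1 : B.deg a = i <;> by_cases h2 : B.dl a = j <;> simp [h1, h2]

theorem card_le (j : ℤ) : (Finset.univ.filter (fun a => B.dl a = j)).card
    ≤ (Finset.univ.filter (fun a => B.dl a = -j)).card := by
  rw [card_eq B, card_eq B, ← Finset.sum_range_reflect]
  apply Finset.sum_le_sum
  intro i hi
  have hi' := Finset.mem_range.1 hi
  refine (finrank_W_le hq X _ i (by omega) _).trans (le_of_eq ?_)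
  apply W_congr X rfl
  omega

/-- Poincaré duality: symmetry of the dimensions. -/
theorem card_symm (j : ℤ) : (Finset.univ.filter (fun a => B.dl a = j)).card
    = (Finset.univ.filter (fun a => B.dl a = -j)).card := by
  apply le_antisymm (card_le B j)
  have := card_le B (-j)
  rwa [neg_neg] at this

end fil

end Pool.H94.WM
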