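import Mathlib
import Pool.Agent.H94.WM.Fil
import Pool.Agent.H94.WM.Conc

/-!
The equivalence with the vanishing of all centres (for MP_d037d4_ag).
-/

namespace Pool.H94.WM

open Module Module.End Submodule TensorProduct DirectSum Pool.H73.WM Pool.H73.WM.Theory

section main
variable {q : ℕ} {Ω : Type} [Field Ω] [CharZero Ω] [IsAlgClosed Ω] {T : Theory q Ω}
  {hq : 1 < q} {X : T.Var} (B : SB (Nt T X) (Gt T X) (Dt hq X))

/-- Weight-monodromy for all degrees implies that all centres are `0`. -/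
theorem cen_zero_of_wm (h : ∀ i, T.WeightMonodromy X i) (a : B.ι) : B.cen a = 0 := by
  obtain ⟨M, hM, hF, hP⟩ := h (B.deg a)
  have hMf : M = fil B (B.deg a) := hM.unique (fil_mono B (B.deg a))
  subst hMf
  set i := B.deg a with hi
  set j := B.dl a - B.cen a with hj
  -- a generalized eigenvector in `M_j` but not in `M_{j-1}` has weight `i + j`
  have key : ∀ α : Ω, ∀ x ∈ maxGenEigenspace (T.F X i) α, x ∈ fil B i j → x ∉ fil B i (j - 1) →
      IsWeil q α (i + j) := by
    classical
    intro α x hx hx1 hx2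
    have hst : ∀ t : ℕ, ((T.F X i - α • (1 : End Ω (T.H X i))) ^ t) x ∈ fil B i j := by
      intro t
      induction t with
      | zero => simpa using hx1
      | succ t ih =>
        rw [pow_succ']
        exact Submodule.sub_mem _ (hF j _ ih) (Submodule.smul_mem _ α ih)
    rw [mem_maxGenEigenspace] at hx
    obtain ⟨K, hK⟩ := hx
    have hex : ∃ t : ℕ, ((T.F X i - α • (1 : End Ω (T.H X i))) ^ t) x ∈ fil B i (j - 1) :=
      ⟨K, by rw [hK]; exact Submodule.zero_mem _⟩
    have h1 := Nat.find_spec hex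
    have h2 : Nat.find hex ≠ 0 := by
      intro h0
      rw [h0] at h1
      exact hx2 (by simpa using h1)
    obtain ⟨t, ht⟩ := Nat.exists_eq_succ_of_ne_zero h2
    rw [ht, pow_succ'] at h1
    have h3 : ((T.F X i - α • (1 : End Ω (T.H X i))) ^ t) x ∉ fil B i (j - 1) :=
      Nat.find_min hex (by omega)
    exact hP j _ (hst t) h3 α h1
  -- decomposition of the basis element
  have hG := Gt_range X i (B.hG a)
  set x : T.H X i := (B.b a) i with hx
  have hxj : x ∈ fil B i j := by
    change incl T X i x ∈ B.sp _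
    rw [← hG]
    refine B.b_mem ?_
    change B.dl a - B.cen a ≤ j
    omega
  have h1 : fil B i j ≤ fil B i (j - 1) ⊔ T.W X i (i + j) := by
    have h2 : (⨆ α, maxGenEigenspace (T.F X i) α) = ⊤ := iSup_maxGenEigenspace_eq_top _
    have h3 := Submodule.inf_iSup_genEigenspace (p := fil B i j) (f := T.F X i)
      (fun x hx => hF j x hx) ⊤
    have h4 : fil B i j = ⨆ α, fil B i j ⊓ maxGenEigenspace (T.F X i) α := by
      rw [← h3]
      change _ = fil B i j ⊓ ⨆ α, maxGenEigenspace (T.F X i) α
      rw [h2, inf_top_eq]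
    rw [h4]
    refine iSup_le fun α => ?_
    rintro y ⟨hy1, hy2⟩
    by_cases hy3 : y ∈ fil B i (j - 1)
    · exact Submodule.mem_sup_left hy3
    · apply Submodule.mem_sup_right
      rw [W_def]
      exact le_GS _ (S := {γ : Ω | IsWeil q γ (i + j)}) (key α y hy2 hy1 hy3) hy2
  obtain ⟨u, hu, v, hv, huv⟩ := Submodule.mem_sup.1 (h1 hxj)
  have hv' := (inc_mem_W B i j v).1 hv
  have hu' : incl T X i u ∈ B.sp {c | B.dl c - B.cen c ≤ j - 1} := hu
  have h2 : B.b a = incl T X i u + incl T X i v := by rw [hG, ← huv, map_add]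
  rw [B.mem_sp] at hu' hv'
  have h3 : B.b.repr (B.b a) a = B.b.repr (incl T X i u) a + B.b.repr (incl T X i v) a := by
    conv_lhs => rw [h2]
    rw [map_add, Finsupp.add_apply]
  rw [Basis.repr_self, Finsupp.single_eq_same] at h3
  have h4 : B.b.repr (incl T X i u) a = 0 := by
    by_contra h5
    have h6 : B.dl a - B.cen a ≤ j - 1 := hu' a h5
    omega
  rw [h4, zero_add] at h3
  have h5 : B.b.repr (incl T X i v) a ≠ 0 := by
    rw [← h3]; exact one_ne_zero
  have h6 : B.dl a = j := (hv' a h5).2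
  omega

/-- If all centres are `0` then the weight-monodromy property holds. -/
theorem wm_of_cen_zero (hc : ∀ a, B.cen a = 0) (i : ℕ) : T.WeightMonodromy X i := by
  have hfil : ∀ k : ℤ, fil B i k = T.Wle X i (i + k) := by
    intro k
    apply le_antisymm
    · intro x hx
      have h1 : incl T X i x ∈ B.sp {a | B.deg a = i ∧ B.dl a - B.cen a ≤ k} :=
        sp_inter B ((B.G_mem i _).1 (Gt_inc X i x)) hx
      have h2 : B.sp {a | B.deg a = i ∧ B.dl a - B.cen a ≤ k}
          ≤ (T.Wle X i (i + k)).map (incl T X i) := by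
        unfold SB.sp
        rw [span_le]
        rintro _ ⟨a, ⟨ha1, ha2⟩, rfl⟩
        have h3 : B.b a ∈ B.sp {c | B.deg c = i ∧ B.dl c = B.dl a} := B.b_mem ⟨ha1, rfl⟩
        rw [← W_map B] at h3
        obtain ⟨y, hy, hya⟩ := h3
        refine ⟨y, ?_, hya⟩
        have h4 : T.W X i (i + B.dl a) ≤ T.Wle X i (i + k) := by
          rw [W_def]
          apply GS_mono
          intro α hα
          refine ⟨_, ?_, hα⟩
          rw [hc a] at ha2
          omega
        exact h4 hy
      obtain ⟨y, hy, hyx⟩ := h2 h1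
      rw [← inc_inj X i hyx]
      exact hy
    · unfold Wle
      apply GS_le
      rintro α ⟨v, hv, hα⟩ y hy
      have h1 : y ∈ T.W X i (i + (v - i)) := by
        have e : (i : ℤ) + (v - i) = v := by ring
        rw [e, W_def]
        exact le_GS _ (S := {γ : Ω | IsWeil q γ v}) hα hy
      rw [inc_mem_W B] at h1
      refine B.sp_mono ?_ h1
      rintro a ⟨h2, h3⟩
      change B.dl a - B.cen a ≤ k
      rw [hc a, h3]
      omega
  refine ⟨fil B i, fil_mono B i, ?_, ?_⟩
  · intro j x hx
    rw [hfil] at hx ⊢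
    exact GS_mapsTo_F _ _ x hx
  · intro j x hx hx' α hα
    rw [hfil] at hx hx' hα
    rw [Wle_eq] at hx
    obtain ⟨a, ha, b, hb, hab⟩ := Submodule.mem_sup.1 hx
    have e2 : (i : ℤ) + j - 1 = i + (j - 1) := by ring
    rw [e2] at hb
    have ha0 : a ≠ 0 := by
      rintro rfl
      apply hx'
      rw [← hab, zero_add]
      exact hb
    have hFa : T.F X i a - α • a = 0 := by
      have h1 : T.F X i a - α • a ∈ T.Wle X i (i + (j - 1)) := by
        have : T.F X i a - α • a = (T.F X i x - α • x) - (T.F X i b - α • b) := by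
          rw [← hab, map_add, smul_add]; abel
        rw [this]
        refine Submodule.sub_mem _ hα (Submodule.sub_mem _ (GS_mapsTo_F _ _ b hb) ?_)
        exact Submodule.smul_mem _ _ hb
      have h2 : T.F X i a - α • a ∈ T.W X i (i + j) :=
        Submodule.sub_mem _ (GS_mapsTo_F _ _ a ha) (Submodule.smul_mem _ _ ha)
      exact Submodule.disjoint_def.1 (W_disj hq X i _ (by omega)) _ h2 h1
    exact eig_mem (T.F X i) _ ha ha0 (sub_eq_zero.1 hFa)

/-- Symmetric sums. -/
theorem sum_symm (f : ℤ → ℝ) : ∑ a, f (B.dl a) = ∑ a, f (-B.dl a) := by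
  classical
  let S : Finset ℤ := Finset.univ.image B.dl ∪ Finset.univ.image (fun a => -B.dl a)
  have h1 : ∑ a, f (B.dl a) = ∑ j ∈ S, ((Finset.univ.filter (fun a => B.dl a = j)).card : ℝ) * f j := by
    rw [← Finset.sum_fiberwise_of_maps_to (s := Finset.univ) (t := S) (g := B.dl)
      (fun a _ => Finset.mem_union_left _ (Finset.mem_image_of_mem _ (Finset.mem_univ a)))]
    apply Finset.sum_congr rfl
    intro j _
    rw [Finset.sum_congr rfl (fun a ha => by rw [(Finset.mem_filter.1 ha).2] :
      ∀ a ∈ Finset.univ.filter (fun a => B.dl a = j), f (B.dl a) = f j), Finset.sum_const,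
      nsmul_eq_mul]
  have h2 : ∑ a, f (-B.dl a) = ∑ j ∈ S, ((Finset.univ.filter (fun a => -B.dl a = j)).card : ℝ) * f j := by
    rw [← Finset.sum_fiberwise_of_maps_to (s := Finset.univ) (t := S) (g := fun a => -B.dl a)
      (fun a _ => Finset.mem_union_right _ (Finset.mem_image_of_mem _ (Finset.mem_univ a)))]
    apply Finset.sum_congr rfl
    intro j _
    rw [Finset.sum_congr rfl (fun a ha => by rw [(Finset.mem_filter.1 ha).2] :
      ∀ a ∈ Finset.univ.filter (fun a => -B.dl a = j), f (-B.dl a) = f j), Finset.sum_const,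
      nsmul_eq_mul]
  rw [h1, h2]
  apply Finset.sum_congr rfl
  intro j _
  have h3 : (Finset.univ.filter (fun a => -B.dl a = j)) = Finset.univ.filter (fun a => B.dl a = -j) := by
    apply Finset.filter_congr
    intro a _
    omega
  rw [h3, card_symm B j]

theorem sum_sg (f : ℤ → ℤ → ℝ) :
    ∑ a, f (B.dl a) (B.cen a) = ∑ a, f (2 * B.cen a - B.dl a) (B.cen a) := by
  rw [← Equiv.sum_comp B.sg (fun a => f (B.dl a) (B.cen a))]
  apply Finset.sum_congr rfl
  intro a _
  rw [B.sg_dl, B.sg_cen]

/-- If not all centres are `0`, the centre is not constant. -/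
theorem cen_nonconst (h : ∃ a, B.cen a ≠ 0) : ∃ a0 a1, B.cen a0 ≠ B.cen a1 := by
  by_contra hcon
  push Not at hcon
  obtain ⟨a, ha⟩ := h
  have h1 := sum_symm B (fun j => (j : ℝ))
  have h2 := sum_sg B (fun d _ => (d : ℝ))
  push_cast at h1 h2
  rw [Finset.sum_neg_distrib] at h1
  rw [Finset.sum_sub_distrib, ← Finset.mul_sum] at h2
  have h3 : ∑ c, (B.cen c : ℝ) = 0 := by linarith
  have h4 : ∑ c, (B.cen c : ℝ) = (Fintype.card B.ι : ℝ) * B.cen a := by
    rw [Finset.sum_congr rfl (fun c _ => by rw [hcon c a] :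
      ∀ c ∈ Finset.univ, (B.cen c : ℝ) = (B.cen a : ℝ)), Finset.sum_const, nsmul_eq_mul]
    rfl
  rw [h4] at h3
  have h5 : (Fintype.card B.ι : ℝ) ≠ 0 := by
    have : 0 < Fintype.card B.ι := Fintype.card_pos_iff.2 ⟨a⟩
    exact_mod_cast this.ne'
  have h6 := (mul_eq_zero.1 h3).resolve_left h5
  exact ha (by exact_mod_cast h6)

theorem pwSB_cen (hK : KunnethIso T) (hc : ∀ a, B.cen a = 0) (n : ℕ) :
    ∀ a, (pwSB hq hK B n).cen a = 0 := by
  induction n with
  | zero => exact hc
  | succ n ih =>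
    intro a
    change (pwSB hq hK B n).cen a.1 + B.cen a.2 = 0
    rw [ih, hc, add_zero]

end main

end Pool.H94.WM
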