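import Mathlib
import Pool.Agent.H94.WM.Main

/-!
Large deviations (for MP_d037d4_ag).
-/

namespace Pool.H94.WM

open Module Pool.H73.WM Pool.H73.WM.Theory

section ld
variable {q : ℕ} {Ω : Type} [Field Ω] [CharZero Ω] [IsAlgClosed Ω] {T : Theory q Ω}
  {hq : 1 < q} {X : T.Var} (B : SB (Nt T X) (Gt T X) (Dt hq X))

/-- The generating function of the weights. -/
noncomputable def Pf (x : ℝ) : ℝ := ∑ a, x ^ (B.dl a)

/-- The generating function of the weights relative to the centres. -/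
noncomputable def Zf (x : ℝ) : ℝ := ∑ a, x ^ (B.dl a - B.cen a)

theorem Pf_symm (x : ℝ) : Pf B x = ∑ a, x ^ (-B.dl a) := sum_symm B (fun j => x ^ j)

theorem Pf_two (x : ℝ) (hx : 0 < x) :
    2 * Pf B x = ∑ a, x ^ (B.dl a - B.cen a) * (x ^ (B.cen a) + x ^ (-B.cen a)) := by
  have h1 : Pf B x = ∑ a, x ^ (B.dl a - B.cen a) * x ^ (B.cen a) := by
    unfold Pf
    apply Finset.sum_congr rfl
    intro a _
    rw [← zpow_add₀ hx.ne']
    congr 1
    ring
  have h2 : Pf B x = ∑ a, x ^ (B.dl a - B.cen a) * x ^ (-B.cen a) := by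
    rw [Pf_symm, sum_sg B (fun d _ => x ^ (-d))]
    apply Finset.sum_congr rfl
    intro a _
    rw [← zpow_add₀ hx.ne']
    congr 1
    ring
  have h3 : ∑ a, x ^ (B.dl a - B.cen a) * (x ^ (B.cen a) + x ^ (-B.cen a))
      = Pf B x + Pf B x := by
    conv_rhs => rw [h1]
    conv_rhs => arg 2; rw [← h1, h2]
    rw [← Finset.sum_add_distrib]
    apply Finset.sum_congr rfl
    intro a _
    ring
  rw [h3]
  ring

theorem two_le (t : ℝ) (ht : 0 < t) : 2 ≤ t + t⁻¹ := by
  have h1 : t * t⁻¹ = 1 := mul_inv_cancel₀ ht.ne'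
  have h2 : 0 < t⁻¹ := inv_pos.2 ht
  nlinarith [sq_nonneg (t - t⁻¹), sq_nonneg (t - 1), sq_nonneg (t⁻¹ - 1)]

theorem two_lt (t : ℝ) (ht : 0 < t) (h1 : t ≠ 1) : 2 < t + t⁻¹ := by
  have h2 : t + t⁻¹ - 2 = (t - 1) ^ 2 * t⁻¹ := by
    field_simp
    ring
  have h3 : 0 < (t - 1) ^ 2 * t⁻¹ := by
    have : t - 1 ≠ 0 := sub_ne_zero.2 h1
    positivity
  linarith

theorem Zf_lt (h : ∃ a, B.cen a ≠ 0) (x : ℝ) (hx : 1 < x) : Zf B x < Pf B x := by
  have hx0 : 0 < x := by linarith
  have h1 := Pf_two B x hx0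
  have h2 : 2 * Zf B x < ∑ a, x ^ (B.dl a - B.cen a) * (x ^ (B.cen a) + x ^ (-B.cen a)) := by
    unfold Zf
    rw [Finset.mul_sum]
    apply Finset.sum_lt_sum
    · intro a _
      rw [mul_comm 2]
      apply mul_le_mul_of_nonneg_left _ (zpow_pos hx0 _).le
      rw [zpow_neg]
      exact two_le _ (zpow_pos hx0 _)
    · obtain ⟨a, ha⟩ := h
      refine ⟨a, Finset.mem_univ _, ?_⟩
      rw [mul_comm 2]
      apply mul_lt_mul_of_pos_left _ (zpow_pos hx0 _)
      rw [zpow_neg]
      apply two_lt _ (zpow_pos hx0 _)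
      intro h3
      apply ha
      have h4 : x ^ (B.cen a) = x ^ (0 : ℤ) := by rw [h3, zpow_zero]
      exact zpow_right_injective₀ hx0 hx.ne' h4
  linarith

theorem card_le_Pf (x : ℝ) (hx : 0 < x) : (Fintype.card B.ι : ℝ) ≤ Pf B x := by
  have h1 : 2 * Pf B x = ∑ a, (x ^ (B.dl a) + (x ^ (B.dl a))⁻¹) := by
    rw [Finset.sum_add_distrib]
    have h2 := Pf_symm B x
    simp only [zpow_neg] at h2
    rw [← h2]
    unfold Pf
    ring
  have h2 : ∑ a : B.ι, (2 : ℝ) ≤ ∑ a, (x ^ (B.dl a) + (x ^ (B.dl a))⁻¹) :=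
    Finset.sum_le_sum fun a _ => two_le _ (zpow_pos hx _)
  rw [Finset.sum_const, nsmul_eq_mul, Finset.card_univ] at h2
  linarith

theorem Pf_exp_le (l K : ℝ) (hK : ∀ a, |(B.dl a : ℝ)| ≤ K) :
    Pf B (Real.exp (2 * l)) ≤ Fintype.card B.ι * Real.exp (2 * l ^ 2 * K ^ 2) := by
  have h0 : 0 < Real.exp (2 * l) := Real.exp_pos _
  have h1 : 2 * Pf B (Real.exp (2 * l)) = ∑ a, 2 * Real.cosh (2 * l * B.dl a) := by
    have h2 := Pf_symm B (Real.exp (2 * l))
    have h3 : 2 * Pf B (Real.exp (2 * l)) = Pf B (Real.exp (2 * l)) + Pf B (Real.exp (2 * l)) := by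
      ring
    rw [h3]
    conv_lhs => arg 2; rw [h2]
    unfold Pf
    rw [← Finset.sum_add_distrib]
    apply Finset.sum_congr rfl
    intro a _
    rw [← Real.rpow_intCast, ← Real.rpow_intCast, ← Real.exp_mul, ← Real.exp_mul, Real.cosh_eq]
    push_cast
    have e2 : 2 * l * -(B.dl a : ℝ) = -(2 * l * B.dl a) := by ring
    rw [e2]
    ring
  have h2 : ∑ a, 2 * Real.cosh (2 * l * B.dl a) ≤ ∑ a : B.ι, 2 * Real.exp (2 * l ^ 2 * K ^ 2) := by
    apply Finset.sum_le_sum
    intro a _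
    apply mul_le_mul_of_nonneg_left _ zero_le_two
    refine (Real.cosh_le_exp_half_sq _).trans (Real.exp_le_exp.2 ?_)
    have h3 : (B.dl a : ℝ) ^ 2 ≤ K ^ 2 := by
      rw [← sq_abs (B.dl a : ℝ)]
      exact pow_le_pow_left₀ (abs_nonneg _) (hK a) 2
    have h4 : 0 ≤ l ^ 2 := sq_nonneg _
    nlinarith
  rw [Finset.sum_const, nsmul_eq_mul, Finset.card_univ] at h2
  linarith

/-- The main inequality. -/
theorem main_ineq (x : ℝ) (hx : 1 < x) (L : ℕ) (δ : ℝ) (hδ : 0 < δ)
    (h : ∀ j : ℕ, j ≤ L → δ * (dimSum T X j : ℝ) ≤ (rankSum T X j : ℝ)) :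
    Pf B x ≤ 2 * ((L + 1) * (δ⁻¹ * Zf B x) + (x ^ L)⁻¹ * Pf B (x ^ 2)) := by
  classical
  have hx0 : 0 < x := by linarith
  -- negative weights
  have h1 : ∑ a ∈ Finset.univ.filter (fun a => B.dl a < 0), x ^ (B.dl a)
      ≤ ∑ a ∈ Finset.univ.filter (fun a => ¬ B.dl a < 0), x ^ (B.dl a) := by
    have h2 := sum_symm B (fun j => if j < 0 then x ^ (-j) else 0)
    calc ∑ a ∈ Finset.univ.filter (fun a => B.dl a < 0), x ^ (B.dl a)
        ≤ ∑ a ∈ Finset.univ.filter (fun a => B.dl a < 0), x ^ (-B.dl a) := by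
          apply Finset.sum_le_sum
          intro a ha
          have := (Finset.mem_filter.1 ha).2
          exact zpow_le_zpow_right₀ hx.le (by omega)
      _ = ∑ a, (if B.dl a < 0 then x ^ (-B.dl a) else 0) := Finset.sum_filter _ _
      _ = ∑ a, (if -B.dl a < 0 then x ^ (- -B.dl a) else 0) := h2
      _ = ∑ a ∈ Finset.univ.filter (fun a => -B.dl a < 0), x ^ (- -B.dl a) :=
          (Finset.sum_filter _ _).symm
      _ = ∑ a ∈ Finset.univ.filter (fun a => -B.dl a < 0), x ^ (B.dl a) := by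
          apply Finset.sum_congr rfl
          intro a _
          rw [neg_neg]
      _ ≤ _ := by
          apply Finset.sum_le_sum_of_subset_of_nonneg
          · intro a ha
            have := (Finset.mem_filter.1 ha).2
            exact Finset.mem_filter.2 ⟨Finset.mem_univ _, by omega⟩
          · intro a _ _
            exact (zpow_pos hx0 _).le
  have h2 : Pf B x ≤ 2 * ∑ a ∈ Finset.univ.filter (fun a => ¬ B.dl a < 0), x ^ (B.dl a) := by
    unfold Pf
    rw [← Finset.sum_filter_add_sum_filter_not Finset.univ (fun a => B.dl a < 0)]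
    linarith
  refine h2.trans (mul_le_mul_of_nonneg_left ?_ zero_le_two)
  rw [← Finset.sum_filter_add_sum_filter_not
    (Finset.univ.filter (fun a => ¬ B.dl a < 0)) (fun a => B.dl a ≤ L)]
  apply add_le_add
  · -- small weights
    have h3 : ∑ a ∈ (Finset.univ.filter (fun a => ¬ B.dl a < 0)).filter (fun a => B.dl a ≤ L),
        x ^ (B.dl a) = ∑ j ∈ Finset.range (L + 1), (dimSum T X j : ℝ) * x ^ j := by
      have h4 : ∀ j ∈ Finset.range (L + 1), (dimSum T X j : ℝ) * x ^ j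
          = ∑ a ∈ ((Finset.univ.filter (fun a => ¬ B.dl a < 0)).filter
              (fun a => B.dl a ≤ L)).filter (fun a => (B.dl a).toNat = j), x ^ (B.dl a) := by
        intro j hj
        have hj' := Finset.mem_range.1 hj
        rw [dimSum_eq B]
        have h5 : ((Finset.univ.filter (fun a => ¬ B.dl a < 0)).filter
              (fun a => B.dl a ≤ L)).filter (fun a => (B.dl a).toNat = j)
            = Finset.univ.filter (fun a => B.dl a = (j : ℤ)) := by
          ext a
          simp only [Finset.mem_filter, Finset.mem_univ, true_and]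
          omega
        rw [h5, Finset.sum_congr rfl (fun a ha => by rw [(Finset.mem_filter.1 ha).2, zpow_natCast] :
          ∀ a ∈ Finset.univ.filter (fun a => B.dl a = (j : ℤ)), x ^ (B.dl a) = x ^ j),
          Finset.sum_const, nsmul_eq_mul]
      rw [Finset.sum_congr rfl h4]
      symm
      apply Finset.sum_fiberwise_of_maps_to
      intro a ha
      have := (Finset.mem_filter.1 ha)
      have h6 := (Finset.mem_filter.1 this.1).2
      have h7 := this.2
      rw [Finset.mem_range]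
      omega
    rw [h3]
    have h4 : ∀ j ∈ Finset.range (L + 1), (dimSum T X j : ℝ) * x ^ j ≤ δ⁻¹ * Zf B x := by
      intro j hj
      have hj' := Finset.mem_range.1 hj
      have h5 := h j (by omega)
      have h6 := rankSum_le B x hx.le j
      have h7 : (dimSum T X j : ℝ) ≤ δ⁻¹ * rankSum T X j := by
        rw [inv_mul_eq_div, le_div_iff₀ hδ, mul_comm]
        exact h5
      calc (dimSum T X j : ℝ) * x ^ j ≤ (δ⁻¹ * rankSum T X j) * x ^ j :=
            mul_le_mul_of_nonneg_right h7 (pow_nonneg hx0.le _)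
        _ = δ⁻¹ * (x ^ j * rankSum T X j) := by ring
        _ ≤ δ⁻¹ * Zf B x := mul_le_mul_of_nonneg_left h6 (inv_pos.2 hδ).le
    refine (Finset.sum_le_sum h4).trans (le_of_eq ?_)
    rw [Finset.sum_const, Finset.card_range, nsmul_eq_mul]
    push_cast
    ring
  · -- large weights
    have h3 : (x ^ L)⁻¹ * Pf B (x ^ 2) = ∑ a, (x ^ L)⁻¹ * (x ^ 2) ^ (B.dl a) := by
      unfold Pf
      rw [Finset.mul_sum]
    rw [h3]
    refine le_trans (Finset.sum_le_sum ?_) (Finset.sum_le_sum_of_subset_of_nonneg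
      (Finset.subset_univ ((Finset.univ.filter (fun a => ¬ B.dl a < 0)).filter
        (fun a => ¬ B.dl a ≤ L))) ?_)
    · intro a ha
      have h5 := (Finset.mem_filter.1 ha).2
      have e1 : (x ^ L)⁻¹ = x ^ (-(L : ℤ)) := by rw [zpow_neg, zpow_natCast]
      have e2 : (x ^ 2) ^ (B.dl a) = x ^ (2 * B.dl a) := by
        rw [← zpow_natCast x 2, ← zpow_mul]
        rfl
      rw [e1, e2, ← zpow_add₀ hx0.ne']
      exact zpow_le_zpow_right₀ hx.le (by omega)
    · intro a _ _
      have : 0 < (x ^ 2) ^ (B.dl a) := zpow_pos (by positivity) _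
      positivity

end ld

end Pool.H94.WM
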