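import Mathlib
import Pool.Agent.H94.WM.LD

/-!
The statistical criteria (for MP_d037d4_ag).
-/

namespace Pool.H94.WM

open Module Pool.H73.WM Pool.H73.WM.Theory Filter Topology

section fin
variable {q : ℕ} {Ω : Type} [Field Ω] [CharZero Ω] [IsAlgClosed Ω] {T : Theory q Ω}
  {hq : 1 < q} {Y : T.Var} (B : SB (Nt T Y) (Gt T Y) (Dt hq Y))

theorem card_pw (hK : KunnethIso T) (n : ℕ) :
    (Fintype.card (pwSB hq hK B n).ι : ℝ) = (Fintype.card B.ι : ℝ) ^ (n + 1) := by
  have h := pwSB_gen hq hK B (R := ℝ) (fun _ _ => 1) (fun _ _ _ _ => by ring) n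
  simpa using h

theorem Pf_pw (hK : KunnethIso T) (x : ℝ) (hx : 0 < x) (n : ℕ) :
    Pf (pwSB hq hK B n) x = Pf B x ^ (n + 1) :=
  pwSB_gen hq hK B (R := ℝ) (fun d _ => x ^ d) (fun a b _ _ => zpow_add₀ hx.ne' a b) n

theorem Zf_pw (hK : KunnethIso T) (x : ℝ) (hx : 0 < x) (n : ℕ) :
    Zf (pwSB hq hK B n) x = Zf B x ^ (n + 1) :=
  pwSB_gen hq hK B (R := ℝ) (fun d c => x ^ (d - c)) (fun a b c d => by
    rw [← zpow_add₀ hx.ne']; congr 1; ring) n

theorem tends_zero (η ε l κ b : ℝ) (hε : 0 < ε) (hb : 0 < b) :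
    Tendsto (fun n : ℕ => 2 * (η * n + 1) * Real.exp (-(ε * n))
      + 2 * Real.exp (l + κ) * Real.exp (-(b * n))) atTop (𝓝 0) := by
  have t1 : Tendsto (fun n : ℕ => (ε * (n : ℝ)) ^ 1 * Real.exp (-(ε * n))) atTop (𝓝 0) :=
    (Real.tendsto_pow_mul_exp_neg_atTop_nhds_zero 1).comp
      (tendsto_natCast_atTop_atTop.const_mul_atTop hε)
  have t2 : Tendsto (fun n : ℕ => (ε * (n : ℝ)) ^ 0 * Real.exp (-(ε * n))) atTop (𝓝 0) :=
    (Real.tendsto_pow_mul_exp_neg_atTop_nhds_zero 0).comp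
      (tendsto_natCast_atTop_atTop.const_mul_atTop hε)
  have t3 : Tendsto (fun n : ℕ => (b * (n : ℝ)) ^ 0 * Real.exp (-(b * n))) atTop (𝓝 0) :=
    (Real.tendsto_pow_mul_exp_neg_atTop_nhds_zero 0).comp
      (tendsto_natCast_atTop_atTop.const_mul_atTop hb)
  have h := ((t1.const_mul (2 * η / ε)).add (t2.const_mul 2)).add (t3.const_mul (2 * Real.exp (l + κ)))
  simp only [mul_zero, add_zero] at h
  refine h.congr fun n => ?_
  have hε' : ε ≠ 0 := hε.ne'
  rw [pow_one, pow_zero, pow_zero, one_mul, one_mul]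
  field_simp

theorem rank_fail (hK : KunnethIso T) (h : ∃ a, B.cen a ≠ 0) : ¬ RankCondition T Y := by
  rintro ⟨η, hη, hR⟩
  obtain ⟨K, hKb⟩ : ∃ K : ℝ, ∀ a, |(B.dl a : ℝ)| ≤ K := by
    refine ⟨∑ a, |(B.dl a : ℝ)|, fun a => ?_⟩
    exact Finset.single_le_sum (f := fun a => |(B.dl a : ℝ)|) (fun _ _ => abs_nonneg _)
      (Finset.mem_univ a)
  set l : ℝ := η / (4 * (K ^ 2 + 1)) with hl
  have hK1 : 0 < K ^ 2 + 1 := by positivity
  have hl0 : 0 < l := by positivity
  set x : ℝ := Real.exp l with hx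
  have hx1 : 1 < x := Real.one_lt_exp_iff.2 hl0
  have hx0 : 0 < x := Real.exp_pos _
  set κ : ℝ := 2 * l ^ 2 * K ^ 2 with hκ
  have hκl : κ ≤ l * η / 2 := by
    have h1 : l * (4 * (K ^ 2 + 1)) = η := by
      rw [hl]; field_simp
    have h2 : l * η / 2 - κ = 2 * l ^ 2 := by
      rw [hκ, ← h1]; ring
    have h3 : 0 ≤ 2 * l ^ 2 := by positivity
    linarith
  obtain ⟨a0, ha0⟩ := h
  have hcard : 1 ≤ (Fintype.card B.ι : ℝ) := by
    have : 0 < Fintype.card B.ι := Fintype.card_pos_iff.2 ⟨a0⟩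
    exact_mod_cast this
  have hP1 := card_le_Pf B x hx0
  have hP0 : 0 < Pf B x := by linarith
  have hZP := Zf_lt B ⟨a0, ha0⟩ x hx1
  have hZ0 : 0 < Zf B x := by
    unfold Zf
    apply Finset.sum_pos (fun a _ => zpow_pos hx0 _) ⟨a0, Finset.mem_univ _⟩
  have hP2 : Pf B (x ^ 2) ≤ Pf B x * Real.exp κ := by
    have h1 : x ^ 2 = Real.exp (2 * l) := by
      rw [hx, ← Real.exp_nat_mul]
      norm_num
    rw [h1]
    refine (Pf_exp_le B l K hKb).trans ?_
    exact mul_le_mul_of_nonneg_right hP1 (Real.exp_pos _).le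
  have hP20 : 0 ≤ Pf B (x ^ 2) := by
    unfold Pf
    exact Finset.sum_nonneg fun a _ => (zpow_pos (by positivity) _).le
  set ε : ℝ := Real.log (Pf B x / Zf B x) / 2 with hε
  have hε0 : 0 < ε := by
    have : 0 < Real.log (Pf B x / Zf B x) := Real.log_pos ((one_lt_div hZ0).2 hZP)
    positivity
  have hZε : Zf B x = Pf B x * Real.exp (-(2 * ε)) := by
    have h1 : 2 * ε = Real.log (Pf B x / Zf B x) := by rw [hε]; ring
    rw [h1, Real.exp_neg, Real.exp_log (div_pos hP0 hZ0)]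
    field_simp
  have hten := tends_zero η ε l κ (l * η / 2) hε0 (by positivity)
  have hev : ∀ᶠ n : ℕ in atTop, 2 * (η * n + 1) * Real.exp (-(ε * n))
      + 2 * Real.exp (l + κ) * Real.exp (-(l * η / 2 * n)) < 1 :=
    hten.eventually_lt_const zero_lt_one
  obtain ⟨n0, hn0⟩ := eventually_atTop.1 hev
  obtain ⟨n, hn, hR'⟩ := hR ε hε0 n0
  have h1 := hn0 n hn
  have hηn : 0 ≤ η * n := by positivity
  have h2 := main_ineq (pwSB hq hK B n) x hx1 ⌊η * n⌋₊ (Real.exp (-ε * n)) (Real.exp_pos _)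
    (fun j hj => hR' j ((Nat.cast_le.2 hj).trans (Nat.floor_le hηn)))
  rw [Pf_pw B hK x hx0, Zf_pw B hK x hx0, Pf_pw B hK (x ^ 2) (by positivity)] at h2
  have hL1 : (⌊η * n⌋₊ : ℝ) ≤ η * n := Nat.floor_le hηn
  have hL2 : η * n < ⌊η * n⌋₊ + 1 := Nat.lt_floor_add_one _
  have hPn : 0 < Pf B x ^ (n + 1) := pow_pos hP0 _
  -- first term
  have h3 : (Real.exp (-ε * n))⁻¹ * Zf B x ^ (n + 1)
      ≤ Pf B x ^ (n + 1) * Real.exp (-(ε * n)) := by
    rw [hZε, mul_pow, ← Real.exp_neg, ← Real.exp_nat_mul]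
    have e : Real.exp (-(-ε * n)) * (Pf B x ^ (n + 1) * Real.exp (((n + 1 : ℕ) : ℝ) * -(2 * ε)))
        = Pf B x ^ (n + 1) * Real.exp (-(ε * n) - 2 * ε) := by
      rw [mul_left_comm, ← Real.exp_add]
      congr 2
      push_cast
      ring
    rw [e]
    apply mul_le_mul_of_nonneg_left _ hPn.le
    apply Real.exp_le_exp.2
    linarith
  have h4 : ((⌊η * n⌋₊ : ℝ) + 1) * ((Real.exp (-ε * n))⁻¹ * Zf B x ^ (n + 1))
      ≤ Pf B x ^ (n + 1) * ((η * n + 1) * Real.exp (-(ε * n))) := by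
    calc ((⌊η * n⌋₊ : ℝ) + 1) * ((Real.exp (-ε * n))⁻¹ * Zf B x ^ (n + 1))
        ≤ (η * n + 1) * (Pf B x ^ (n + 1) * Real.exp (-(ε * n))) := by
          apply mul_le_mul (by linarith) h3 _ (by positivity)
          positivity
      _ = _ := by ring
  -- second term
  have h5 : (x ^ ⌊η * n⌋₊)⁻¹ * Pf B (x ^ 2) ^ (n + 1)
      ≤ Pf B x ^ (n + 1) * (Real.exp (l + κ) * Real.exp (-(l * η / 2 * n))) := by
    have h6 : (x ^ ⌊η * n⌋₊)⁻¹ = Real.exp (-(⌊η * n⌋₊ * l)) := by
      rw [hx, ← Real.exp_nat_mul, Real.exp_neg]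
    have h7 : Pf B (x ^ 2) ^ (n + 1) ≤ Pf B x ^ (n + 1) * Real.exp (((n + 1 : ℕ) : ℝ) * κ) := by
      rw [Real.exp_nat_mul, ← mul_pow]
      exact pow_le_pow_left₀ hP20 hP2 _
    rw [h6]
    calc Real.exp (-(⌊η * n⌋₊ * l)) * Pf B (x ^ 2) ^ (n + 1)
        ≤ Real.exp (-(⌊η * n⌋₊ * l)) * (Pf B x ^ (n + 1) * Real.exp (((n + 1 : ℕ) : ℝ) * κ)) :=
          mul_le_mul_of_nonneg_left h7 (Real.exp_pos _).le
      _ = Pf B x ^ (n + 1) * Real.exp (-(⌊η * n⌋₊ * l) + ((n + 1 : ℕ) : ℝ) * κ) := by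
          rw [mul_left_comm, ← Real.exp_add]
      _ ≤ Pf B x ^ (n + 1) * Real.exp (l + κ + -(l * η / 2 * n)) := by
          apply mul_le_mul_of_nonneg_left _ hPn.le
          apply Real.exp_le_exp.2
          push_cast
          have h8 : κ * n ≤ l * η / 2 * n := mul_le_mul_of_nonneg_right hκl (Nat.cast_nonneg _)
          have h9 : l * (η * n) ≤ l * (⌊η * n⌋₊ + 1) := mul_le_mul_of_nonneg_left hL2.le hl0.le
          nlinarith
      _ = _ := by rw [Real.exp_add (l + κ)]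
  have h6 : Pf B x ^ (n + 1) ≤ Pf B x ^ (n + 1) * (2 * (η * n + 1) * Real.exp (-(ε * n))
      + 2 * Real.exp (l + κ) * Real.exp (-(l * η / 2 * n))) := by
    calc Pf B x ^ (n + 1) ≤ _ := h2
      _ ≤ 2 * (Pf B x ^ (n + 1) * ((η * n + 1) * Real.exp (-(ε * n)))
          + Pf B x ^ (n + 1) * (Real.exp (l + κ) * Real.exp (-(l * η / 2 * n)))) := by
          linarith
      _ = _ := by ring
  have h7 : Pf B x ^ (n + 1) * (2 * (η * n + 1) * Real.exp (-(ε * n))
      + 2 * Real.exp (l + κ) * Real.exp (-(l * η / 2 * n))) < Pf B x ^ (n + 1) * 1 :=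
    mul_lt_mul_of_pos_left h1 hPn
  linarith

open Classical in
theorem conc_pw (hK : KunnethIso T) (h : ∃ a, B.cen a ≠ 0) (n : ℕ) (s : ℤ) :
    ((Finset.univ.filter (fun a => (pwSB hq hK B n).cen a = s)).card : ℝ)
      ≤ 2 * √(Fintype.card B.ι) / √((n + 1 : ℕ) : ℝ) * (Fintype.card B.ι : ℝ) ^ (n + 1) := by
  obtain ⟨a0, a1, ha⟩ := cen_nonconst B h
  exact conc B.cen a0 a1 ha (pwSB hq hK B n).cen (n + 1) (Nat.succ_pos n)
    (fun z hz => pwSB_gen hq hK B (R := ℂ) (fun _ c => z ^ c)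
      (fun _ _ c d => zpow_add₀ hz c d) n) s

theorem prop_fail (hK : KunnethIso T) (h : ∃ a, B.cen a ≠ 0) : ¬ ProportionCondition T Y := by
  classical
  rintro ⟨n, M, hM, hineq⟩
  unfold ProportionBound at hineq
  rw [betti_eq B, betti_eq (pwSB hq hK B n), errSum_eq' (pwSB hq hK B n) M hM, card_pw B hK n]
    at hineq
  set C : ℝ := 2 * √(Fintype.card B.ι) with hC
  have hC0 : 0 ≤ C := by positivity
  have hpos : 0 < (Fintype.card B.ι : ℝ) ^ (n + 1) := by
    obtain ⟨a, _⟩ := h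
    have : 0 < Fintype.card B.ι := Fintype.card_pos_iff.2 ⟨a⟩
    positivity
  have h2 : ∑ a, ind ((pwSB hq hK B n).cen a)
      = ((Finset.univ.filter (fun a => (pwSB hq hK B n).cen a = 0)).card : ℝ) := by
    rw [Finset.card_filter]; push_cast; rfl
  have h3 := conc_pw B hK h n 0
  rw [h2] at hineq
  have e : ((n + 1 : ℕ) : ℝ) = (n : ℝ) + 1 := by push_cast; ring
  rw [e] at h3
  have hN : 0 < √((n : ℝ) + 1) := by positivity
  have h5 : √((n : ℝ) + 1) *
      ((Finset.univ.filter (fun a => (pwSB hq hK B n).cen a = 0)).card : ℝ)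
      ≤ C * (Fintype.card B.ι : ℝ) ^ (n + 1) := by
    calc √((n : ℝ) + 1) *
        ((Finset.univ.filter (fun a => (pwSB hq hK B n).cen a = 0)).card : ℝ)
        ≤ √((n : ℝ) + 1) * (C / √((n : ℝ) + 1) * (Fintype.card B.ι : ℝ) ^ (n + 1)) :=
          mul_le_mul_of_nonneg_left h3 hN.le
      _ = _ := by field_simp
  linarith

theorem mean_fail (hK : KunnethIso T) (h : ∃ a, B.cen a ≠ 0) : ¬ MeanCondition T Y := by
  classical
  rintro ⟨n, M, hn, hM, hineq⟩
  unfold MeanBound at hineq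
  rw [betti_eq B] at hn
  rw [betti_eq B, betti_eq (pwSB hq hK B n), errSum_eq' (pwSB hq hK B n) M hM, card_pw B hK n]
    at hineq
  have hcardpos : 0 < (Fintype.card B.ι : ℝ) := by
    obtain ⟨a, _⟩ := h
    have : 0 < Fintype.card B.ι := Fintype.card_pos_iff.2 ⟨a⟩
    exact_mod_cast this
  set C : ℝ := 2 * √(Fintype.card B.ι) with hC
  have hC0 : 0 < C := by positivity
  have hcard := card_pw B hK n
  set tot : ℝ := (Fintype.card B.ι : ℝ) ^ (n + 1) with htot
  have hpos : 0 < tot := pow_pos hcardpos _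
  have e : ((n + 1 : ℕ) : ℝ) = (n : ℝ) + 1 := by push_cast; ring
  rw [← e] at hineq
  set s : ℝ := √((n + 1 : ℕ) : ℝ) with hs
  have hs0 : 0 < s := by positivity
  have hs4 : 4 * C ≤ s := by
    rw [hs]
    apply Real.le_sqrt_of_sq_le
    have h1 : (4 * C) ^ 2 = 64 * (Fintype.card B.ι : ℝ) := by
      rw [hC, mul_pow, mul_pow, Real.sq_sqrt hcardpos.le]
      ring
    rw [h1]
    exact_mod_cast hn
  set K : ℕ := ⌊s / (8 * C)⌋₊ with hKdef
  have hK1 : (K : ℝ) ≤ s / (8 * C) := Nat.floor_le (by positivity)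
  have hK2 : s / (8 * C) < K + 1 := Nat.lt_floor_add_one _
  -- few small centres
  have h2 : ((Finset.univ.filter (fun a => |(pwSB hq hK B n).cen a| ≤ K)).card : ℝ)
      ≤ tot / 2 := by
    have h3 : (Finset.univ.filter (fun a => |(pwSB hq hK B n).cen a| ≤ K)).card
        = ∑ t ∈ Finset.Icc (-(K : ℤ)) K,
          (Finset.univ.filter (fun a => (pwSB hq hK B n).cen a = t)).card := by
      rw [Finset.card_eq_sum_card_fiberwise (f := (pwSB hq hK B n).cen)
        (t := Finset.Icc (-(K : ℤ)) K)]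
      · apply Finset.sum_congr rfl
        intro t ht
        rw [Finset.mem_Icc] at ht
        congr 1
        ext a
        simp only [Finset.mem_filter, Finset.mem_univ, true_and]
        constructor
        · exact fun h => h.2
        · intro h
          refine ⟨?_, h⟩
          rw [h]
          exact abs_le.2 ht
      · intro a ha
        have := (Finset.mem_filter.1 ha).2
        rw [Finset.mem_coe, Finset.mem_Icc]
        exact abs_le.1 this
    rw [h3]
    push_cast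
    have h4 : ∑ t ∈ Finset.Icc (-(K : ℤ)) K,
        ((Finset.univ.filter (fun a => (pwSB hq hK B n).cen a = t)).card : ℝ)
        ≤ ∑ t ∈ Finset.Icc (-(K : ℤ)) K, C / s * tot :=
      Finset.sum_le_sum fun t _ => conc_pw B hK h n t
    refine h4.trans ?_
    rw [Finset.sum_const, Int.card_Icc, nsmul_eq_mul]
    have h5 : (((K : ℤ) + 1 - -(K : ℤ)).toNat : ℝ) = 2 * K + 1 := by
      have : ((K : ℤ) + 1 - -(K : ℤ)).toNat = 2 * K + 1 := by omega
      rw [this]; push_cast; ring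
    rw [h5]
    have h6 : (2 * (K : ℝ) + 1) * (C / s) ≤ 1 / 2 := by
      have h7 : (2 * (K : ℝ) + 1) * (C / s) ≤ (2 * (s / (8 * C)) + 1) * (C / s) :=
        mul_le_mul_of_nonneg_right (by linarith) (by positivity)
      refine h7.trans ?_
      have h8 : (2 * (s / (8 * C)) + 1) * (C / s) = 1 / 4 + C / s := by
        field_simp
        ring
      rw [h8]
      have h9 : C / s ≤ 1 / 4 := by
        rw [div_le_iff₀ hs0]
        linarith
      linarith
    calc (2 * (K : ℝ) + 1) * (C / s * tot) = (2 * (K : ℝ) + 1) * (C / s) * tot := by ring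
      _ ≤ 1 / 2 * tot := mul_le_mul_of_nonneg_right h6 hpos.le
      _ = tot / 2 := by ring
  -- many large centres
  have h3 : tot / 2 ≤ ((Finset.univ.filter
      (fun a => ¬ |(pwSB hq hK B n).cen a| ≤ K)).card : ℝ) := by
    have h4 := Finset.card_filter_add_card_filter_not (s := (Finset.univ : Finset (pwSB hq hK B n).ι))
      (fun a => |(pwSB hq hK B n).cen a| ≤ K)
    rw [Finset.card_univ] at h4
    have h5 : ((Finset.univ.filter (fun a => |(pwSB hq hK B n).cen a| ≤ K)).card : ℝ)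
      + ((Finset.univ.filter (fun a => ¬ |(pwSB hq hK B n).cen a| ≤ K)).card : ℝ) = tot := by
      rw [← hcard]
      exact_mod_cast h4
    linarith
  have h4 : ((K : ℝ) + 1) * ((Finset.univ.filter
      (fun a => ¬ |(pwSB hq hK B n).cen a| ≤ K)).card : ℝ)
      ≤ ∑ a, |((pwSB hq hK B n).cen a : ℝ)| := by
    calc ((K : ℝ) + 1) * ((Finset.univ.filter
          (fun a => ¬ |(pwSB hq hK B n).cen a| ≤ K)).card : ℝ)
        = ∑ a ∈ Finset.univ.filter (fun a => ¬ |(pwSB hq hK B n).cen a| ≤ K), ((K : ℝ) + 1) := by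
          rw [Finset.sum_const, nsmul_eq_mul, mul_comm]
      _ ≤ ∑ a ∈ Finset.univ.filter (fun a => ¬ |(pwSB hq hK B n).cen a| ≤ K),
          |((pwSB hq hK B n).cen a : ℝ)| := by
          apply Finset.sum_le_sum
          intro a ha
          have h5 := (Finset.mem_filter.1 ha).2
          have h6 : (K : ℤ) + 1 ≤ |(pwSB hq hK B n).cen a| := by omega
          have h7 : (((K : ℤ) + 1 : ℤ) : ℝ) ≤ ((|(pwSB hq hK B n).cen a| : ℤ) : ℝ) := by
            exact_mod_cast h6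
          push_cast at h7
          exact h7
      _ ≤ _ := Finset.sum_le_sum_of_subset_of_nonneg (Finset.filter_subset _ _)
          (fun a _ _ => abs_nonneg _)
  have h5 : s / (8 * C) * (tot / 2) ≤ ∑ a, |((pwSB hq hK B n).cen a : ℝ)| := by
    refine le_trans ?_ h4
    apply mul_le_mul hK2.le h3 (by positivity) (by positivity)
  have h6 : 32 * C * (s / (8 * C) * (tot / 2)) ≤ s * tot := by
    refine le_trans ?_ hineq
    have e2 : 64 * √(Fintype.card B.ι : ℝ) = 32 * C := by rw [hC]; ring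
    rw [e2]
    exact mul_le_mul_of_nonneg_left h5 (by positivity)
  have h8 : 32 * C * (s / (8 * C) * (tot / 2)) = 2 * (s * tot) := by
    field_simp
    ring
  have h9 : 0 < s * tot := by positivity
  linarith

theorem tfae (hq : 1 < q) (T : Theory q Ω) (hK : KunnethIso T) (Y : T.Var) :
    List.TFAE [∀ i, T.WeightMonodromy Y i, RankCondition T Y, ProportionCondition T Y,
      MeanCondition T Y] := by
  obtain ⟨B⟩ := exists_SB_tot hq Y
  have hcen : (¬ ∃ a, B.cen a ≠ 0) → ∀ i, T.WeightMonodromy Y i := by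
    intro h
    push Not at h
    exact wm_of_cen_zero B h
  tfae_have 1 → 2 := by
    intro h
    have hc := pwSB_cen B hK (cen_zero_of_wm B h)
    refine ⟨1, one_pos, fun ε hε n₀ => ⟨n₀, le_rfl, fun j _ => ?_⟩⟩
    rw [rankSum_full (pwSB hq hK B n₀) (hc n₀)]
    apply mul_le_of_le_one_left (Nat.cast_nonneg _)
    apply Real.exp_le_one_iff.2
    have : 0 ≤ ε * n₀ := by positivity
    linarith
  tfae_have 1 → 3 := by
    intro h
    have hc := pwSB_cen B hK (cen_zero_of_wm B h)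
    refine ⟨⌈(2 * √(betti T Y : ℝ) + 1) ^ 2⌉₊, fun i => fil (pwSB hq hK B _) i,
      fun i => fil_mono _ i, ?_⟩
    set n := ⌈(2 * √(betti T Y : ℝ) + 1) ^ 2⌉₊ with hn
    unfold ProportionBound
    rw [errSum_eq' (pwSB hq hK B n) _ (fun i => fil_mono _ i), betti_eq (pwSB hq hK B n)]
    have h1 : ∀ a ∈ (Finset.univ : Finset (pwSB hq hK B n).ι),
        ind ((pwSB hq hK B n).cen a) = 1 := by
      intro a _
      unfold ind
      rw [if_pos (hc _ a)]
    rw [Finset.sum_congr rfl h1, Finset.sum_const, nsmul_eq_mul, mul_one, Finset.card_univ]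
    apply mul_le_mul_of_nonneg_right _ (Nat.cast_nonneg _)
    apply Real.le_sqrt_of_sq_le
    have h2 : (2 * √(betti T Y : ℝ) + 1) ^ 2 ≤ (n : ℝ) := Nat.le_ceil _
    linarith
  tfae_have 1 → 4 := by
    intro h
    have hc := pwSB_cen B hK (cen_zero_of_wm B h)
    refine ⟨64 * betti T Y, fun i => fil (pwSB hq hK B _) i, by omega, fun i => fil_mono _ i, ?_⟩
    unfold MeanBound
    rw [errSum_eq' (pwSB hq hK B _) _ (fun i => fil_mono _ i)]
    have h1 : ∀ a ∈ (Finset.univ : Finset (pwSB hq hK B (64 * betti T Y)).ι),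
        ab ((pwSB hq hK B (64 * betti T Y)).cen a) = 0 := by
      intro a _
      unfold ab
      rw [hc _ a]
      simp
    rw [Finset.sum_congr rfl h1, Finset.sum_const_zero, mul_zero]
    positivity
  tfae_have 2 → 1 := fun h => hcen fun hex => rank_fail B hK hex h
  tfae_have 3 → 1 := fun h => hcen fun hex => prop_fail B hK hex h
  tfae_have 4 → 1 := fun h => hcen fun hex => mean_fail B hK hex h
  tfae_finish

end fin

end Pool.H94.WM
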