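import Mathlib
import Pool.Agent.H94.WM.Fin

/-!
The Künneth isomorphism from the Künneth formula (for MP_d037d4_ag).
-/

namespace Pool.H94.WM

open Module Submodule TensorProduct DirectSum Pool.H73.WM Pool.H73.WM.Theory

/-- Rearrangement of a double sum. -/
theorem sum_anti (f g : ℕ → ℕ) (K L : ℕ) (hf : ∀ i, K < i → f i = 0) (hg : ∀ j, L < j → g j = 0) :
    ∑ k ∈ Finset.range (K + L + 1), ∑ p ∈ Finset.HasAntidiagonal.antidiagonal k, f p.1 * g p.2
      = (∑ i ∈ Finset.range (K + 1), f i) * ∑ j ∈ Finset.range (L + 1), g j := by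
  classical
  rw [Finset.sum_mul_sum, ← Finset.sum_product', Finset.sum_sigma']
  symm
  apply Finset.sum_bij_ne_zero (fun p _ _ => (⟨p.1 + p.2, p⟩ : Σ _ : ℕ, ℕ × ℕ))
  · intro p hp _
    have h1 := Finset.mem_product.1 hp
    have h2 := Finset.mem_range.1 h1.1
    have h3 := Finset.mem_range.1 h1.2
    rw [Finset.mem_sigma]
    exact ⟨Finset.mem_range.2 (by change p.1 + p.2 < K + L + 1; omega),
      Finset.HasAntidiagonal.mem_antidiagonal.2 rfl⟩
  · intro p _ _ p' _ _ h
    simp only [Sigma.mk.injEq, heq_eq_eq] at h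
    exact h.2
  · rintro ⟨k, p⟩ hk hne
    rw [Finset.mem_sigma] at hk
    have h1 := Finset.HasAntidiagonal.mem_antidiagonal.1 hk.2
    refine ⟨p, ?_, hne, ?_⟩
    · rw [Finset.mem_product, Finset.mem_range, Finset.mem_range]
      constructor
      · by_contra h
        apply hne
        change f p.1 * g p.2 = 0
        rw [hf p.1 (by omega), zero_mul]
      · by_contra h
        apply hne
        change f p.1 * g p.2 = 0
        rw [hg p.2 (by omega), mul_zero]
    · simp only at h1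
      subst h1
      rfl
  · intro p _ _
    rfl

section kun
variable {q : ℕ} {Ω : Type} [Field Ω] [CharZero Ω] (T : Theory q Ω)

/-- The Künneth map `H^*(Y) ⊗ H^*(Z) → H^*(Y × Z)`. -/
noncomputable def kun (Y Z : T.Var) : Tot T Y ⊗[Ω] Tot T Z →ₗ[Ω] Tot T (T.prod Y Z) :=
  TensorProduct.lift (DirectSum.toModule Ω ℕ (Tot T Z →ₗ[Ω] Tot T (T.prod Y Z)) fun i =>
    LinearMap.flip (DirectSum.toModule Ω ℕ (T.H Y i →ₗ[Ω] Tot T (T.prod Y Z)) fun j =>
      LinearMap.flip ((T.cross Y Z i j).compr₂ (DirectSum.lof Ω ℕ (T.H (T.prod Y Z)) (i + j)))))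

theorem kun_lof (Y Z : T.Var) (i j : ℕ) (x : T.H Y i) (y : T.H Z j) :
    kun T Y Z (DirectSum.lof Ω ℕ (T.H Y) i x ⊗ₜ DirectSum.lof Ω ℕ (T.H Z) j y)
      = DirectSum.lof Ω ℕ (T.H (T.prod Y Z)) (i + j) (T.cross Y Z i j x y) := by
  unfold kun
  rw [TensorProduct.lift.tmul, DirectSum.toModule_lof, LinearMap.flip_apply,
    DirectSum.toModule_lof, LinearMap.flip_apply, LinearMap.compr₂_apply]

variable [IsAlgClosed Ω]

theorem finrank_tot (hq : 1 < q) (X : T.Var) :
    FiniteDimensional Ω (Tot T X) ∧ finrank Ω (Tot T X) = betti T X := by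
  obtain ⟨B⟩ := exists_SB_tot hq X
  exact ⟨B.finite, by rw [betti_eq B, finrank_eq_card_basis B.b]⟩

omit [IsAlgClosed Ω] in
theorem betti_prod (h : Kunneth T) (Y Z : T.Var) :
    betti T (T.prod Y Z) = betti T Y * betti T Z := by
  unfold betti
  rw [T.dim_prod, ← sum_anti (fun i => finrank Ω (T.H Y i)) (fun j => finrank Ω (T.H Z j))
    (2 * T.dim Y) (2 * T.dim Z)]
  · have e : 2 * (T.dim Y + T.dim Z) + 1 = 2 * T.dim Y + 2 * T.dim Z + 1 := by ring
    rw [e]
    apply Finset.sum_congr rfl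
    intro k _
    exact (h Y Z).2 k
  · intro i hi
    have : Subsingleton (T.H Y i) := ⟨fun x y => by rw [T.vanish Y i hi x, T.vanish Y i hi y]⟩
    exact finrank_zero_of_subsingleton
  · intro j hj
    have : Subsingleton (T.H Z j) := ⟨fun x y => by rw [T.vanish Z j hj x, T.vanish Z j hj y]⟩
    exact finrank_zero_of_subsingleton

omit [IsAlgClosed Ω] in
theorem kun_surj (h : Kunneth T) (Y Z : T.Var) : Function.Surjective (kun T Y Z) := by
  intro z
  have h1 := (h Y Z).1 (fun k => (LinearMap.range (kun T Y Z)).comap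
    (DirectSum.lof Ω ℕ (T.H (T.prod Y Z)) k)) (fun i j x y =>
      ⟨DirectSum.lof Ω ℕ (T.H Y) i x ⊗ₜ DirectSum.lof Ω ℕ (T.H Z) j y, kun_lof T Y Z i j x y⟩)
  have h2 : z ∈ LinearMap.range (kun T Y Z) := by
    induction z using DirectSum.induction_on with
    | zero => exact Submodule.zero_mem _
    | of k z =>
      have h3 : z ∈ (LinearMap.range (kun T Y Z)).comap
          (DirectSum.lof Ω ℕ (T.H (T.prod Y Z)) k) := by
        rw [h1 k]; trivial
      exact h3
    | add x y hx hy => exact Submodule.add_mem _ hx hy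
  exact h2

theorem kunnethIso (hq : 1 < q) (h : Kunneth T) : KunnethIso T := by
  intro Y Z
  obtain ⟨f1, r1⟩ := finrank_tot T hq Y
  obtain ⟨f2, r2⟩ := finrank_tot T hq Z
  obtain ⟨f3, r3⟩ := finrank_tot T hq (T.prod Y Z)
  have hs := kun_surj T h Y Z
  have hr : finrank Ω (Tot T Y ⊗[Ω] Tot T Z) = finrank Ω (Tot T (T.prod Y Z)) := by
    rw [finrank_tensorProduct, r1, r2, r3, betti_prod T h]
  have hi : Function.Injective (kun T Y Z) :=
    (LinearMap.injective_iff_surjective_of_finrank_eq_finrank hr).2 hs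
  exact ⟨LinearEquiv.ofBijective (kun T Y Z) ⟨hi, hs⟩, fun i j x y => kun_lof T Y Z i j x y⟩

end kun

end Pool.H94.WM
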